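import Pool.Agent.Helper79.CV.FDriver
import Pool.Agent.Helper4.CV.TopEdge

/-!
MP_8ee768_co, project TH-Y': the drivers of the stages E and B1 (Finset level).

`QE`, `QB`, `QP` are the configurations (relabelling invariant), `CenE`, `CenB1a`, `CenB1b` the
statements about one centre link which the kernel engine has to prove, `stE_of`, `stB1a_of`,
`stB1b_of` the stage theorems.
-/

set_option autoImplicit false

namespace Pool.Agent.Helper49.TY

open Finset
open Pool.Agent.Helper89.CV (OddCover ofMask)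
open Pool.Agent.Helper97.CV
open Pool.Agent.Helper79.CV
open Pool.Agent.Helper4.CV (Mat NoS StE StB1a StB1b)
open Pool.Agent.Helper82.TY (below Best)

/-! ### relabelling -/

theorem mm_map {B : Finset (Finset (Fin 13))} (hB : OddCover B) (σ : Equiv.Perm (Fin 13))
    {u v : Fin 13} (h : u ≠ v) : mm (mapF σ B) (σ u) (σ v) = mm B u v := mm_mapF hB σ h

theorem MM_map' {B : Finset (Finset (Fin 13))} (hB : OddCover B) (σ : Equiv.Perm (Fin 13))
    (u : Fin 13) : MM (mapF σ B) u = MM B (σ.symm u) := by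
  conv_lhs => rw [← Equiv.apply_symm_apply σ u]
  exact MM_mapF hB σ _

theorem sum_MM_map {B : Finset (Finset (Fin 13))} (hB : OddCover B) (σ : Equiv.Perm (Fin 13)) :
    ∑ z, MM (mapF σ B) z = ∑ z, MM B z := by
  rw [← Equiv.sum_comp σ]
  exact sum_congr rfl fun z _ => MM_mapF hB σ z

theorem symm_ne {σ : Equiv.Perm (Fin 13)} {w u : Fin 13} (h : w ≠ σ u) : σ.symm w ≠ u :=
  fun h2 => h (by rw [← h2, Equiv.apply_symm_apply])

/-- a light point is at most 6, otherwise it is at least 8 -/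
theorem light_or_heavy {B : Finset (Finset (Fin 13))} (hB : OddCover B) (u : Fin 13) :
    MM B u ≤ 6 ∨ 8 ≤ MM B u := by
  obtain ⟨t, ht⟩ := MM_even hB u
  omega

/-! ### stage E -/

/-- the configuration of stage E: centre `c` of class `j`, the other end `y` of the edge, the
small point `x` -/
structure QE (reps : List ℕ) (j : ℕ) (B : Finset (Finset (Fin 13))) (c y x : Fin 13) :
    Prop where
  best : Best B
  mat : Mat B
  nos : NoS B
  sum : ∑ z, MM B z = 88
  cy : c ≠ y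
  cx : c ≠ x
  yx : y ≠ x
  hc : MM B c = 6
  hy : MM B y = 6
  hx : MM B x ≤ 2
  edge : mm B c y = 1
  min : ∀ u, MM B x ≤ MM B u
  exc : ∃ s, ∀ u, u ≠ x → u ≠ s → 6 ≤ MM B u
  cls : Cls reps j (link B c)
  low : ∀ i < j, ¬ Cls reps i (link B y)

theorem QE.map {reps : List ℕ} {j : ℕ} {B : Finset (Finset (Fin 13))} {c y x : Fin 13}
    (h : QE reps j B c y x) (σ : Equiv.Perm (Fin 13)) :
    QE reps j (mapF σ B) (σ c) (σ y) (σ x) := by
  have hB := h.best.odd
  refine ⟨best_mapF h.best σ, mat_mapF hB h.mat σ, nos_mapF hB h.nos σ, ?_, σ.injective.ne h.cy,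
    σ.injective.ne h.cx, σ.injective.ne h.yx, ?_, ?_, ?_, ?_, ?_, ?_, ?_, ?_⟩
  · rw [sum_MM_map hB, h.sum]
  · rw [MM_mapF hB, h.hc]
  · rw [MM_mapF hB, h.hy]
  · rw [MM_mapF hB]
    exact h.hx
  · rw [mm_mapF hB σ h.cy, h.edge]
  · intro u
    rw [MM_mapF hB, MM_map' hB]
    exact h.min _
  · obtain ⟨s, hs⟩ := h.exc
    refine ⟨σ s, fun u h1 h2 => ?_⟩
    rw [MM_map' hB]
    exact hs _ (symm_ne h1) (symm_ne h2)
  · rw [link_mapF, cls_mapF]
    exact h.cls
  · intro i hi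
    rw [link_mapF, cls_mapF]
    exact h.low i hi

section E

variable {reps : List ℕ} {j : ℕ} {B : Finset (Finset (Fin 13))} {c y x : Fin 13}

theorem QE.mm_xc (h : QE reps j B c y x) : mm B x c = 0 :=
  h.nos x c h.cx.symm (h.hx.trans (by norm_num)) (le_of_eq h.hc)

theorem QE.mm_xy (h : QE reps j B c y x) : mm B x y = 0 :=
  h.nos x y h.yx.symm (h.hx.trans (by norm_num)) (le_of_eq h.hy)

theorem QE.mm_cx (h : QE reps j B c y x) : mm B c x = 0 := by
  rw [mm_comm]
  exact h.mm_xc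

theorem QE.mm_yx (h : QE reps j B c y x) : mm B y x = 0 := by
  rw [mm_comm]
  exact h.mm_xy

/-- the other neighbours of the centre are heavy -/
theorem QE.heavy_c (h : QE reps j B c y x) {w : Fin 13} (hwc : w ≠ c) (hwy : w ≠ y)
    (hm : 1 ≤ mm B c w) : 8 ≤ MM B w := by
  rcases light_or_heavy h.best.odd w with h1 | h1
  · have h2 := h.mat.path c y w h.cy hwc.symm hwy.symm (le_of_eq h.hc) (le_of_eq h.hy) h1
      (le_of_eq h.edge.symm)
    omega
  · exact h1

/-- the other neighbours of the second end are heavy -/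
theorem QE.heavy_y (h : QE reps j B c y x) {w : Fin 13} (hwc : w ≠ c) (hwy : w ≠ y)
    (hm : 1 ≤ mm B y w) : 8 ≤ MM B w := by
  rcases light_or_heavy h.best.odd w with h1 | h1
  · have h2 := h.mat.path y c w h.cy.symm hwy.symm hwc.symm (le_of_eq h.hy) (le_of_eq h.hc) h1
      (by rw [mm_comm]; exact le_of_eq h.edge.symm)
    omega
  · exact h1

/-- the neighbours of the small point are heavy -/
theorem QE.heavy_x (h : QE reps j B c y x) {w : Fin 13} (hwx : w ≠ x)
    (hm : 1 ≤ mm B x w) : 8 ≤ MM B w := by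
  rcases light_or_heavy h.best.odd w with h1 | h1
  · have h2 := h.nos x w hwx.symm (h.hx.trans (by norm_num)) h1
    omega
  · exact h1

/-- lower bounds with one exception -/
theorem QE.low_exc (h : QE reps j B c y x) {l : Fin 13 → ℕ}
    (hl : ∀ u, u ≠ c → u ≠ y → u ≠ x →
      l u ≤ if 1 ≤ mm B c u ∨ 1 ≤ mm B y u ∨ 1 ≤ mm B x u then 8 else 6) :
    ∃ s, (∀ u, u ≠ c → u ≠ y → u ≠ x → u ≠ s → l u ≤ MM B u) ∧
      (s ≠ c → s ≠ y → s ≠ x → l s ≤ MM B s + (6 - MM B x)) := by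
  obtain ⟨s, hs⟩ := h.exc
  have key : ∀ u, u ≠ c → u ≠ y → u ≠ x →
      (1 ≤ mm B c u ∨ 1 ≤ mm B y u ∨ 1 ≤ mm B x u) → 8 ≤ MM B u := by
    rintro u h1 h2 h3 (h4 | h4 | h4)
    · exact h.heavy_c h1 h2 h4
    · exact h.heavy_y h1 h2 h4
    · exact h.heavy_x h3 h4
  refine ⟨s, fun u h1 h2 h3 h4 => ?_, fun h1 h2 h3 => ?_⟩
  · refine (hl u h1 h2 h3).trans ?_
    split_ifs with h5
    · exact key u h1 h2 h3 h5
    · exact hs u h3 h4
  · have h4 := hl s h1 h2 h3
    have h5 := h.min s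
    split_ifs at h4 with h6
    · have := key s h1 h2 h3 h6
      omega
    · omega

end E

/-- the statement of one centre, stage E -/
def CenE (reps : List ℕ) (j r : ℕ) : Prop :=
  ∀ (B : Finset (Finset (Fin 13))) (p q : Fin 13), QE reps j B 12 p q →
    link B 12 = fam 12 4 r → False

/-- **stage E from the classes and the centres** -/
theorem stE_of {reps : List ℕ} (hcls : ClsOK 6 reps)
    (hC : ∀ j r : ℕ, reps[j]? = some r → CenE reps j r) : StE := by
  intro B hB hmat hnos hsum x y z hyz hmin hx hy hz hm s hs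
  classical
  have hBo := hB.odd
  have hyx : y ≠ x := by
    rintro rfl
    omega
  have hzx : z ≠ x := by
    rintro rfl
    omega
  -- the class numbers
  have hey : ∃ j, Cls reps j (link B y) := cls_link hBo hcls (le_of_eq hy)
  have hez : ∃ j, Cls reps j (link B z) := cls_link hBo hcls (le_of_eq hz)
  -- the ordered form
  have key : ∀ c y, c ≠ y → c ≠ x → y ≠ x → MM B c = 6 → MM B y = 6 → mm B c y = 1 →
      ∀ j, Cls reps j (link B c) → (∀ i < j, ¬ Cls reps i (link B y)) → False := by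
    intro c y h1 h2 h3 h4 h5 h6 j h7 h8
    have hQ : QE reps j B c y x :=
      ⟨hB, hmat, hnos, hsum, h1, h2, h3, h4, h5, hx, h6, hmin, ⟨s, hs⟩, h7, h8⟩
    obtain ⟨r, hr, σ, hσ⟩ := h7
    have hc12 := perm_root hBo hσ
    have hQ' := hQ.map σ
    rw [hc12] at hQ'
    refine hC j r hr _ _ _ hQ' ?_
    rw [← hσ, ← hc12, link_mapF]
  rcases le_total (Nat.find hey) (Nat.find hez) with h | h
  · exact key y z hyz hyx hzx hy hz hm _ (Nat.find_spec hey)
      fun i hi => Nat.find_min hez (lt_of_lt_of_le hi h)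
  · exact key z y hyz.symm hzx hyx hz hy (by rw [mm_comm]; exact hm) _ (Nat.find_spec hez)
      fun i hi => Nat.find_min hey (lt_of_lt_of_le hi h)

/-! ### stage B1a -/

/-- the configuration of stage B1a: the edge `c y`, `c` small, `z` the third small point -/
structure QB (B : Finset (Finset (Fin 13))) (c y z : Fin 13) : Prop where
  best : Best B
  mat : Mat B
  cy : c ≠ y
  cz : c ≠ z
  yz : y ≠ z
  edge : mm B c y = 1
  hc : MM B c ≤ 4
  hcy : MM B c ≤ MM B y
  hy : MM B y ≤ 6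
  hz : MM B z ≤ 4
  min : ∀ u, u ≠ c → u ≠ y → MM B z ≤ MM B u

theorem QB.map {B : Finset (Finset (Fin 13))} {c y z : Fin 13}
    (h : QB B c y z) (σ : Equiv.Perm (Fin 13)) :
    QB (mapF σ B) (σ c) (σ y) (σ z) := by
  have hB := h.best.odd
  refine ⟨best_mapF h.best σ, mat_mapF hB h.mat σ, σ.injective.ne h.cy,
    σ.injective.ne h.cz, σ.injective.ne h.yz, ?_, ?_, ?_, ?_, ?_, ?_⟩
  · rw [mm_mapF hB σ h.cy, h.edge]
  · rw [MM_mapF hB]
    exact h.hc
  · rw [MM_mapF hB, MM_mapF hB]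
    exact h.hcy
  · rw [MM_mapF hB]
    exact h.hy
  · rw [MM_mapF hB]
    exact h.hz
  · intro u h1 h2
    rw [MM_mapF hB, MM_map' hB]
    exact h.min _ (symm_ne h1) (symm_ne h2)

section B

variable {B : Finset (Finset (Fin 13))} {c y z : Fin 13}

theorem QB.mm_cz (h : QB B c y z) : mm B c z = 0 :=
  h.mat.path c y z h.cy h.cz h.yz (h.hc.trans (by norm_num)) h.hy (h.hz.trans (by norm_num))
    (le_of_eq h.edge.symm)

theorem QB.mm_yz (h : QB B c y z) : mm B y z = 0 :=
  h.mat.path y c z h.cy.symm h.yz h.cz h.hy (h.hc.trans (by norm_num))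
    (h.hz.trans (by norm_num)) (by rw [mm_comm]; exact le_of_eq h.edge.symm)

theorem QB.heavy_c (h : QB B c y z) {w : Fin 13} (hwc : w ≠ c) (hwy : w ≠ y)
    (hm : 1 ≤ mm B c w) : 8 ≤ MM B w := by
  rcases light_or_heavy h.best.odd w with h1 | h1
  · have h2 := h.mat.path c y w h.cy hwc.symm hwy.symm (h.hc.trans (by norm_num)) h.hy h1
      (le_of_eq h.edge.symm)
    omega
  · exact h1

theorem QB.heavy_y (h : QB B c y z) {w : Fin 13} (hwc : w ≠ c) (hwy : w ≠ y)
    (hm : 1 ≤ mm B y w) : 8 ≤ MM B w := by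
  rcases light_or_heavy h.best.odd w with h1 | h1
  · have h2 := h.mat.path y c w h.cy.symm hwy.symm hwc.symm h.hy (h.hc.trans (by norm_num)) h1
      (by rw [mm_comm]; exact le_of_eq h.edge.symm)
    omega
  · exact h1

/-- at most one neighbour of `z` is light, and it has excess 1 -/
theorem QB.exc_z (h : QB B c y z) : ∃ t, (∀ u, u ≠ z → u ≠ t → 1 ≤ mm B z u → 8 ≤ MM B u) ∧
    (8 ≤ MM B t ∨ mm B z t ≤ 1 ∨ t = z) := by
  have hz6 : MM B z ≤ 6 := h.hz.trans (by norm_num)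
  by_cases hex : ∃ t, t ≠ z ∧ 1 ≤ mm B z t ∧ MM B t ≤ 6
  · obtain ⟨t, h1, h2, h3⟩ := hex
    refine ⟨t, fun u h4 h5 h6 => ?_, Or.inr (Or.inl (h.mat.two z t h1.symm hz6 h3))⟩
    rcases light_or_heavy h.best.odd u with h7 | h7
    · have h8 := h.mat.path z t u h1.symm h4.symm h5.symm hz6 h3 h7 h2
      omega
    · exact h7
  · refine ⟨z, fun u h4 _ h6 => ?_, Or.inr (Or.inr rfl)⟩
    rcases light_or_heavy h.best.odd u with h7 | h7
    · exact absurd ⟨u, h4, h6, h7⟩ hex
    · exact h7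

/-- lower bounds with one exception; `d = 0` if `MM B z = 0` -/
theorem QB.low_exc (h : QB B c y z) {l : Fin 13 → ℕ}
    (hl : ∀ u, u ≠ c → u ≠ y → u ≠ z →
      l u ≤ if 1 ≤ mm B c u ∨ 1 ≤ mm B y u ∨ 1 ≤ mm B z u then 8 else MM B z) :
    ∃ s, (∀ u, u ≠ c → u ≠ y → u ≠ z → u ≠ s → l u ≤ MM B u) ∧
      (s ≠ c → s ≠ y → s ≠ z →
        l s ≤ MM B s + if MM B z = 0 then 0 else 8 - MM B z) := by
  obtain ⟨s, hs, -⟩ := h.exc_z
  have hother : ∀ u, u ≠ c → u ≠ y → u ≠ z → u ≠ s → l u ≤ MM B u := by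
    intro u h1 h2 h3 h4
    refine (hl u h1 h2 h3).trans ?_
    split_ifs with h5
    · rcases h5 with h5 | h5 | h5
      · exact h.heavy_c h1 h2 h5
      · exact h.heavy_y h1 h2 h5
      · exact hs u h3 h4 h5
    · exact h.min u h1 h2
  refine ⟨s, hother, fun h1 h2 h3 => ?_⟩
  have h4 := hl s h1 h2 h3
  have h5 := h.min s h1 h2
  by_cases h0 : MM B z = 0
  · have h6 : mm B z s = 0 := by
      have h7 : mm B z s ≤ MM B z := Pool.Agent.Helper4.CV.mm_le_MM B h3.symm
      omega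
    rw [if_pos h0, Nat.add_zero]
    refine h4.trans ?_
    split_ifs with h8
    · rcases h8 with h8 | h8 | h8
      · exact h.heavy_c h1 h2 h8
      · exact h.heavy_y h1 h2 h8
      · omega
    · exact h5
  · rw [if_neg h0]
    have hz4 := h.hz
    split_ifs at h4 with h8
    · omega
    · omega

/-- if `MM z ≤ MM c` then `z` is a global minimum -/
theorem QB.min_z (h : QB B c y z) (hle : MM B z ≤ MM B c) (u : Fin 13) : MM B z ≤ MM B u := by
  by_cases h1 : u = c
  · rw [h1]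
    exact hle
  · by_cases h2 : u = y
    · rw [h2]
      exact hle.trans h.hcy
    · exact h.min u h1 h2

/-- if `MM c ≤ MM z` then `c` is a global minimum -/
theorem QB.min_c (h : QB B c y z) (hle : MM B c ≤ MM B z) (u : Fin 13) : MM B c ≤ MM B u := by
  by_cases h1 : u = c
  · rw [h1]
  · by_cases h2 : u = y
    · rw [h2]
      exact h.hcy
    · exact hle.trans (h.min u h1 h2)

end B

/-- the statement of one centre, stage B1a -/
def CenB1a (r : ℕ) : Prop :=
  ∀ (B : Finset (Finset (Fin 13))) (p q : Fin 13), QB B 12 p q → link B 12 = fam 12 4 r → False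

/-- **stage B1a from the classes and the centres** -/
theorem stB1a_of {reps : List ℕ} (hcls : ClsOK 4 reps)
    (hC : ∀ j r : ℕ, reps[j]? = some r → CenB1a r) : StB1a := by
  intro B hB hmat x y z hxy hxz hyz hm hx hle hy hz hmin
  have hQ : QB B x y z := ⟨hB, hmat, hxy, hxz, hyz, hm, hx, hle, hy, hz, hmin⟩
  obtain ⟨j, r, hr, σ, hσ⟩ := cls_link hB.odd hcls hx
  have hc12 := perm_root hB.odd hσ
  have hQ' := hQ.map σ
  rw [hc12] at hQ'
  refine hC j r hr _ _ _ hQ' ?_
  rw [← hσ, ← hc12, link_mapF]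

/-! ### stage B1b -/

/-- the configuration of stage B1b: the edge `c y`, `c` small, all other points at least 6 -/
structure QP (B : Finset (Finset (Fin 13))) (c y : Fin 13) : Prop where
  best : Best B
  mat : Mat B
  sum : ∑ z, MM B z = 88
  cy : c ≠ y
  edge : mm B c y = 1
  hc : MM B c ≤ 4
  hcy : MM B c ≤ MM B y
  hy : MM B y ≤ 6
  other : ∀ u, u ≠ c → u ≠ y → 6 ≤ MM B u
  two : ∃ z w, z ≠ w ∧ z ≠ c ∧ z ≠ y ∧ w ≠ c ∧ w ≠ y ∧ MM B z = 6 ∧ MM B w = 6

theorem QP.map {B : Finset (Finset (Fin 13))} {c y : Fin 13}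
    (h : QP B c y) (σ : Equiv.Perm (Fin 13)) : QP (mapF σ B) (σ c) (σ y) := by
  have hB := h.best.odd
  refine ⟨best_mapF h.best σ, mat_mapF hB h.mat σ, ?_, σ.injective.ne h.cy, ?_, ?_, ?_, ?_, ?_,
    ?_⟩
  · rw [sum_MM_map hB, h.sum]
  · rw [mm_mapF hB σ h.cy, h.edge]
  · rw [MM_mapF hB]
    exact h.hc
  · rw [MM_mapF hB, MM_mapF hB]
    exact h.hcy
  · rw [MM_mapF hB]
    exact h.hy
  · intro u h1 h2
    rw [MM_map' hB]
    exact h.other _ (symm_ne h1) (symm_ne h2)
  · obtain ⟨z, w, h1, h2, h3, h4, h5, h6, h7⟩ := h.two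
    refine ⟨σ z, σ w, σ.injective.ne h1, σ.injective.ne h2, σ.injective.ne h3,
      σ.injective.ne h4, σ.injective.ne h5, ?_, ?_⟩
    · rw [MM_mapF hB, h6]
    · rw [MM_mapF hB, h7]

section P

variable {B : Finset (Finset (Fin 13))} {c y : Fin 13}

theorem QP.heavy_c (h : QP B c y) {w : Fin 13} (hwc : w ≠ c) (hwy : w ≠ y)
    (hm : 1 ≤ mm B c w) : 8 ≤ MM B w := by
  rcases light_or_heavy h.best.odd w with h1 | h1
  · have h2 := h.mat.path c y w h.cy hwc.symm hwy.symm (h.hc.trans (by norm_num)) h.hy h1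
      (le_of_eq h.edge.symm)
    omega
  · exact h1

theorem QP.heavy_y (h : QP B c y) {w : Fin 13} (hwc : w ≠ c) (hwy : w ≠ y)
    (hm : 1 ≤ mm B y w) : 8 ≤ MM B w := by
  rcases light_or_heavy h.best.odd w with h1 | h1
  · have h2 := h.mat.path y c w h.cy.symm hwy.symm hwc.symm h.hy (h.hc.trans (by norm_num)) h1
      (by rw [mm_comm]; exact le_of_eq h.edge.symm)
    omega
  · exact h1

/-- the small point of the edge is a global minimum -/
theorem QP.min_c (h : QP B c y) (u : Fin 13) : MM B c ≤ MM B u := by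
  by_cases h1 : u = c
  · rw [h1]
  · by_cases h2 : u = y
    · rw [h2]
      exact h.hcy
    · exact (h.hc.trans (by norm_num)).trans (h.other u h1 h2)

/-- lower bounds -/
theorem QP.low (h : QP B c y) {l : Fin 13 → ℕ}
    (hl : ∀ u, u ≠ c → u ≠ y → l u ≤ if 1 ≤ mm B c u ∨ 1 ≤ mm B y u then 8 else 6) :
    ∀ u, u ≠ c → u ≠ y → l u ≤ MM B u := by
  intro u h1 h2
  refine (hl u h1 h2).trans ?_
  split_ifs with h5
  · rcases h5 with h5 | h5
    · exact h.heavy_c h1 h2 h5
    · exact h.heavy_y h1 h2 h5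
  · exact h.other u h1 h2

end P

/-- the statement of one centre, stage B1b -/
def CenB1b (r : ℕ) : Prop :=
  ∀ (B : Finset (Finset (Fin 13))) (p : Fin 13), QP B 12 p → link B 12 = fam 12 4 r → False

/-- **stage B1b from the classes and the centres** -/
theorem stB1b_of {reps : List ℕ} (hcls : ClsOK 4 reps)
    (hC : ∀ j r : ℕ, reps[j]? = some r → CenB1b r) : StB1b := by
  intro B hB hmat hsum x y hxy hm hx hle hy hoth z w hzw hzx hzy hwx hwy hz hw
  have hQ : QP B x y :=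
    ⟨hB, hmat, hsum, hxy, hm, hx, hle, hy, hoth, ⟨z, w, hzw, hzx, hzy, hwx, hwy, hz, hw⟩⟩
  obtain ⟨j, r, hr, σ, hσ⟩ := cls_link hB.odd hcls hx
  have hc12 := perm_root hB.odd hσ
  have hQ' := hQ.map σ
  rw [hc12] at hQ'
  refine hC j r hr _ _ hQ' ?_
  rw [← hσ, ← hc12, link_mapF]

end Pool.Agent.Helper49.TY
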