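import Mathlib
import Pool.Agent.Helper79.CV.FBlock
import Pool.Agent.Helper49.TY.StageE

/-!
MP_8ee768_co, project TH-Y': stages E and B1a, from the tables to the pairs of lanes of a frame.

Frame: `12` = centre, `11` = other end of the edge, `10` = the small point. `TabE T Q l`: the list
`l` of entries (codes of the parts avoiding `11`) is complete for the links with sub-link `T` and
property `Q`.
-/

set_option autoImplicit false

namespace Pool.Agent.Helper49.TY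

open Finset
open Pool.Agent.Helper89.CV (OddCover ofMask)
open Pool.Agent.Helper97.CV
open Pool.Agent.Helper79.CV
open Pool.Agent.Helper33.CV
open Pool.Agent.Helper82.TY (below Best)

/-- completeness of a list of entries -/
def TabE (T : ℕ) (Q : Fam → Fin 13 → Prop) (l : List ℕ) : Prop :=
  ∀ D : Fam, OddFam 3 (below 12) D → link D 11 = fam 11 3 T → Q D 11 →
    ∃ e ∈ l, D.filter (fun s => (11 : Fin 13) ∉ s) = fam 11 4 e

/-- the size condition -/
def Size (m : ℕ) (D : Fam) (_ : Fin 13) : Prop := 2 * D.card = 114 + m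

/-- every 5-set contains at most two members -/
def Red (D : Fam) (_ : Fin 13) : Prop :=
  ∀ U : Finset (Fin 13), U.card = 5 → (D ∩ U.powersetCard 4).card ≤ 2

/-- both properties -/
def And2 (P Q : Fam → Fin 13 → Prop) (D : Fam) (a : Fin 13) : Prop := P D a ∧ Q D a

theorem invA_size (m : ℕ) : InvA (Size m) := by
  intro σ D a h
  unfold Size
  rw [card_mapF]
  exact h

theorem invA_red : InvA Red := by
  intro σ D a h U hU
  obtain ⟨V, rfl⟩ : ∃ V, U = mapS σ V := ⟨mapS σ.symm U, by rw [mapS_mapS_symm]⟩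
  rw [mapF_inter_powersetCard, card_mapF]
  rw [card_mapS] at hU
  exact h V hU

theorem invA_and {P Q : Fam → Fin 13 → Prop} (hP : InvA P) (hQ : InvA Q) : InvA (And2 P Q) :=
  fun σ D a h => ⟨hP σ D a h.1, hQ σ D a h.2⟩

theorem TabE.mono {T : ℕ} {Q Q' : Fam → Fin 13 → Prop} {l l' : List ℕ} (h : TabE T Q l)
    (hQ : ∀ D, Q' D 11 → Q D 11) (hl : ∀ e ∈ l, e ∈ l') : TabE T Q' l' := by
  intro D h1 h2 h3
  obtain ⟨e, he, h4⟩ := h D h1 h2 (hQ D h3)
  exact ⟨e, hl e he, h4⟩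

/-- selecting the entries which have the property -/
theorem TabE.sel {T : ℕ} {Q Q' : Fam → Fin 13 → Prop} {l l' : List ℕ} (h : TabE T Q l)
    (hQ : ∀ D, Q' D 11 → Q D 11)
    (hl : ∀ e ∈ l, Q' (ent T e) 11 → e ∈ l') : TabE T Q' l' := by
  intro D h1 h2 h3
  obtain ⟨e, he, h4⟩ := h D h1 h2 (hQ D h3)
  refine ⟨e, hl e he ?_, h4⟩
  rw [← eq_ent h2 h4]
  exact h3

theorem tabE_of_tableOK {T cap : ℕ} {P : Fam → Prop} {Q : Fam → Fin 13 → Prop} {l : List ℕ}
    (h : TableOK T cap P {E | ∃ e ∈ l, E = fam 11 4 e})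
    (hQ : ∀ D, Q D 11 → 2 * D.card ≤ 114 + cap ∧ P D) : TabE T Q l := by
  intro D h1 h2 h3
  obtain ⟨e, he, h4⟩ := h D h1 h2 (hQ D h3).1 (hQ D h3).2
  exact ⟨e, he, h4⟩

theorem tabE_of_tabP {reps : List ℕ} {T cap : ℕ} {P Q : Fam → Fin 13 → Prop}
    {l : List (ℕ × ℕ)} (h : TabP reps T cap P l)
    (hQ : ∀ D, Q D 11 → 2 * D.card ≤ 114 + cap ∧ P D 11) : TabE T Q (l.map Prod.snd) := by
  intro D h1 h2 h3
  obtain ⟨k, e, he, -, h4⟩ := h D h1 h2 (hQ D h3).1 (hQ D h3).2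
  exact ⟨e, List.mem_map.2 ⟨(k, e), he, rfl⟩, h4⟩

/-! ### the lanes -/

theorem moved_memE {T : ℕ} {Q : Fam → Fin 13 → Prop} (hQ : InvA Q) {l : List ℕ}
    (hT : TabE T Q l) {B : Fam} (hB : OddCover B) {y : Fin 13} {σ : Equiv.Perm (Fin 13)}
    (h12 : σ 12 = 12) (hy : σ y = 11) (hσT : mapF σ (link (link B 12) y) = fam 11 3 T)
    (hQy : Q (link B y) 12) : ∃ e ∈ l, moved σ B y = ent T e := by
  have h1 := moved_link h12 hσT
  have h3 : Q (moved σ B y) 11 := by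
    have h4 := hQ (sw * σ) _ _ hQy
    rwa [Equiv.Perm.mul_apply, h12, sw12] at h4
  obtain ⟨e, h4, h6⟩ := hT _ (moved_odd hB hy) h1 h3
  exact ⟨e, h4, eq_ent h1 h6⟩

theorem moved_mem_fixE {T : ℕ} {Q : Fam → Fin 13 → Prop} (hQ : InvA Q) {l : List ℕ}
    (hT : TabE T Q l) {B : Fam} (hB : OddCover B) {f : ℕ} (hf : link B 12 = fam 12 4 f)
    {y : Fin 13} {σ : Equiv.Perm (Fin 13)} (h12 : σ 12 = 12) (hy : σ y = 11)
    {ρ : Equiv.Perm (Fin 13)} (hρ : Fix2 ρ)
    (hρT : mapF ρ (fam 11 3 T) = link (mapF σ (fam 12 4 f)) 11)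
    (hQy : Q (link B y) 12) : ∃ e ∈ l, moved σ B y = mapF ρ (ent T e) := by
  have e1 : (ρ.symm * σ) 12 = 12 := by rw [Equiv.Perm.mul_apply, h12, hρ.symm.2]
  have e2 : (ρ.symm * σ) y = 11 := by rw [Equiv.Perm.mul_apply, hy, hρ.symm.1]
  have h1 : mapF (ρ.symm * σ) (link (link B 12) y) = fam 11 3 T := by
    rw [hf, mapF_mul, ← link_mapF σ (fam 12 4 f) y, hy, ← hρT, mapF_symm_mapF]
  obtain ⟨e, h2, h4⟩ := moved_memE hQ hT hB e1 e2 h1 hQy
  refine ⟨e, h2, ?_⟩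
  rw [← h4]
  unfold moved
  rw [← mapF_mul]
  congr 1
  ext a
  simp only [Equiv.Perm.mul_apply]
  congr 1
  by_cases h11 : σ a = 11
  · rw [h11, hρ.symm.1, sw11, hρ.2]
  · by_cases h12' : σ a = 12
    · rw [h12', hρ.symm.2, sw12, hρ.1]
    · have h5 : ρ.symm (σ a) ≠ 11 := fun h => h11 (by
        rw [Equiv.symm_apply_eq, hρ.1] at h
        exact h)
      have h6 : ρ.symm (σ a) ≠ 12 := fun h => h12' (by
        rw [Equiv.symm_apply_eq, hρ.2] at h
        exact h)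
      rw [sw_of_ne h11 h12', sw_of_ne h5 h6, Equiv.apply_symm_apply]

/-- the cubes of the entries of a list, relabelled by `ρ` -/
def cubesE (T : ℕ) (ρ : Equiv.Perm (Fin 13)) (l : List ℕ) : Set ℕ :=
  {u | ∃ e ∈ l, u = cub 11 (mapF ρ (laneF (ent T e)))}

theorem ly_memE {T : ℕ} {Q : Fam → Fin 13 → Prop} (hQ : InvA Q) {l : List ℕ}
    (hT : TabE T Q l) {B : Fam} (hB : OddCover B) {f : ℕ} (hf : link B 12 = fam 12 4 f)
    {ρ : Equiv.Perm (Fin 13)} (hρ : Fix2 ρ) (hρT : mapF ρ (fam 11 3 T) = link (fam 12 4 f) 11)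
    (hQy : Q (link B 11) 12) : cub 11 (LY B) ∈ cubesE T ρ l := by
  obtain ⟨e, h1, h3⟩ := moved_mem_fixE hQ hT hB hf (σ := 1) (y := 11) rfl rfl hρ
    (by rw [mapF_one]; exact hρT) hQy
  exact ⟨e, h1, by unfold LY; rw [h3, laneF_mapF hρ]⟩

theorem lz_memE {T : ℕ} {Q : Fam → Fin 13 → Prop} (hQ : InvA Q) {l : List ℕ}
    (hT : TabE T Q l) {B : Fam} (hB : OddCover B) {f : ℕ} (hf : link B 12 = fam 12 4 f)
    {ρ : Equiv.Perm (Fin 13)} (hρ : Fix2 ρ)
    (hρT : mapF ρ (fam 11 3 T) = link (mapF (Equiv.swap 10 11) (fam 12 4 f)) 11)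
    (hQz : Q (link B 10) 12) : cub 11 (LZ B) ∈ cubesE T ρ l := by
  obtain ⟨e, h1, h3⟩ := moved_mem_fixE hQ hT hB hf (σ := Equiv.swap 10 11) (y := 10)
    (Equiv.swap_apply_of_ne_of_ne (by decide) (by decide)) (Equiv.swap_apply_left _ _) hρ
    hρT hQz
  exact ⟨e, h1, by unfold LZ; rw [h3, laneF_mapF hρ]⟩

/-! ### properties of the links -/

theorem size_link {B : Fam} (hB : OddCover B) (y a : Fin 13) : Size (MM B y) (link B y) a :=
  two_mul_card_link hB y

/-- a global minimum is reduced -/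
theorem red_of_best {B : Fam} (hB : Best B) {x : Fin 13} (hx : ∀ u, MM B x ≤ MM B u)
    (a : Fin 13) : Red (link B x) a := by
  intro U hU
  by_cases hxU : x ∈ U
  · have h4 : link B x ∩ U.powersetCard 4 ⊆ {U.erase x} := by
      intro s hs
      rw [mem_inter, mem_link, mem_powersetCard] at hs
      rw [mem_singleton]
      refine eq_of_subset_of_card_le (subset_erase.2 ⟨hs.2.1, hs.1.1⟩) ?_
      rw [card_erase_of_mem hxU, hU, hs.2.2]
    have h5 := card_le_card h4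
    rw [card_singleton] at h5
    omega
  · exact hB.p_le_two hU hxU hx

theorem ne_of_lt_ten {w : Fin 13} (hw : w.val < 10) : w ≠ 12 ∧ w ≠ 11 ∧ w ≠ 10 := by
  refine ⟨?_, ?_, ?_⟩
  · rintro rfl
    exact absurd hw (by decide)
  · rintro rfl
    exact absurd hw (by decide)
  · rintro rfl
    exact absurd hw (by decide)

/-! ### stage E -/

/-- the frame `f` of the class `j` is dead -/
def FrameE (reps : List ℕ) (j f : ℕ) : Prop :=
  ∀ B, QE reps j B 12 11 10 → link B 12 = fam 12 4 f → False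

/-- a frame of stage E, excess `m` of the small point -/
def HE (reps : List ℕ) (j f m : ℕ) (B : Fam) : Prop :=
  QE reps j B 12 11 10 ∧ link B 12 = fam 12 4 f ∧ MM B 10 = m

theorem HE.ctx {reps : List ℕ} {j f m : ℕ} {B : Fam} (h : HE reps j f m B) :
    StarCtx f 6 (12 + m) (6 - m) B := by
  obtain ⟨hq, hf, hm⟩ := h
  have hB := hq.best.odd
  obtain ⟨s, hs⟩ := hq.exc
  have e1 := hq.hc
  have e2 := hq.hy
  have hN : ∀ w : Fin 13, w.val < 10 → Nbr B w → 8 ≤ MM B w := by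
    intro w hw hn
    obtain ⟨h1, h2, h3⟩ := ne_of_lt_ten hw
    rcases hn with hn | hn | hn
    · exact hq.heavy_c h1 h2 hn
    · exact hq.heavy_y h1 h2 hn
    · exact hq.heavy_x h3 hn
  have hms := hq.min s
  rw [hm] at hms
  refine ⟨hB, hq.best.le, hf, by omega, s, fun w hw => ?_⟩
  by_cases hws : w = s
  · rw [if_pos hws, hws]
    refine ⟨by omega, fun hn => ?_⟩
    have := hN s (by rw [← hws]; exact hw) hn
    omega
  · rw [if_neg hws]
    exact ⟨hs w (ne_of_lt_ten hw).2.2 hws, fun hn => hN w hw hn⟩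

/-- **a frame of stage E is dead if its two blocks are** -/
theorem frameE_of_blocks {reps : List ℕ} {j f Ty Tz : ℕ} {ρy ρz : Equiv.Perm (Fin 13)}
    (hd : FrameD f Ty Tz ρy ρz) {l : List ℕ} (hl : TabE Ty (Size 6) l) {lz : ℕ → List ℕ}
    (hlz : ∀ m, m = 0 ∨ m = 2 → TabE Tz (And2 (Size m) Red) (lz m))
    (hk : ∀ m, m = 0 ∨ m = 2 → ∀ u ∈ cubesE Ty ρy l, ∀ v ∈ cubesE Tz ρz (lz m),
      u >>> 1024 = v >>> 1024 → LaneDead (HE reps j f m) u v) : FrameE reps j f := by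
  intro B hB hf
  have hBo := hB.best.odd
  obtain ⟨b, hb⟩ := MM_even hBo 10
  have hx := hB.hx
  have hm : MM B 10 = 0 ∨ MM B 10 = 2 := by omega
  have hy6 : Size 6 (link B 11) 12 := by
    have h1 := size_link hBo 11 12
    rwa [hB.hy] at h1
  have hu := ly_memE (invA_size 6) hl hBo hf hd.fy hd.ty hy6
  have hv := lz_memE (invA_and (invA_size _) invA_red) (hlz _ hm) hBo hf hd.fz hd.tz
    ⟨size_link hBo 10 12, red_of_best hB.best hB.min 12⟩
  exact hk _ hm _ hu _ hv (cub_LY_LZ B) B ⟨hB, hf, rfl⟩ rfl rfl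

/-- the same with the class order: the lane of `11` is of the class `j` or a later one -/
theorem frameE_of_blocks_cls {reps : List ℕ} {j f Ty Tz : ℕ} {ρy ρz : Equiv.Perm (Fin 13)}
    (hd : FrameD f Ty Tz ρy ρz) {l : List (ℕ × ℕ)} (hl : TabP reps Ty 6 (Size 6) l)
    {lz : ℕ → List ℕ} (hlz : ∀ m, m = 0 ∨ m = 2 → TabE Tz (And2 (Size m) Red) (lz m))
    (hk : ∀ m, m = 0 ∨ m = 2 → ∀ u ∈ cubes Ty j ρy l, ∀ v ∈ cubesE Tz ρz (lz m),
      u >>> 1024 = v >>> 1024 → LaneDead (HE reps j f m) u v) : FrameE reps j f := by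
  intro B hB hf
  have hBo := hB.best.odd
  obtain ⟨b, hb⟩ := MM_even hBo 10
  have hx := hB.hx
  have hm : MM B 10 = 0 ∨ MM B 10 = 2 := by omega
  have hy6 : Size 6 (link B 11) 12 := by
    have h1 := size_link hBo 11 12
    rwa [hB.hy] at h1
  obtain ⟨k, e, h1, h2, h3⟩ := ly_mem (invA_size 6) hl hBo hf hd.fy hd.ty (le_of_eq hB.hy) hy6
    hB.low
  have hv := lz_memE (invA_and (invA_size _) invA_red) (hlz _ hm) hBo hf hd.fz hd.tz
    ⟨size_link hBo 10 12, red_of_best hB.best hB.min 12⟩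
  exact hk _ hm _ ⟨k, e, h1, h2, by rw [h3]⟩ _ hv (cub_LY_LZ B) B ⟨hB, hf, rfl⟩ rfl rfl

/-! ### stage B1a -/

/-- the frame `f` is dead -/
def FrameB (f : ℕ) : Prop := ∀ B, QB B 12 11 10 → link B 12 = fam 12 4 f → False

/-- a frame of stage B1a with the excesses of the two lanes -/
def HB (f m m' : ℕ) (B : Fam) : Prop :=
  QB B 12 11 10 ∧ link B 12 = fam 12 4 f ∧ MM B 11 = m ∧ MM B 10 = m'

theorem HB.ctx {f m m' t : ℕ} {B : Fam} (h : HB f m m' B)
    (ht : 2 * (fam 12 4 f).card + m + m' = 114 + t) :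
    StarCtx f m' t (if m' = 0 then 0 else 8 - m') B := by
  obtain ⟨hq, hf, h1, h2⟩ := h
  have hB := hq.best.odd
  have h3 := two_mul_card_link hB 12
  rw [hf] at h3
  have hex := hq.low_exc (l := fun u =>
    if 1 ≤ mm B 12 u ∨ 1 ≤ mm B 11 u ∨ 1 ≤ mm B 10 u then 8 else MM B 10)
    (fun u _ _ _ => le_refl _)
  obtain ⟨s, hs1, hs2⟩ := hex
  simp only [h2] at hs1 hs2
  refine ⟨hB, hq.best.le, hf, by omega, s, fun w hw => ?_⟩
  obtain ⟨n1, n2, n3⟩ := ne_of_lt_ten hw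
  have hmin := hq.min w n1 n2
  rw [h2] at hmin
  by_cases hws : w = s
  · rw [if_pos hws]
    refine ⟨le_trans hmin (Nat.le_add_right _ _), fun hn => ?_⟩
    have h5 := hs2 (by rw [← hws]; exact n1) (by rw [← hws]; exact n2)
      (by rw [← hws]; exact n3)
    have hn' : 1 ≤ mm B 12 w ∨ 1 ≤ mm B 11 w ∨ 1 ≤ mm B 10 w := hn
    rw [← hws, if_pos hn'] at h5
    exact h5
  · rw [if_neg hws]
    refine ⟨hmin, fun hn => ?_⟩
    have h5 := hs1 w n1 n2 n3 hws
    have hn' : 1 ≤ mm B 12 w ∨ 1 ≤ mm B 11 w ∨ 1 ≤ mm B 10 w := hn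
    rw [if_pos hn'] at h5
    exact h5

/-- **a frame of stage B1a is dead if its blocks are**: `mc` is the excess of the centre, `m` the
one of `11`, `m'` the one of `10`; the entries of `10` with `m' ≤ mc` are reduced, and for
`mc ≤ m'` the centre is reduced -/
theorem frameB_of_blocks {f mc Ty Tz : ℕ} (hmc : 2 * (fam 12 4 f).card = 114 + mc)
    {ρy ρz : Equiv.Perm (Fin 13)} (hd : FrameD f Ty Tz ρy ρz) {ly lz lzr : ℕ → List ℕ}
    (hly : ∀ m, m ≤ 6 → TabE Ty (Size m) (ly m))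
    (hlz : ∀ m, m ≤ 4 → TabE Tz (Size m) (lz m))
    (hlzr : ∀ m, m ≤ 4 → TabE Tz (And2 (Size m) Red) (lzr m))
    (hk : ∀ m m', mc ≤ m → m ≤ 6 → m' ≤ 4 → Even m → Even m' →
      (mc ≤ m' → Red (fam 12 4 f) 12) →
      ∀ u ∈ cubesE Ty ρy (ly m), ∀ v ∈ cubesE Tz ρz (if m' ≤ mc then lzr m' else lz m'),
      u >>> 1024 = v >>> 1024 → LaneDead (HB f m m') u v) : FrameB f := by
  intro B hB hf
  have hBo := hB.best.odd
  have h3 := two_mul_card_link hBo 12
  rw [hf] at h3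
  have hc : MM B 12 = mc := by omega
  have hu := ly_memE (invA_size _) (hly _ hB.hy) hBo hf hd.fy hd.ty (size_link hBo 11 12)
  have hred : mc ≤ MM B 10 → Red (fam 12 4 f) 12 := by
    intro h
    rw [← hf]
    exact red_of_best hB.best (hB.min_c (by rw [hc]; exact h)) 12
  have hv : cub 11 (LZ B) ∈ cubesE Tz ρz
      (if MM B 10 ≤ mc then lzr (MM B 10) else lz (MM B 10)) := by
    split_ifs with h
    · exact lz_memE (invA_and (invA_size _) invA_red) (hlzr _ hB.hz) hBo hf hd.fz hd.tz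
        ⟨size_link hBo 10 12, red_of_best hB.best (hB.min_z (by rw [hc]; exact h)) 12⟩
    · exact lz_memE (invA_size _) (hlz _ hB.hz) hBo hf hd.fz hd.tz (size_link hBo 10 12)
  exact hk _ _ (by rw [← hc]; exact hB.hcy) hB.hy hB.hz (MM_even hBo 11) (MM_even hBo 10) hred _
    hu _ hv (cub_LY_LZ B) B ⟨hB, hf, rfl, rfl⟩ rfl rfl

/-! ### from a centre to its frames -/

/-- the point `p` of the centre link `r` has excess `m` -/
theorem deg_eq {B : Fam} (hB : OddCover B) {r : ℕ} (hl : link B 12 = fam 12 4 r) {p : Fin 13}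
    (hp : p ≠ 12) : degL p.val (decL (L 12 4) r) = 19 + 2 * mm B 12 p := by
  rw [← deg_fam (by norm_num), ← hl, ← card_link]
  exact card_link_link hB hp.symm

/-- the frame `f` carries the pair of positions `p, q` of the centre `r` -/
def Carries (r f : ℕ) (p q : Fin 13) : Prop :=
  ∃ τ : Equiv.Perm (Fin 13), τ 12 = 12 ∧ τ p = 11 ∧ τ q = 10 ∧
    mapF τ (fam 12 4 r) = fam 12 4 f

/-- centre of stage E from its frames: `p` of pair degree 21, `q` of pair degree 19 -/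
theorem cenE_of_frames {reps : List ℕ} {j r : ℕ}
    (h : ∀ p q : Fin 13, p ≠ 12 → q ≠ 12 → p ≠ q → degL p.val (decL (L 12 4) r) = 21 →
      degL q.val (decL (L 12 4) r) = 19 → ∃ f, Carries r f p q ∧ FrameE reps j f) :
    CenE reps j r := by
  intro B p q hQ hl
  have hB := hQ.best.odd
  have h1 := deg_eq hB hl hQ.cy.symm
  have h2 := deg_eq hB hl hQ.cx.symm
  rw [hQ.edge] at h1
  rw [hQ.mm_cx] at h2
  obtain ⟨f, ⟨τ, t1, t2, t3, t4⟩, h3⟩ := h p q hQ.cy.symm hQ.cx.symm hQ.yx h1 h2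
  have h5 := hQ.map τ
  rw [t1, t2, t3] at h5
  refine h3 _ h5 ?_
  rw [← t4, ← hl]
  conv_lhs => rw [← t1]
  exact link_mapF τ B 12

/-- centre of stage B1a from its frames -/
theorem cenB1a_of_frames {r : ℕ}
    (h : ∀ p q : Fin 13, p ≠ 12 → q ≠ 12 → p ≠ q → degL p.val (decL (L 12 4) r) = 21 →
      degL q.val (decL (L 12 4) r) = 19 → ∃ f, Carries r f p q ∧ FrameB f) : CenB1a r := by
  intro B p q hQ hl
  have hB := hQ.best.odd
  have h1 := deg_eq hB hl hQ.cy.symm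
  have h2 := deg_eq hB hl hQ.cz.symm
  rw [hQ.edge] at h1
  rw [hQ.mm_cz] at h2
  obtain ⟨f, ⟨τ, t1, t2, t3, t4⟩, h3⟩ := h p q hQ.cy.symm hQ.cz.symm hQ.yz h1 h2
  have h5 := hQ.map τ
  rw [t1, t2, t3] at h5
  refine h3 _ h5 ?_
  rw [← t4, ← hl]
  conv_lhs => rw [← t1]
  exact link_mapF τ B 12

/-- a centre with another number of blocks than 60 is no centre of stage E -/
theorem cenE_of_card {reps : List ℕ} {j r : ℕ} (h : (fam 12 4 r).card ≠ 60) :
    CenE reps j r := by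
  intro B p q hQ hl
  have h1 := two_mul_card_link hQ.best.odd 12
  rw [hl, hQ.hc] at h1
  omega

end Pool.Agent.Helper49.TY
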