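import Mathlib
import Pool.Agent.Helper52.TY.WordLawA

/-!
MP_8ee768_co, project TH-Y': fast words of a match, for all stages with the frame `12, 11, 10`.

`R` = root cube, `u`, `v` = lanes of `11`, `10`. ONE word `D = dW X u v` with fields of 8 bits: on the quads
the number of the three cubes with this quad (0 .. 3), on the points 1 + number of flags, else 0. Parts
which depend on `u` only or on `v` only are separate constants. Everything is a closed term, nothing is
forced.

* `dW_eq`: `D = pk 8 1024 (dgt R u v)`;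
* `par_fast`: `D land cQ` is the parity word;
* `pair_fast`: `fD F b u D` is the pair word (`F = rootF R`, `b = rootb R`);
* `off_fast`: the offsets `D`.
-/

set_option autoImplicit false
set_option exponentiation.threshold 20000
set_option maxRecDepth 20000

namespace Pool.Agent.Helper49.FW

open Finset
open Pool.Agent.Helper63.SIMD
open Pool.Agent.Helper55.TY
open Pool.Agent.Helper55.TY.M10
open Pool.Agent.Helper97.CV
open Pool.Agent.Helper97.CV.Kill10 (P1 P2 onS P1_lt P2_lt P1_le P2_le)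
open Pool.Agent.Helper79.CV (L mem_L lt_of_mem_L nodup_L)
open Pool.Agent.Helper59.TY (spd spd_eq p2 p3)
open Pool.Agent.Helper89.CV (OddCover ofMask)
open Pool.Agent.Helper52.TY (Fam' fld_one)
open Pool.Agent.Helper52.TY.CbA
open Pool.Agent.Helper38.TY (frS frS_eq)

/-! ### the program -/

/-- points and quads -/
def w14 : ℕ := Nat.add w1 w4

/-- 1 on the points and on the quads -/
def c14 : ℕ := Nat.add M10.cQ M10.cC8

/-- the spread word of the lane of `11`: quads, points, triples with `10` -/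
def sU (u : ℕ) : ℕ := spd (Nat.lor (Nat.land u w14) (Nat.land (Nat.shiftRight u 1024) p3))

/-- blocks through `11`, `10` -/
def nU (u : ℕ) : ℕ := nT (Nat.land (sU u) cT)

/-- root word and lane of `11` -/
def dU (X u : ℕ) : ℕ := Nat.add X (Nat.land (sU u) c14)

/-- positive part of the pair word -/
def fU (F u : ℕ) : ℕ := Nat.add F (Nat.mul 2 (nU u))

/-- negative part of the pair word -/
def mU (b u : ℕ) : ℕ := Nat.add (Nat.land (Nat.shiftRight (Nat.add (nU u) b) 1) c127) c15

/-- the spread word of the lane of `10` -/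
def sV (v : ℕ) : ℕ := spd (Nat.land v w14)

/-- THE WORD `D` -/
def dW (X u v : ℕ) : ℕ := Nat.add (dU X u) (sV v)

/-- the pair word from `D` -/
def fD (F b u D : ℕ) : ℕ :=
  Nat.sub (Nat.add (nQ (Nat.add (Nat.land D cQ3) (Nat.land (Nat.shiftRight D 1) M10.cQ))) (fU F u))
    (mU b u)

/-- the root words: `X`, `F`, `b` -/
def rootD (R : ℕ) (k : ℕ → ℕ → ℕ → Bool) : Bool :=
  frS R (spd (Nat.land (Nat.shiftRight R 3072) p2)) fun b =>
  (fun n10 n11 =>
  frS R (Nat.sub (Nat.add (Nat.mul 2 (Nat.add n10 n11)) (Nat.mul 3 b))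
    (Nat.add (Nat.land (Nat.shiftRight (Nat.add n10 b) 1) c127)
      (Nat.land (Nat.shiftRight (Nat.add n11 b) 1) c127))) fun F =>
  frS R (Nat.add M10.cC8 (spd (Nat.land R w14))) fun X => k X F b)
  (nT (spd (Nat.land (Nat.shiftRight R 1024) p3))) (nT (spd (Nat.land (Nat.shiftRight R 2048) p3)))

/-- the values of the root words -/
def rootF (R : ℕ) : ℕ := 2 * (rootn R 1024 + rootn R 2048) + 3 * rootb R -
    ((((rootn R 1024 + rootb R) >>> 1) &&& c127) + (((rootn R 2048 + rootb R) >>> 1) &&& c127))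
def rootX (R : ℕ) : ℕ := M10.cC8 + spd (R &&& w14)

theorem rootD_eq (R : ℕ) (k : ℕ → ℕ → ℕ → Bool) :
    rootD R k = k (rootX R) (rootF R) (rootb R) := by
  unfold rootD
  simp only [frS_eq]
  rfl

/-! ### bits -/

theorem w14_eq : w14 = w1 ||| w4 := by decide +kernel

theorem bit_w14 (r : ℕ) : w14.testBit r = (decide (r ∈ P1) || decide (r ∈ Q4)) := by
  rw [w14_eq, Nat.testBit_or, bit_w1, bit_w4]

theorem w14_lt : w14 < 2 ^ 1024 := by decide +kernel

/-- the bits at the points -/
def bP (a r : ℕ) : ℕ := if r ∈ P1 then (a.testBit r).toNat else 0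

/-- the bits at the quads -/
def bQ (a r : ℕ) : ℕ := if r ∈ Q4 then (a.testBit r).toNat else 0

theorem bP_le (a r : ℕ) : bP a r ≤ 1 := by
  unfold bP
  split_ifs
  · exact Bool.toNat_le _
  · norm_num

theorem bQ_le (a r : ℕ) : bQ a r ≤ 1 := by
  unfold bQ
  split_ifs
  · exact Bool.toNat_le _
  · norm_num

theorem toNat_w14 (a r : ℕ) : ((a &&& w14).testBit r).toNat = bQ a r + bP a r := by
  rw [Nat.testBit_and, bit_w14]
  unfold bQ bP
  by_cases h1 : r ∈ P1
  · have h2 := P1_Q4 h1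
    simp [h1, h2]
  · by_cases h2 : r ∈ Q4
    · simp [h1, h2]
    · simp [h1, h2]

theorem spd_w14 (a : ℕ) : spd (a &&& w14) = pk 8 1024 (fun r => bQ a r + bP a r) := by
  rw [spd_eq (lt_of_land w14_lt)]
  refine pk_congr fun r _ => ?_
  rw [fld_one, toNat_w14]

theorem cQ_pk : M10.cQ = pk 8 1024 (ind Q4) := by
  rw [cQ_eq, g_eq_pk fun r hr => Q4_lt hr]

theorem cC8_pk : M10.cC8 = pk 8 1024 (onS P1 1) := by
  rw [pk_one_P1]

theorem c14_pk : c14 = pk 8 1024 (fun r => ind Q4 r + onS P1 1 r) := by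
  unfold c14
  show M10.cQ + M10.cC8 = _
  rw [cQ_pk, cC8_pk, pk_add]

theorem rootX_pk (R : ℕ) : rootX R = pk 8 1024 (fun r => onS P1 1 r + (bQ R r + bP R r)) := by
  unfold rootX
  rw [spd_w14, cC8_pk, pk_add]

/-- the word of the lane of `11` before it is spread -/
theorem bit_lU (u r : ℕ) : ((u &&& w14) ||| ((u >>> 1024) &&& p3)).testBit r =
    ((u.testBit r && (decide (r ∈ P1) || decide (r ∈ Q4))) ||
      (u.testBit (1024 + r) && decide (r ∈ T3))) := by
  rw [Nat.testBit_or, Nat.testBit_and, Nat.testBit_and, Nat.testBit_shiftRight, bit_w14, bit_p3]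

theorem lU_lt (u : ℕ) : (u &&& w14) ||| ((u >>> 1024) &&& p3) < 2 ^ 1024 :=
  Nat.or_lt_two_pow (lt_of_land w14_lt) (lt_of_land p3_lt)

theorem sU_pk (u : ℕ) : sU u = pk 8 1024 fun r =>
    ((((u &&& w14) ||| ((u >>> 1024) &&& p3))).testBit r).toNat := by
  unfold sU
  show spd ((u &&& w14) ||| ((u >>> 1024) &&& p3)) = _
  rw [spd_eq (lU_lt u)]
  exact pk_congr fun r _ => fld_one _ _

theorem land_01 {x : ℕ} (hx : x ≤ 1) : x &&& 1 = x := by
  interval_cases x <;> rfl

theorem sU_c14 (u : ℕ) : Nat.land (sU u) c14 = pk 8 1024 (fun r => bQ u r + bP u r) := by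
  show sU u &&& c14 = _
  rw [sU_pk, c14_pk, pk_land]
  · refine pk_congr fun r _ => ?_
    rw [bit_lU]
    unfold bQ bP ind onS
    by_cases h1 : r ∈ P1
    · have h2 := P1_Q4 h1
      have h3 := P1_T3 h1
      rw [if_pos h1, if_pos h1, if_neg h2, if_neg h2, decide_eq_true h1, decide_eq_false h3]
      simp only [Bool.true_or, Bool.and_true, Bool.and_false, Bool.or_false, Nat.zero_add]
      exact land_01 (Bool.toNat_le _)
    · by_cases h2 : r ∈ Q4
      · have h3 : r ∉ T3 := Q4_T3 h2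
        rw [if_neg h1, if_neg h1, if_pos h2, if_pos h2, decide_eq_false h1, decide_eq_true h2,
          decide_eq_false h3]
        simp only [Bool.or_true, Bool.and_true, Bool.and_false, Bool.or_false, Nat.add_zero]
        exact land_01 (Bool.toNat_le _)
      · rw [if_neg h1, if_neg h1, if_neg h2, if_neg h2, Nat.add_zero, Nat.and_zero]
  · intro r _
    exact lt_of_le_of_lt (Bool.toNat_le _) (by norm_num)
  · intro r _
    unfold ind onS
    split_ifs <;> norm_num

/-- the digits of `D` -/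
def dgt (R u v r : ℕ) : ℕ :=
  (bQ R r + bQ u r + bQ v r) + (onS P1 1 r + bP R r + bP u r + bP v r)

theorem dU_eq (R u : ℕ) : dU (rootX R) u =
    pk 8 1024 (fun r => (bQ R r + bQ u r) + (onS P1 1 r + bP R r + bP u r)) := by
  unfold dU
  show rootX R + Nat.land (sU u) c14 = _
  rw [sU_c14, rootX_pk, pk_add]
  refine pk_congr fun r _ => ?_
  ring

/-- **the word `D`** -/
theorem dW_eq (R u v : ℕ) : dW (rootX R) u v = pk 8 1024 (dgt R u v) := by
  unfold dW sV
  show dU (rootX R) u + spd (v &&& w14) = _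
  rw [dU_eq, spd_w14, pk_add]
  refine pk_congr fun r _ => ?_
  unfold dgt
  ring

theorem dgt_Q {R u v r : ℕ} (h : r ∈ Q4) : dgt R u v r =
    (R.testBit r).toNat + (u.testBit r).toNat + (v.testBit r).toNat := by
  have h1 : r ∉ P1 := Q4_P1 h
  unfold dgt bQ bP onS
  rw [if_pos h, if_pos h, if_pos h, if_neg h1, if_neg h1, if_neg h1, if_neg h1]
  rfl

theorem dgt_le (R u v r : ℕ) : dgt R u v r ≤ 4 := by
  unfold dgt
  by_cases h : r ∈ Q4
  · have h1 : r ∉ P1 := Q4_P1 h
    have := bQ_le R r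
    have := bQ_le u r
    have := bQ_le v r
    unfold bP onS
    rw [if_neg h1, if_neg h1, if_neg h1, if_neg h1]
    omega
  · have := bP_le R r
    have := bP_le u r
    have := bP_le v r
    unfold bQ onS
    rw [if_neg h, if_neg h, if_neg h]
    split_ifs <;> omega

theorem dgt_P {R u v r : ℕ} (h : r ∈ P1) : dgt R u v r = bP R r + bP u r + bP v r + 1 := by
  have h1 := P1_Q4 h
  unfold dgt bQ onS
  rw [if_neg h1, if_neg h1, if_neg h1, if_pos h]
  ring

theorem dgt_lt (R u v r : ℕ) : dgt R u v r < 2 ^ 8 := lt_of_le_of_lt (dgt_le R u v r) (by norm_num)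

/-! ### shift of fields -/

/-- bit 1 of the fields in `S` -/
theorem shr_one {w : ℕ → ℕ} (hw : ∀ r < 1024, w r < 2 ^ 8) (S : Finset ℕ) :
    (pk 8 1024 w >>> 1) &&& pk 8 1024 (ind S) =
      pk 8 1024 (fun r => if r ∈ S then ((w r).testBit 1).toNat else 0) := by
  have h1 : ∀ i < 1024, ind S i < 2 ^ 8 := fun i _ => by
    unfold ind
    split_ifs <;> norm_num
  have h2 : ∀ i < 1024, (fun r => if r ∈ S then ((w r).testBit 1).toNat else 0) i < 2 ^ 8 :=
    fun i _ => by
      show (if i ∈ S then ((w i).testBit 1).toNat else 0) < 2 ^ 8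
      split_ifs
      · exact lt_of_le_of_lt (Bool.toNat_le _) (by norm_num)
      · norm_num
  have hb : ∀ (b : Bool) (i : ℕ), b.toNat.testBit i = (b && decide (i = 0)) := by
    intro b i
    cases b with
    | false => simp
    | true =>
      rw [Bool.toNat_true, Bool.true_and, Bool.eq_iff_iff,
        Nat.testBit_one_eq_true_iff_self_eq_zero, decide_eq_true_eq]
  refine Nat.eq_of_testBit_eq fun t => ?_
  rw [Nat.testBit_and, Nat.testBit_shiftRight, Pool.Agent.Helper59.TY.testBit_pk (by norm_num) hw,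
    Pool.Agent.Helper59.TY.testBit_pk (by norm_num) h1,
    Pool.Agent.Helper59.TY.testBit_pk (by norm_num) h2]
  by_cases ht : t < 8 * 1024
  · rw [decide_eq_true ht, Bool.true_and, Bool.true_and]
    by_cases hr : t / 8 ∈ S
    · unfold ind
      rw [if_pos hr, if_pos hr, hb]
      by_cases h8 : t % 8 = 0
      · have e1 : (1 + t) / 8 = t / 8 := by omega
        have e2 : (1 + t) % 8 = 1 := by omega
        rw [h8, e1, e2, decide_eq_true (show 1 + t < 8 * 1024 by omega), Bool.true_and,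
          decide_eq_true (rfl : (0 : ℕ) = 0)]
        simp
      · have h9 : (1 : ℕ).testBit (t % 8) = false := by
          rw [← Bool.not_eq_true, Nat.testBit_one_eq_true_iff_self_eq_zero]
          exact h8
        rw [h9, decide_eq_false h8, Bool.and_false, Bool.and_false]
    · unfold ind
      rw [if_neg hr, if_neg hr, Nat.zero_testBit, Bool.and_false]
  · rw [decide_eq_false ht, Bool.false_and, Bool.false_and, Bool.and_false]

/-- counting with four sets -/
theorem quad_prod4 {S1 S2 S3 S4 : Finset ℕ} (h1 : S1 ⊆ Q4) (h2 : S2 ⊆ Q4) (h3 : S3 ⊆ Q4)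
    (h4 : S4 ⊆ Q4) :
    nQ (pk 8 1024 (fun m => ind S1 m + ind S2 m + ind S3 m + ind S4 m)) =
      pk 8 1024 (onP fun r => cS S1 r + cS S2 r + cS S3 r + cS S4 r) := by
  have h5 := corr1 (E := 1023) (Ps := P2) (Rs := P2) (by norm_num) (fun p hp => P2_le hp)
    (w := fun m => ind S1 m + ind S2 m + ind S3 m + ind S4 m) (c := 4)
    (fun r _ => by
      have := ind_le S1 r
      have := ind_le S2 r
      have := ind_le S3 r
      have := ind_le S4 r
      omega)
    (by rw [Pool.Agent.Helper97.CV.Kill10.P2_card]; norm_num) (fun r hr => P2_lt hr)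
  have e : (8184 : ℕ) = 8 * 1023 := by norm_num
  unfold nQ
  rw [raw_land, raw_shr, raw_mul, cC2_eq, cM2_eq, e, h5]
  refine pk_congr fun r _ => ?_
  unfold onP
  split_ifs with hr
  · have e1 : ∀ q, KillW.ext 1024 (fun m => ind S1 m + ind S2 m + ind S3 m + ind S4 m) (r + q) =
        KillW.ext 1024 (ind S1) (r + q) + KillW.ext 1024 (ind S2) (r + q) +
          KillW.ext 1024 (ind S3) (r + q) + KillW.ext 1024 (ind S4) (r + q) := by
      intro q
      unfold KillW.ext
      split_ifs <;> rfl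
    rw [sum_congr rfl fun q _ => e1 q, sum_add_distrib, sum_add_distrib, sum_add_distrib]
    have hP : P2 = (L 10 2).toFinset := rfl
    rw [hP, sum_ext_ind chk4 h1 hr, sum_ext_ind chk4 h2 hr, sum_ext_ind chk4 h3 hr,
      sum_ext_ind chk4 h4 hr]
  · rfl

/-! ### the laws -/

section
variable {B : Fam'} {R u v : ℕ} (h : Bits B R u v)
include h

theorem bQ_R {r : ℕ} : bQ R r = ind (Rk B 12) r := by
  unfold bQ ind
  by_cases hr : r ∈ Q4
  · rw [if_pos hr]
    by_cases h1 : r ∈ Rk B 12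
    · rw [if_pos h1, (h.x4 r hr).2 h1]
      rfl
    · rw [if_neg h1, Bool.eq_false_iff.2 fun h2 => h1 ((h.x4 r hr).1 h2)]
      rfl
  · rw [if_neg hr, if_neg fun h1 => hr (Rk_sub B 12 h1)]

theorem bQ_u {r : ℕ} : bQ u r = ind (Rk B 11) r := by
  unfold bQ ind
  by_cases hr : r ∈ Q4
  · rw [if_pos hr]
    by_cases h1 : r ∈ Rk B 11
    · rw [if_pos h1, (h.u4 r hr).2 h1]
      rfl
    · rw [if_neg h1, Bool.eq_false_iff.2 fun h2 => h1 ((h.u4 r hr).1 h2)]
      rfl
  · rw [if_neg hr, if_neg fun h1 => hr (Rk_sub B 11 h1)]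

theorem bQ_v {r : ℕ} : bQ v r = ind (Rk B 10) r := by
  unfold bQ ind
  by_cases hr : r ∈ Q4
  · rw [if_pos hr]
    by_cases h1 : r ∈ Rk B 10
    · rw [if_pos h1, (h.v4 r hr).2 h1]
      rfl
    · rw [if_neg h1, Bool.eq_false_iff.2 fun h2 => h1 ((h.v4 r hr).1 h2)]
      rfl
  · rw [if_neg hr, if_neg fun h1 => hr (Rk_sub B 10 h1)]

/-- **parities** -/
theorem par_fast : Nat.land (dW (rootX R) u v) M10.cQ =
    g (Rk B 10) ^^^ g (Rk B 11) ^^^ g (Rk B 12) := by
  show dW (rootX R) u v &&& M10.cQ = _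
  have hg : ∀ k : Fin 13, g (Rk B k) = pk 8 1024 (ind (Rk B k)) := fun k =>
    g_eq_pk fun r hr => Q4_lt (Rk_sub B k hr)
  rw [dW_eq, cQ_pk, pk_land (fun r _ => dgt_lt R u v r) (fun r _ => ind_lt _ _), hg, hg, hg,
    pk_xor (fun r _ => ind_lt _ _) (fun r _ => ind_lt _ _),
    pk_xor (fun r _ => Nat.xor_lt_two_pow (ind_lt _ _) (ind_lt _ _)) (fun r _ => ind_lt _ _)]
  refine pk_congr fun r _ => ?_
  by_cases hr : r ∈ Q4
  · have e1 := bQ_R h (r := r)
    have e2 := bQ_u h (r := r)
    have e3 := bQ_v h (r := r)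
    unfold bQ at e1 e2 e3
    rw [if_pos hr] at e1 e2 e3
    rw [dgt_Q hr, ← e1, ← e2, ← e3]
    unfold ind
    rw [if_pos hr]
    cases R.testBit r <;> cases u.testBit r <;> cases v.testBit r <;> rfl
  · have e1 : ∀ k : Fin 13, ind (Rk B k) r = 0 := fun k => by
      unfold ind
      rw [if_neg fun h1 => hr (Rk_sub B k h1)]
    rw [e1, e1, e1]
    unfold ind
    rw [if_neg hr, Nat.and_zero]
    rfl

/-- the counting word -/
theorem cnt_word : Nat.add (Nat.land (dW (rootX R) u v) cQ3)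
    (Nat.land (Nat.shiftRight (dW (rootX R) u v) 1) M10.cQ) =
    pk 8 1024 (fun m => ind (Rk B 12) m + ind (Rk B 11) m + ind (Rk B 10) m + ind (Ms B) m) := by
  show (dW (rootX R) u v &&& cQ3) + ((dW (rootX R) u v >>> 1) &&& M10.cQ) = _
  have h3 : ∀ i < 1024, onS Q4 3 i < 2 ^ 8 := fun i _ => by
    unfold onS
    split_ifs <;> norm_num
  rw [dW_eq, cQ3_eq, cQ_pk, shr_one (fun r _ => dgt_lt R u v r), pk_land (fun r _ => dgt_lt R u v r) h3,
    pk_add]
  refine pk_congr fun r _ => ?_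
  by_cases hr : r ∈ Q4
  · have hm : r ∈ Ms B ↔ 2 ≤ (if r ∈ Rk B 10 then 1 else 0) + (if r ∈ Rk B 11 then 1 else 0) +
        (if r ∈ Rk B 12 then 1 else 0) := by
      simp only [mem_Rk hr]
      unfold Ms
      rw [mem_filter]
      exact ⟨fun h5 => h5.2, fun h5 => ⟨hr, h5⟩⟩
    have hx := h.x4 r hr
    have hu := h.u4 r hr
    have hv := h.v4 r hr
    rw [dgt_Q hr]
    unfold onS ind
    rw [if_pos hr, if_pos hr]
    simp only [← hx, ← hu, ← hv] at hm ⊢
    by_cases hM : r ∈ Ms B
    · rw [if_pos hM]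
      have h5 := hm.1 hM
      revert h5
      cases R.testBit r <;> cases u.testBit r <;> cases v.testBit r <;> simp <;> decide
    · rw [if_neg hM]
      have h5 := fun h6 => hM (hm.2 h6)
      revert h5
      cases R.testBit r <;> cases u.testBit r <;> cases v.testBit r <;> simp <;> decide
  · unfold onS ind
    rw [if_neg hr, if_neg hr, if_neg (fun h5 => hr (Rk_sub B 12 h5)),
      if_neg (fun h5 => hr (Rk_sub B 11 h5)), if_neg (fun h5 => hr (Rk_sub B 10 h5)),
      if_neg (fun h5 => hr (Ms_sub B h5)), Nat.and_zero]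

/-- blocks through `11`, `10` -/
theorem nU_eq : nU u = pk 8 1024 (onP (cS (T2s B 11 10))) := by
  have h1 : Nat.land (sU u) cT = g (T2s B 11 10) := by
    show sU u &&& cT = _
    rw [sU_pk, cT_eq, g_eq_pk (N := 1024) (fun r hr => T3_lt hr),
      g_eq_pk (N := 1024) (fun r hr => T3_lt (T2s_sub B 11 10 hr)),
      pk_land (fun i _ => lt_of_le_of_lt (Bool.toNat_le _) (by norm_num)) (fun i _ => ind_lt _ _)]
    refine pk_congr fun r _ => ?_
    by_cases hr : r ∈ T3
    · have hy := h.yz r hr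
      have h2 : r ∉ Q4 := fun h3 => Q4_T3 h3 hr
      have h3 : r ∉ P1 := T3_P1 hr
      have h4 : (u.testBit (1024 + r) = true) ↔ r ∈ T2s B 11 10 := by
        rw [hy]
        unfold T2s
        rw [mem_filter]
        exact ⟨fun h5 => ⟨hr, h5⟩, fun h5 => h5.2⟩
      rw [bit_lU, decide_eq_false h2, decide_eq_false h3, decide_eq_true hr]
      unfold ind
      rw [if_pos hr]
      by_cases h5 : r ∈ T2s B 11 10
      · rw [if_pos h5, h4.2 h5]
        simp
      · rw [if_neg h5, Bool.eq_false_iff.2 (fun h6 => h5 (h4.1 h6))]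
        simp
    · unfold ind
      rw [if_neg hr, if_neg (fun h5 => hr (T2s_sub B 11 10 h5)), Nat.and_zero]
  unfold nU
  rw [h1]
  exact tri_prod (T2s_sub B 11 10)

/-- the root part of the pair word, without the quads -/
def FrT (B : Fam') (r : ℕ) : ℕ :=
  2 * (cS (T2s B 12 10) r + cS (T2s B 12 11) r) + 3 * ind (bs B) r -
    ((cS (T2s B 12 10) r + ind (bs B) r) / 2 + (cS (T2s B 12 11) r + ind (bs B) r) / 2)

theorem rootF_eq : rootF R = pk 8 1024 (onP (FrT B)) := by
  unfold rootF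
  rw [rootb_eq h, rootn_xz h, rootn_xy h,
    half_tri (T2s_sub B 12 10), half_tri (T2s_sub B 12 11), onP_add, onP_mul, onP_mul, onP_add,
    onP_add, onP_sub]
  · rfl
  · intro r _
    omega

/-- **the pair word** -/
theorem pair_fast (hB : OddCover B) : ∃ p : ℕ → ℕ,
    fD (rootF R) (rootb R) u (dW (rootX R) u v) = pk 8 1024 p ∧
    (∀ r ∈ P2, p r ≤ Lam (Dec B B5) (ofMask r)) ∧ ∀ r, r ∉ P2 → p r = 0 := by
  have hc : ∀ r ∈ P2, Lam (Dec B B5) (ofMask r) + 15 +
      (cS (T2s B 12 11) r + ind (bs B) r) / 2 + (cS (T2s B 12 10) r + ind (bs B) r) / 2 +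
      (cS (T2s B 11 10) r + ind (bs B) r) / 2 =
      cS (Rk B 12) r + cS (Rk B 11) r + cS (Rk B 10) r + cS (Ms B) r +
        2 * (cS (T2s B 12 11) r + cS (T2s B 12 10) r + cS (T2s B 11 10) r) +
        3 * ind (bs B) r := by
    intro r hr
    have h1 := Pool.Agent.Helper28.TY.count3 hB hr
    have h2 : ind (bs B) r =
        if insert 12 (insert 11 (insert 10 (ofMask r))) ∈ B then 1 else 0 := by
      unfold ind bs
      simp [hr]
    unfold T2s Ms Rk
    rw [cS_filter, cS_filter, cS_filter, cS_filter, cS_filter, cS_filter, cS_filter, h2]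
    exact h1
  refine ⟨onP fun r => cS (Rk B 12) r + cS (Rk B 11) r + cS (Rk B 10) r + cS (Ms B) r +
    (FrT B r + 2 * cS (T2s B 11 10) r) - ((cS (T2s B 11 10) r + ind (bs B) r) / 2 + 15), ?_, ?_, ?_⟩
  · unfold fD
    rw [cnt_word h, quad_prod4 (Rk_sub B 12) (Rk_sub B 11) (Rk_sub B 10) (Ms_sub B)]
    unfold fU mU
    show pk 8 1024 (onP fun r => cS (Rk B 12) r + cS (Rk B 11) r + cS (Rk B 10) r + cS (Ms B) r) +
      (rootF R + 2 * nU u) - ((((nU u + rootb R) >>> 1) &&& c127) + c15) = _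
    have e15 : c15 = pk 8 1024 (onP fun _ => 15) := c15_eq
    rw [nU_eq h, rootF_eq h, rootb_eq h, half_tri (T2s_sub B 11 10), e15, onP_mul, onP_add, onP_add,
      onP_add, onP_sub]
    intro r hr
    have := hc r hr
    unfold FrT
    omega
  · intro r hr
    have := hc r hr
    unfold onP
    rw [if_pos hr]
    show _ - _ ≤ _
    unfold FrT
    omega
  · intro r hr
    unfold onP
    rw [if_neg hr]

/-- **offsets** -/
theorem off_fast {z : Fin 13} (hz : z.val < 10) :
    dgt R u v (2 ^ z.val) ≤ mm B z 10 + mm B z 11 + mm B z 12 + 1 := by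
  have h1 := two_pow_mem_P1 hz
  have hx := h.x1 z hz
  have hu := h.u1 z hz
  have hv := h.v1 z hz
  rw [dgt_P h1]
  unfold bP
  rw [if_pos h1, if_pos h1, if_pos h1, mm_comm B z 10, mm_comm B z 11, mm_comm B z 12]
  have k : ∀ (b : Bool) (n : ℕ), (b = true ↔ 1 ≤ n) → b.toNat ≤ n := by
    intro b n hbn
    cases b with
    | false => exact Nat.zero_le _
    | true => exact hbn.1 rfl
  have := k _ _ hx
  have := k _ _ hu
  have := k _ _ hv
  omega

end

end Pool.Agent.Helper49.FW
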