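import Mathlib
import Pool.Agent.Helper52.TY.LayLane
import Pool.Agent.Helper64.TY.KilX
import Pool.Agent.Helper38.TY.CenFn

/-!
MP_8ee768_co, project TH-Y', stages E and B1a: from a centre to the frames of its pairs of
positions `y` (excess 1, to `11`) and `x` (excess 0, to `10`), in any order.

The frame is `piE y x`: exchange `y, 11`, then `x', 10`, where `x'` is the place of `x` (`x` or, for
`x = 11`, `y`). `tauE y x` takes the base frame of `x` (`x, 11` exchanged) to it.
-/

set_option autoImplicit false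

namespace Pool.Agent.Helper49.TY

open Finset
open Pool.Agent.Helper89.CV (OddCover ofMask)
open Pool.Agent.Helper97.CV
open Pool.Agent.Helper79.CV
open Pool.Agent.Helper33.CV
open Pool.Agent.Helper82.TY (below Best Lay)
open Pool.Agent.Helper38.TY (ite0 ite0_false ite0_true)
open Pool.Agent.Helper52.TY (Fam' LYL LZL LaneDeadL LYL_mapF LZL_mapF lay_moved_mul fix2_swap
  mem_LYL mem_LZL)

/-- the place of `x` after the exchange of `y` and `11` -/
def qE (y x : Fin 13) : Fin 13 := if x = 11 then y else x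

/-- the frame of the pair -/
def piE (y x : Fin 13) : Equiv.Perm (Fin 13) := Equiv.swap (qE y x) 10 * Equiv.swap y 11

/-- from the base frame of `x` to the frame of the pair, for the lane of `x` -/
def tauE (y x : Fin 13) : Equiv.Perm (Fin 13) :=
  if y = 10 then 1 else if y = 11 then Equiv.swap x 10
  else (if x.val ≤ 9 then Equiv.swap y x else 1) * Equiv.swap y 10

theorem piE_12 : ∀ y x : Fin 13, y ≠ x → y < 12 → x < 12 → piE y x 12 = 12 := by decide

theorem piE_y : ∀ y x : Fin 13, y ≠ x → y < 12 → x < 12 → piE y x y = 11 := by decide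

theorem piE_x : ∀ y x : Fin 13, y ≠ x → y < 12 → x < 12 → piE y x x = 10 := by decide

theorem tauE_mul (y x : Fin 13) (hyx : y ≠ x) (hy : y < 12) (hx : x < 12) :
    Equiv.swap 10 11 * piE y x = tauE y x * Equiv.swap x 11 := by
  have h : ∀ y x : Fin 13, y ≠ x → y < 12 → x < 12 → ∀ a : Fin 13,
      (Equiv.swap 10 11 * piE y x : Equiv.Perm (Fin 13)) a =
        (tauE y x * Equiv.swap x 11 : Equiv.Perm (Fin 13)) a := by decide
  exact Equiv.ext (h y x hyx hy hx)

theorem qE_lt : ∀ y x : Fin 13, y ≠ x → y < 12 → x < 12 → (qE y x).val < 11 := by decide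

theorem fix2_tauE {y x : Fin 13} (hyx : y ≠ x) (hy : y < 12) (hx : x < 12) : Fix2 (tauE y x) := by
  have h : ∀ y x : Fin 13, y ≠ x → y < 12 → x < 12 → tauE y x 11 = 11 ∧ tauE y x 12 = 12 := by
    decide
  exact h y x hyx hy hx

/-- the lane of `y` in the frame of the pair -/
theorem LYL_piE {y x : Fin 13} (hyx : y ≠ x) (hy : y < 12) (hx : x < 12) (B : Fam') :
    LYL (mapF (piE y x) B) = mapF (Equiv.swap (qE y x) 10) (Lay (moved (Equiv.swap y 11) B y)) := by
  rw [LYL_mapF (piE_y y x hyx hy hx)]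
  exact lay_moved_mul (fix2_swap (qE_lt y x hyx hy hx) (by decide)) B y

/-- the lane of `x` in the frame of the pair -/
theorem LZL_piE {y x : Fin 13} (hyx : y ≠ x) (hy : y < 12) (hx : x < 12) (B : Fam') :
    LZL (mapF (piE y x) B) = mapF (tauE y x) (Lay (moved (Equiv.swap x 11) B x)) := by
  rw [LZL_mapF (piE_x y x hyx hy hx), tauE_mul y x hyx hy hx]
  exact lay_moved_mul (fix2_tauE hyx hy hx) B x

/-! ### the frames -/

/-- the covers of a frame of stage E: centre link `D`, bits of `hm` = neighbours of the centre -/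
structure HEL (reps : List ℕ) (j : ℕ) (D : Fam') (hm : ℕ) (B : Fam') : Prop where
  q : QE reps j B 12 11 10
  root : link B 12 = D
  nb : ∀ t : Fin 13, t.val < 10 → hm.testBit t.val = true → 1 ≤ mm B 12 t

/-- the covers of a frame of stage B1a -/
structure HBL (D : Fam') (hm : ℕ) (B : Fam') : Prop where
  q : QB B 12 11 10
  root : link B 12 = D
  nb : ∀ t : Fin 13, t.val < 10 → hm.testBit t.val = true → 1 ≤ mm B 12 t

/-- moving the covers of a pair to its frame, stage E -/
theorem HEL.frame {reps : List ℕ} {j r : ℕ} {y x : Fin 13} (hyx : y ≠ x) (hy : y < 12)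
    (hx : x < 12) {B : Fam'} (h : QE reps j B 12 y x) (hr : link B 12 = fam 12 4 r) {hm : ℕ}
    (hn : ∀ t : Fin 13, t.val < 10 → hm.testBit t.val = true →
      1 ≤ mm B 12 ((piE y x).symm t)) :
    HEL reps j (mapF (piE y x) (fam 12 4 r)) hm (mapF (piE y x) B) := by
  have e12 := piE_12 y x hyx hy hx
  have e11 := piE_y y x hyx hy hx
  have e10 := piE_x y x hyx hy hx
  have h1 := h.map (piE y x)
  rw [e12, e11, e10] at h1
  refine ⟨h1, ?_, fun t ht hl => ?_⟩
  · rw [← hr]
    conv_lhs => rw [← e12]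
    exact link_mapF _ _ _
  · have h2 : (12 : Fin 13) ≠ (piE y x).symm t := by
      intro h3
      rw [Equiv.eq_symm_apply, e12] at h3
      rw [← h3] at ht
      exact absurd ht (by decide)
    have h4 := mm_mapF h.best.odd (piE y x) h2
    rw [e12, Equiv.apply_symm_apply] at h4
    rw [h4]
    exact hn t ht hl

/-- moving the covers of a pair to its frame, stage B1a -/
theorem HBL.frame {r : ℕ} {y x : Fin 13} (hyx : y ≠ x) (hy : y < 12)
    (hx : x < 12) {B : Fam'} (h : QB B 12 y x) (hr : link B 12 = fam 12 4 r) {hm : ℕ}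
    (hn : ∀ t : Fin 13, t.val < 10 → hm.testBit t.val = true →
      1 ≤ mm B 12 ((piE y x).symm t)) :
    HBL (mapF (piE y x) (fam 12 4 r)) hm (mapF (piE y x) B) := by
  have e12 := piE_12 y x hyx hy hx
  have e11 := piE_y y x hyx hy hx
  have e10 := piE_x y x hyx hy hx
  have h1 := h.map (piE y x)
  rw [e12, e11, e10] at h1
  refine ⟨h1, ?_, fun t ht hl => ?_⟩
  · rw [← hr]
    conv_lhs => rw [← e12]
    exact link_mapF _ _ _
  · have h2 : (12 : Fin 13) ≠ (piE y x).symm t := by
      intro h3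
      rw [Equiv.eq_symm_apply, e12] at h3
      rw [← h3] at ht
      exact absurd ht (by decide)
    have h4 := mm_mapF h.best.odd (piE y x) h2
    rw [e12, Equiv.apply_symm_apply] at h4
    rw [h4]
    exact hn t ht hl

/-! ### the lower bounds with one exception (helper64's `ValidX`) -/

/-- the bounds `l` hold up to one exception in `N`, where `l` is at most `e` and `l'` is known -/
def LowX (B : Fam') (l : ℕ → ℕ) (N : Finset ℕ) (e l' : ℕ) : Prop :=
  ∃ s : Fin 13, (∀ z : Fin 13, z.val < 10 → z ≠ s → l (2 ^ z.val) ≤ MM B z) ∧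
    (s.val < 10 → l (2 ^ s.val) ≤ MM B s ∨ (2 ^ s.val ∈ N ∧ l (2 ^ s.val) ≤ e ∧ l' ≤ MM B s))

theorem LowX.validX {B : Fam'} {g a l : ℕ → ℕ} {N : Finset ℕ} {e l' : ℕ} (h : LowX B l N e l')
    (h1 : ∀ z w : Fin 13, z.val < 10 → w.val < 10 → z ≠ w →
      (g (2 ^ z.val + 2 ^ w.val) + 1) / 3 ≤ mm B z w)
    (h2 : ∀ z : Fin 13, z.val < 10 → a (2 ^ z.val) ≤ mm B z 10 + mm B z 11 + mm B z 12 + 1) :
    Pool.Agent.Helper64.TY.KilX.ValidX B g a l N e l' := ⟨h1, h2, h⟩

theorem LowX.mono {B : Fam'} {l l2 : ℕ → ℕ} {N N2 : Finset ℕ} {e e2 l' l2' : ℕ}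
    (h : LowX B l N e l') (hl : ∀ z : Fin 13, z.val < 10 → l2 (2 ^ z.val) ≤ l (2 ^ z.val))
    (hN : N ⊆ N2) (he : e ≤ e2) (hl' : l2' ≤ l') : LowX B l2 N2 e2 l2' := by
  obtain ⟨s, h1, h2⟩ := h
  refine ⟨s, fun z hz hzs => (hl z hz).trans (h1 z hz hzs), fun hs => ?_⟩
  rcases h2 hs with h3 | ⟨h3, h4, h5⟩
  · exact Or.inl ((hl s hs).trans h3)
  · exact Or.inr ⟨hN h3, ((hl s hs).trans h4).trans he, hl'.trans h5⟩

/-- **stage E**: `8` at neighbours, else `6`; the exception is no neighbour -/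
theorem QE.lowX {reps : List ℕ} {j : ℕ} {B : Fam'} (h : QE reps j B 12 11 10) {l : ℕ → ℕ}
    {N : Finset ℕ}
    (hl : ∀ z : Fin 13, z.val < 10 → l (2 ^ z.val) ≤ 6 ∨ (l (2 ^ z.val) ≤ 8 ∧ Nbr B z))
    (hN : ∀ z : Fin 13, z.val < 10 → ¬ Nbr B z → 2 ^ z.val ∈ N) : LowX B l N 6 (MM B 10) := by
  have hnb : ∀ z : Fin 13, z.val < 10 → Nbr B z → 8 ≤ MM B z := by
    intro z hz hn
    obtain ⟨h1, h2, h3⟩ := ne_of_lt_ten hz
    rcases hn with hn | hn | hn
    · exact h.heavy_c h1 h2 hn
    · exact h.heavy_y h1 h2 hn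
    · exact h.heavy_x h3 hn
  obtain ⟨s, hs⟩ := h.exc
  refine ⟨s, fun z hz hzs => ?_, fun hs10 => ?_⟩
  · obtain ⟨h1, h2, h3⟩ := ne_of_lt_ten hz
    rcases hl z hz with h4 | ⟨h4, h5⟩
    · exact h4.trans (hs z h3 hzs)
    · exact h4.trans (hnb z hz h5)
  · by_cases hn : Nbr B s
    · left
      have h5 := hnb s hs10 hn
      rcases hl s hs10 with h4 | ⟨h4, -⟩
      · omega
      · omega
    · right
      refine ⟨hN s hs10 hn, ?_, h.min s⟩
      rcases hl s hs10 with h4 | ⟨-, h4⟩
      · exact h4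
      · exact absurd h4 hn

/-- **stage B1a**: `8` at neighbours, else the excess of `10`; the exception is a neighbour of `10`
only -/
theorem QB.lowX {B : Fam'} (h : QB B 12 11 10) {l : ℕ → ℕ} {N : Finset ℕ}
    (hl : ∀ z : Fin 13, z.val < 10 →
      l (2 ^ z.val) ≤ MM B 10 ∨ (l (2 ^ z.val) ≤ 8 ∧ (1 ≤ mm B 12 z ∨ 1 ≤ mm B 11 z)) ∨
      (l (2 ^ z.val) ≤ 8 ∧ 1 ≤ mm B 10 z ∧ 2 ^ z.val ∈ N)) : LowX B l N 8 (MM B 10) := by
  obtain ⟨s, hs, -⟩ := h.exc_z
  have key : ∀ z : Fin 13, z.val < 10 → (1 ≤ mm B 12 z ∨ 1 ≤ mm B 11 z) → 8 ≤ MM B z := by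
    intro z hz hn
    obtain ⟨h1, h2, h3⟩ := ne_of_lt_ten hz
    rcases hn with hn | hn
    · exact h.heavy_c h1 h2 hn
    · exact h.heavy_y h1 h2 hn
  refine ⟨s, fun z hz hzs => ?_, fun hs10 => ?_⟩
  · obtain ⟨h1, h2, h3⟩ := ne_of_lt_ten hz
    rcases hl z hz with h4 | ⟨h4, h5⟩ | ⟨h4, h5, -⟩
    · exact h4.trans (h.min z h1 h2)
    · exact h4.trans (key z hz h5)
    · exact h4.trans (hs z h3 hzs h5)
  · obtain ⟨h1, h2, h3⟩ := ne_of_lt_ten hs10
    rcases hl s hs10 with h4 | ⟨h4, h5⟩ | ⟨h4, h5, h6⟩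
    · exact Or.inl (h4.trans (h.min s h1 h2))
    · exact Or.inl (h4.trans (key s hs10 h5))
    · exact Or.inr ⟨h6, h4, h.min s h1 h2⟩

/-! ### the bits of the lanes -/

theorem flag_iff {B : Fam'} (hB : OddCover B) {a z : Fin 13} (h : a ≠ z) :
    21 ≤ cnt B (insert a {z}) ↔ 1 ≤ mm B a z := by
  rw [cnt_pair hB h]
  omega

theorem single_below {n : ℕ} {z : Fin 13} (hz : z.val < n) :
    ({z} : Finset (Fin 13)) ⊆ below n := by
  intro a ha
  rw [mem_singleton] at ha
  rw [ha]
  exact mem_below.2 hz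

theorem mk_single (z : Fin 13) :
    Pool.Agent.Helper79.CV.mk ({z} : Finset (Fin 13)) = 2 ^ z.val := by
  revert z
  decide

/-- the flag layer of the lane of `11` -/
theorem flag_LYL {B : Fam'} (hB : OddCover B) {z : Fin 13} (hz : z.val < 10) :
    (cub 11 (LYL B)).testBit (2 ^ z.val) = true ↔ 1 ≤ mm B 11 z := by
  have h1 : (2 : ℕ) ^ z.val < 2 ^ 11 := Nat.pow_lt_pow_right (by norm_num) (by omega)
  have h2 : ofMask (2 ^ z.val) = {z} := by
    rw [← mk_single, ofMask_mk]
  obtain ⟨-, h4, -⟩ := ne_of_lt_ten hz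
  rw [testBit_cub _ h1, h2, decide_eq_true_eq, mem_LYL (single_below (by omega)), card_singleton,
    flag_iff hB h4.symm]
  omega

/-- the flag layer of the lane of `10` -/
theorem flag_LZL {B : Fam'} (hB : OddCover B) {z : Fin 13} (hz : z.val < 10) :
    (cub 11 (LZL B)).testBit (2 ^ z.val) = true ↔ 1 ≤ mm B 10 z := by
  have h1 : (2 : ℕ) ^ z.val < 2 ^ 11 := Nat.pow_lt_pow_right (by norm_num) (by omega)
  have h2 : ofMask (2 ^ z.val) = {z} := by
    rw [← mk_single, ofMask_mk]
  obtain ⟨-, -, h4⟩ := ne_of_lt_ten hz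
  rw [testBit_cub _ h1, h2, decide_eq_true_eq, mem_LZL (single_below hz), card_singleton,
    flag_iff hB h4.symm]
  omega

/-! ### the mask of the neighbours of the centre in the frame of a pair -/

/-- the mask, in the frame of the pair, of the bits of `m` other than `y` (`x` is no bit of `m`) -/
def hmE (m y x : ℕ) : ℕ :=
  (fun h => Nat.lor (Nat.lor (Nat.land h 1023)
    (ite0 (Nat.beq (Nat.land h 2048) 0) (Nat.pow 2 (ite0 (Nat.beq y 10) y x)) 0))
    (ite0 (Nat.beq (Nat.land h 1024) 0) (Nat.pow 2 (ite0 (Nat.beq x 11) x y)) 0))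
    (Nat.sub m (Nat.pow 2 y))

theorem piE_symm_self : ∀ y x t : Fin 13, y ≠ x → y < 12 → x < 12 → t.val < 10 → t ≠ y →
    t ≠ x → (piE y x).symm t = t := by
  have h : ∀ y x t : Fin 13, y ≠ x → y < 12 → x < 12 → t.val < 10 → t ≠ y → t ≠ x →
      piE y x t = t := by decide
  intro y x t h1 h2 h3 h4 h5 h6
  rw [Equiv.symm_apply_eq]
  exact (h y x t h1 h2 h3 h4 h5 h6).symm

theorem piE_symm_eleven : ∀ y x : Fin 13, y ≠ x → y < 12 → x < 12 → y ≠ 11 → x ≠ 11 →
    (piE y x).symm (if y = 10 then x else y) = 11 := by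
  have h : ∀ y x : Fin 13, y ≠ x → y < 12 → x < 12 → y ≠ 11 → x ≠ 11 →
      piE y x 11 = if y = 10 then x else y := by decide
  intro y x h1 h2 h3 h4 h5
  rw [Equiv.symm_apply_eq]
  exact (h y x h1 h2 h3 h4 h5).symm

theorem piE_symm_ten : ∀ y x : Fin 13, y ≠ x → y < 12 → x < 12 → y ≠ 10 → x ≠ 10 →
    (piE y x).symm (if x = 11 then y else x) = 10 := by
  have h : ∀ y x : Fin 13, y ≠ x → y < 12 → x < 12 → y ≠ 10 → x ≠ 10 →
      piE y x 10 = if x = 11 then y else x := by decide
  intro y x h1 h2 h3 h4 h5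
  rw [Equiv.symm_apply_eq]
  exact (h y x h1 h2 h3 h4 h5).symm

theorem sub_pow_xor {x b : ℕ} (h : x.testBit b = true) : x - 2 ^ b = x ^^^ 2 ^ b := by
  have h1 : (x ^^^ 2 ^ b).testBit b = false := by
    rw [Nat.testBit_xor, h, Nat.testBit_two_pow_self]
    rfl
  have h2 := Pool.Agent.Helper91.TY.add_two_pow_eq_xor h1
  rw [Nat.xor_assoc, Nat.xor_self, Nat.xor_zero] at h2
  omega

theorem testBit_of_beq {h b : ℕ} (hb : Nat.beq (Nat.land h (2 ^ b)) 0 = false) :
    h.testBit b = true := by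
  by_contra hc
  rw [Bool.not_eq_true] at hc
  have h2 : Nat.land h (2 ^ b) = 0 := by
    show h &&& 2 ^ b = 0
    refine Nat.eq_of_testBit_eq fun i => ?_
    rw [Nat.testBit_and, Nat.testBit_two_pow, Nat.zero_testBit]
    by_cases hi : b = i
    · rw [← hi, hc, Bool.false_and]
    · rw [decide_eq_false hi, Bool.and_false]
  rw [h2] at hb
  exact Bool.noConfusion hb

/-- the bits of `hmE` come from bits of `m` -/
theorem hmE_law {m : ℕ} {y x : Fin 13} (hyx : y ≠ x) (hy : y < 12) (hx : x < 12)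
    (hmy : m.testBit y.val = true) (hmx : m.testBit x.val = false) (t : Fin 13)
    (ht : t.val < 10) (hb : (hmE m y.val x.val).testBit t.val = true) :
    m.testBit ((piE y x).symm t).val = true := by
  set h := m - 2 ^ y.val with hh
  have hhx : h = m ^^^ 2 ^ y.val := sub_pow_xor hmy
  have hbit : ∀ s : ℕ, h.testBit s = true → s ≠ y.val ∧ m.testBit s = true := by
    intro s hs
    rw [hhx, Nat.testBit_xor, Nat.testBit_two_pow] at hs
    by_cases hsy : s = y.val
    · subst hsy
      rw [hmy, decide_eq_true rfl] at hs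
      exact absurd hs (by decide)
    · rw [decide_eq_false (show ¬ y.val = s from fun h1 => hsy h1.symm), Bool.xor_false] at hs
      exact ⟨hsy, hs⟩
  have e : hmE m y.val x.val = ((h &&& 1023) |||
      (ite0 (Nat.beq (Nat.land h (2 ^ 11)) 0) (2 ^ (ite0 (Nat.beq y.val 10) y.val x.val)) 0)) |||
      (ite0 (Nat.beq (Nat.land h (2 ^ 10)) 0) (2 ^ (ite0 (Nat.beq x.val 11) x.val y.val)) 0) := by
    have e1 : (2 : ℕ) ^ 11 = 2048 := by norm_num
    have e2 : (2 : ℕ) ^ 10 = 1024 := by norm_num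
    rw [e1, e2]
    rfl
  rw [e, Nat.testBit_or, Nat.testBit_or, Bool.or_eq_true, Bool.or_eq_true] at hb
  rcases hb with (hb | hb) | hb
  · rw [Nat.testBit_and, Bool.and_eq_true] at hb
    obtain ⟨h1, h2⟩ := hbit _ hb.1
    have h3 : t ≠ y := fun h4 => h1 (by rw [h4])
    have h4 : t ≠ x := fun h4 => by
      rw [h4, hmx] at h2
      exact Bool.false_ne_true h2
    rw [piE_symm_self y x t hyx hy hx ht h3 h4]
    exact h2
  · cases h11 : Nat.beq (Nat.land h (2 ^ 11)) 0 with
    | true =>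
      rw [h11, ite0_true, Nat.zero_testBit] at hb
      exact absurd hb Bool.false_ne_true
    | false =>
      rw [h11, ite0_false, Nat.testBit_two_pow, decide_eq_true_eq] at hb
      obtain ⟨h1, h2⟩ := hbit _ (testBit_of_beq h11)
      have h3 : y ≠ 11 := fun h4 => h1 (by rw [h4]; rfl)
      have h4 : x ≠ 11 := fun h4 => by
        rw [h4] at hmx
        rw [show (11 : Fin 13).val = 11 from rfl] at hmx
        rw [hmx] at h2
        exact Bool.false_ne_true h2
      have h5 : t = if y = 10 then x else y := by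
        apply Fin.ext
        rw [← hb]
        by_cases h6 : y = 10
        · have h7 : Nat.beq y.val 10 = true := by
            rw [h6]
            rfl
          rw [if_pos h6, h7, ite0_true]
        · have h7 : Nat.beq y.val 10 = false := by
            rw [← Bool.not_eq_true]
            intro h8
            exact h6 (Fin.ext (Nat.eq_of_beq_eq_true h8))
          rw [if_neg h6, h7, ite0_false]
      rw [h5, piE_symm_eleven y x hyx hy hx h3 h4]
      exact h2
  · cases h10 : Nat.beq (Nat.land h (2 ^ 10)) 0 with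
    | true =>
      rw [h10, ite0_true, Nat.zero_testBit] at hb
      exact absurd hb Bool.false_ne_true
    | false =>
      rw [h10, ite0_false, Nat.testBit_two_pow, decide_eq_true_eq] at hb
      obtain ⟨h1, h2⟩ := hbit _ (testBit_of_beq h10)
      have h3 : y ≠ 10 := fun h4 => h1 (by rw [h4]; rfl)
      have h4 : x ≠ 10 := fun h4 => by
        rw [h4] at hmx
        rw [show (10 : Fin 13).val = 10 from rfl] at hmx
        rw [hmx] at h2
        exact Bool.false_ne_true h2
      have h5 : t = if x = 11 then y else x := by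
        apply Fin.ext
        rw [← hb]
        by_cases h6 : x = 11
        · have h7 : Nat.beq x.val 11 = true := by
            rw [h6]
            rfl
          rw [if_pos h6, h7, ite0_true]
        · have h7 : Nat.beq x.val 11 = false := by
            rw [← Bool.not_eq_true]
            intro h8
            exact h6 (Fin.ext (Nat.eq_of_beq_eq_true h8))
          rw [if_neg h6, h7, ite0_false]
      rw [h5, piE_symm_ten y x hyx hy hx h3 h4]
      exact h2

end Pool.Agent.Helper49.TY
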