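import Mathlib
import Pool.Agent.Helper49.TY.PairE
import Pool.Agent.Helper91.TY.GlueB
import Pool.Agent.Helper16.TY.Net

/-!
MP_8ee768_co, project TH-Y', stages E and B1a: the suffix of a row of layered lanes (64 dense lanes of
512 bits per chunk, in the order of the class numbers) which starts at the first lane of class number at least `j`.
The lanes before it in its first chunk are replaced by junk (all 508 bits one).

`rowJ clr nl row j`, `nlJ clr nl j` are the row functions for helper38's `entsK`; `rowJ_in` is the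
law.
-/

set_option autoImplicit false
set_option maxRecDepth 100000
set_option exponentiation.threshold 2000000

namespace Pool.Agent.Helper49.TY

open Finset
open Pool.Agent.Helper89.CV (OddCover ofMask)
open Pool.Agent.Helper97.CV
open Pool.Agent.Helper79.CV
open Pool.Agent.Helper33.CV
open Pool.Agent.Helper63.SIMD
open Pool.Agent.Helper82.TY (below Best Lay card_of_mem_lay)
open Pool.Agent.Helper38.TY (ite0 ite0_false ite0_true sc dropN dropN_eq)
open Pool.Agent.Helper52.TY (expandC dcode dms testBit_expandC lin_expandC expandC_two_pow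
  pProg_lane length_dms dms_lt fld_expandC)
open Pool.Agent.Helper91.TY (RowIn DenN chkD chkDL chkD_sound chkDL_sound RowsOK)

/-! ### the program -/

/-- evaluation of `v` with the salt `k`, result a number -/
def frN (k v : ℕ) (f : ℕ → ℕ) : ℕ := @Nat.rec (fun _ => ℕ) (f 0) (fun m _ => f (sc k m)) v

theorem frN_eq (k v : ℕ) (f : ℕ → ℕ) : frN k v f = f v := by
  cases v <;> rfl

/-- evaluation of `v` with the salt `k`, result a list -/
def frL (k v : ℕ) (f : ℕ → List ℕ) : List ℕ :=
  @Nat.rec (fun _ => List ℕ) (f 0) (fun m _ => f (sc k m)) v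

theorem frL_eq (k v : ℕ) (f : ℕ → List ℕ) : frL k v f = f v := by
  cases v <;> rfl

/-- the ones of `N` fields of 16 bits -/
def ones16 (N : ℕ) : ℕ := Nat.div (Nat.sub (Nat.pow 2 (Nat.mul 16 N)) 1) 65535

/-- bit `16 i` = the class number of lane `i` is at least `j`, for `i < N` -/
def geC (k N c j : ℕ) : ℕ :=
  frN k (ones16 N) fun R => frN k (Nat.mul 32768 R) fun H =>
    Nat.shiftRight (Nat.land (Nat.sub (Nat.lor (Nat.land c (Nat.sub H R)) H) (Nat.mul j R)) H) 15

/-- the index of the lowest set bit (at a multiple of 16) -/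
def idx16 (G : ℕ) : ℕ :=
  Nat.mod (Nat.div (Nat.sub (Nat.xor G (Nat.land G (Nat.sub G 1))) 1) 65535) 65535

/-- the first `b` dense lanes become junk -/
def junkD (b x : ℕ) : ℕ :=
  Nat.lor (Nat.shiftLeft (Nat.shiftRight x (Nat.mul 512 b)) (Nat.mul 512 b))
    (Nat.mul (Nat.sub (Nat.pow 2 508) 1)
      (Nat.div (Nat.sub (Nat.pow 2 (Nat.mul 512 b)) 1) (Nat.sub (Nat.pow 2 512) 1)))

/-- the same in the first chunk of a list -/
def headJ (b : ℕ) (l : List ℕ) : List ℕ :=
  @List.rec ℕ (fun _ => List ℕ) [] (fun x t _ => junkD b x :: t) l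

/-- the suffix of the row `t` from class number `j` on -/
noncomputable def rowJ (clr nl : ℕ → ℕ) (row : ℕ → List ℕ) (j t : ℕ) : List ℕ :=
  frL t (nl t) fun N => frL t (geC (Nat.add j t) N (clr t) j) fun G =>
    @Bool.rec (fun _ => List ℕ)
      (frL t (idx16 G) fun k => frL t (Nat.shiftRight k 6) fun a => headJ (Nat.land k 63)
        (dropN a (row t)))
      [] (Nat.beq G 0)

/-- its number of lanes, with the junk -/
noncomputable def nlJ (clr nl : ℕ → ℕ) (j t : ℕ) : ℕ :=
  frN t (nl t) fun N => frN t (geC (Nat.add j t) N (clr t) j) fun G =>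
    @Bool.rec (fun _ => ℕ) (frN t (idx16 G) fun k => Nat.sub N (Nat.mul 64 (Nat.shiftRight k 6)))
      0 (Nat.beq G 0)

/-! ### the compare -/

theorem ones16_eq (N : ℕ) : ones16 N = rep 16 N := by
  unfold rep
  show (2 ^ (16 * N) - 1) / 65535 = _
  norm_num

theorem geC_eq (k N c j : ℕ) (hj : j ≤ 32768) :
    geC k N c j = pk 16 N (fun i => if j ≤ fld 16 c i % 2 ^ 15 then 1 else 0) := by
  have h16 : (0 : ℕ) < 16 := by norm_num
  unfold geC
  rw [frN_eq, frN_eq, ones16_eq]
  have e1 : Nat.sub (Nat.mul 32768 (rep 16 N)) (rep 16 N) = pk 16 N (fun _ => 32767) := by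
    rw [← mul_rep h16]
    show 32768 * rep 16 N - rep 16 N = 32767 * rep 16 N
    omega
  have e2 : Nat.land c (pk 16 N (fun _ => 32767)) = pk 16 N (fun i => fld 16 c i % 2 ^ 15) := by
    refine Nat.eq_of_testBit_eq fun q => ?_
    show (c &&& pk 16 N (fun _ => 32767)).testBit q = _
    rw [Nat.testBit_and, Pool.Agent.Helper16.TY.testBit_pk h16 (fun i _ => by norm_num),
      Pool.Agent.Helper16.TY.testBit_pk h16 (fun i _ => by
        show fld 16 c i % 2 ^ 15 < 2 ^ 16
        have := Nat.mod_lt (fld 16 c i) (show 0 < 2 ^ 15 by norm_num)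
        omega)]
    have e3 : (32767 : ℕ) = 2 ^ 15 - 1 := by norm_num
    rw [e3, Nat.testBit_two_pow_sub_one, Nat.testBit_mod_two_pow]
    unfold fld
    rw [Nat.testBit_mod_two_pow, Nat.testBit_div_two_pow, Nat.add_comm (q % 16),
      Nat.div_add_mod]
    have h4 : q % 16 < 16 := Nat.mod_lt _ h16
    rw [decide_eq_true h4, Bool.true_and]
    cases c.testBit q <;> cases decide (q < 16 * N) <;> cases decide (q % 16 < 15) <;> rfl
  rw [e1, e2]
  have e4 := geT_pk (W := 16) (N := N) (t := j) (a := fun i => fld 16 c i % 2 ^ 15) h16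
    (by norm_num; exact hj) (fun i _ => Nat.mod_lt _ (by norm_num))
  have e5 : Nat.land (Nat.sub (Nat.lor (pk 16 N (fun i => fld 16 c i % 2 ^ 15))
      (Nat.mul 32768 (rep 16 N))) (Nat.mul j (rep 16 N))) (Nat.mul 32768 (rep 16 N)) =
      geT 16 N j (pk 16 N (fun i => fld 16 c i % 2 ^ 15)) := rfl
  rw [e5, e4]
  show pk 16 N _ >>> 15 = _
  have e6 : pk 16 N (fun i => if j ≤ fld 16 c i % 2 ^ 15 then 2 ^ (16 - 1) else 0) =
      2 ^ 15 * pk 16 N (fun i => if j ≤ fld 16 c i % 2 ^ 15 then 1 else 0) := by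
    rw [mul_pk]
    refine pk_congr fun i _ => ?_
    show (if _ then 2 ^ (16 - 1) else 0) = 2 ^ 15 * (if _ then 1 else 0)
    split_ifs
    · norm_num
    · norm_num
  rw [e6, Nat.shiftRight_eq_div_pow, Nat.mul_div_cancel_left _ (Nat.two_pow_pos 15)]

/-- bit `16 i` of the compare -/
theorem testBit_geC {k N c j i : ℕ} (hj : j ≤ 32768) (hi : i < N)
    (h : j ≤ fld 16 c i) (h15 : fld 16 c i < 32768) : (geC k N c j).testBit (16 * i) = true := by
  rw [geC_eq k N c j hj, Pool.Agent.Helper16.TY.testBit_pk (by norm_num) (fun i _ => by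
    show (if _ then 1 else 0) < 2 ^ 16
    split_ifs <;> norm_num)]
  have e1 : 16 * i / 16 = i := Nat.mul_div_cancel_left i (by norm_num)
  have e2 : 16 * i % 16 = 0 := Nat.mul_mod_right 16 i
  have e3 : fld 16 c i % 2 ^ 15 = fld 16 c i := Nat.mod_eq_of_lt (by norm_num; exact h15)
  rw [e1, e2, e3, if_pos h, decide_eq_true (show 16 * i < 16 * N by omega)]
  rfl

/-- all set bits are at multiples of 16, below `16 N` -/
theorem bit_of_geC {k N c j q : ℕ} (hj : j ≤ 32768) (h : (geC k N c j).testBit q = true) :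
    ∃ i < N, q = 16 * i := by
  rw [geC_eq k N c j hj, Pool.Agent.Helper16.TY.testBit_pk (by norm_num) (fun i _ => by
    show (if _ then 1 else 0) < 2 ^ 16
    split_ifs <;> norm_num), Bool.and_eq_true, decide_eq_true_eq] at h
  obtain ⟨h1, h2⟩ := h
  refine ⟨q / 16, by omega, ?_⟩
  have h3 : q % 16 = 0 := by
    by_contra h4
    have h5 : ∀ b : ℕ, b ≤ 1 → b.testBit (q % 16) = false := by
      intro b hb
      refine Nat.testBit_eq_false_of_lt (lt_of_le_of_lt hb ?_)
      have : 2 ^ 1 ≤ 2 ^ (q % 16) := Nat.pow_le_pow_right (by norm_num) (by omega)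
      omega
    rw [h5 _ (by split_ifs <;> norm_num)] at h2
    exact Bool.false_ne_true h2
  omega

/-- the lowest set bit -/
theorem idx16_le {G N : ℕ} (hG : G ≠ 0) (hN : N < 65535)
    (hbit : ∀ q, G.testBit q = true → ∃ i < N, q = 16 * i) :
    G.testBit (16 * idx16 G) = true ∧ ∀ i, G.testBit (16 * i) = true → idx16 G ≤ i := by
  obtain ⟨t, h1, h2, h3⟩ := Pool.Agent.Helper74.TY.lowbit hG
  obtain ⟨i0, hi0, rfl⟩ := hbit t h1
  have e : idx16 G = i0 := by
    have h4 := Pool.Agent.Helper91.TY.bitIdx_eq (u := 0) (v := 0) (W := 16) (k := i0)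
      (by norm_num; omega)
    unfold idx16
    rw [show Nat.xor G (Nat.land G (Nat.sub G 1)) = 2 ^ (16 * i0) from h2]
    exact h4
  rw [e]
  refine ⟨h1, fun i hi => ?_⟩
  -- minimality
  obtain ⟨s, m, hm, hZ⟩ := Nat.exists_eq_two_pow_mul_odd hG
  obtain ⟨m', rfl⟩ := hm
  have hlow : ∀ q, q < s → G.testBit q = false := by
    intro q hq
    rw [hZ, Nat.testBit_two_pow_mul, decide_eq_false (by omega), Bool.false_and]
  have hs : G.testBit s = true := by
    rw [hZ, Nat.testBit_two_pow_mul, decide_eq_true le_rfl, Bool.true_and, Nat.sub_self,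
      Nat.testBit_zero]
    simp
  have hst : s = 16 * i0 := by
    by_contra hne
    have h4 := h3 s hs hne
    rw [Nat.testBit_and, Bool.and_eq_true] at h4
    have h5 : G - 1 = 2 ^ (s + 1) * m' + (2 ^ s - 1) := by
      have h6 : 0 < 2 ^ s := Nat.two_pow_pos s
      have h7 : G = 2 ^ (s + 1) * m' + 2 ^ s := by
        rw [hZ]
        ring
      omega
    have h6 : (G - 1).testBit s = false := by
      have h7 : 2 ^ s - 1 < 2 ^ (s + 1) := by
        have : 0 < 2 ^ s := Nat.two_pow_pos s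
        rw [pow_succ]
        omega
      rw [h5, Nat.two_pow_add_eq_or_of_lt h7, Nat.testBit_or, Nat.testBit_two_pow_mul,
        decide_eq_false (show ¬ s + 1 ≤ s by omega), Bool.false_and, Bool.false_or,
        Nat.testBit_two_pow_sub_one, decide_eq_false (lt_irrefl s)]
    rw [h6] at h4
    exact Bool.false_ne_true h4.2
  by_contra hlt
  have h8 := hlow (16 * i) (by omega)
  rw [h8] at hi
  exact Bool.false_ne_true hi

/-! ### chunks of dense lanes -/

/-- a chunk of 64 dense lanes -/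
def PdD (X : ℕ) : Prop :=
  X < 2 ^ 32768 ∧ ∀ i < 64, ∀ r, 508 ≤ r → r < 512 → X.testBit (512 * i + r) = false

theorem pdD_of_chkDL {cs : List ℕ} (h : chkDL 32768 cs = true) : ∀ X ∈ cs, PdD X :=
  fun X hX => chkD_sound (chkDL_sound h X hX)

theorem expandC_lt {X : ℕ} (h : PdD X) : expandC X < 2 ^ 131072 := by
  refine Nat.lt_pow_two_of_testBit _ fun q hq => ?_
  rw [← Bool.not_eq_true]
  intro hb
  have e : q = 2048 * (q / 2048) + q % 2048 := (Nat.div_add_mod q 2048).symm
  rw [e, testBit_expandC h.1 h.2 (Nat.mod_lt _ (by norm_num))] at hb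
  have := hb.1
  omega

theorem testBit_shl_shr (x m t : ℕ) : (((x >>> m) <<< m).testBit t) = (decide (m ≤ t) && x.testBit t) := by
  rw [Nat.testBit_shiftLeft, Nat.testBit_shiftRight]
  by_cases h : m ≤ t
  · rw [decide_eq_true (show t ≥ m from h), Nat.add_sub_cancel' h]
  · rw [decide_eq_false (show ¬ t ≥ m from h), Bool.false_and, Bool.false_and]

/-- the junk of `b` lanes -/
theorem junk_eq (b : ℕ) : Nat.mul (Nat.sub (Nat.pow 2 508) 1)
    (Nat.div (Nat.sub (Nat.pow 2 (Nat.mul 512 b)) 1) (Nat.sub (Nat.pow 2 512) 1)) =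
      pk 512 b (fun _ => 2 ^ 508 - 1) := by
  rw [← mul_rep (by norm_num)]
  rfl

theorem testBit_junkD (b x q : ℕ) : (junkD b x).testBit q =
    ((decide (512 * b ≤ q) && x.testBit q) || (decide (q < 512 * b) && decide (q % 512 < 508))) := by
  unfold junkD
  rw [junk_eq]
  show (((x >>> (512 * b)) <<< (512 * b)) ||| pk 512 b (fun _ => 2 ^ 508 - 1)).testBit q = _
  have h1 : ∀ i < b, (fun _ : ℕ => 2 ^ 508 - 1) i < 2 ^ 512 := fun i _ => by
    show 2 ^ 508 - 1 < 2 ^ 512
    have : (2 : ℕ) ^ 508 < 2 ^ 512 := Nat.pow_lt_pow_right (by norm_num) (by norm_num)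
    omega
  rw [Nat.testBit_or, testBit_shl_shr, Pool.Agent.Helper16.TY.testBit_pk (by norm_num) h1,
    Nat.testBit_two_pow_sub_one]

theorem pdD_junkD {b x : ℕ} (hb : b ≤ 64) (h : PdD x) : PdD (junkD b x) := by
  constructor
  · refine Nat.lt_pow_two_of_testBit _ fun q hq => ?_
    rw [testBit_junkD, Nat.testBit_eq_false_of_lt (lt_of_lt_of_le h.1 (Nat.pow_le_pow_right
      (by norm_num) hq)), decide_eq_false (show ¬ q < 512 * b by omega)]
    simp
  · intro i hi r h1 h2
    have e : (512 * i + r) % 512 = r := by omega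
    rw [testBit_junkD, h.2 i hi r h1 h2, e, decide_eq_false (show ¬ r < 508 by omega)]
    simp

theorem fld_junkD {b x i : ℕ} (hi : b ≤ i) : fld 512 (junkD b x) i = fld 512 x i := by
  refine Nat.eq_of_testBit_eq fun q => ?_
  unfold fld
  rw [Nat.testBit_mod_two_pow, Nat.testBit_mod_two_pow, Nat.testBit_div_two_pow,
    Nat.testBit_div_two_pow]
  by_cases hq : q < 512
  · rw [testBit_junkD, decide_eq_true (show 512 * b ≤ q + 512 * i by omega),
      decide_eq_false (show ¬ q + 512 * i < 512 * b by omega), Bool.true_and, Bool.false_and,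
      Bool.or_false]
  · rw [decide_eq_false hq, Bool.false_and, Bool.false_and]

theorem mem_headJ {b : ℕ} {l : List ℕ} {X : ℕ} (h : X ∈ headJ b l) :
    (∃ Y ∈ l, X = junkD b Y) ∨ X ∈ l := by
  cases l with
  | nil => exact absurd h List.not_mem_nil
  | cons Y l =>
    rcases List.mem_cons.1 (show X ∈ junkD b Y :: l from h) with h1 | h1
    · exact Or.inl ⟨Y, List.mem_cons_self, h1⟩
    · exact Or.inr (List.mem_cons_of_mem _ h1)

/-- the lanes from number `b` on are kept -/
theorem headJ_get {b : ℕ} {l : List ℕ} {k X i : ℕ} (hk : l[k]? = some X)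
    (hbi : b ≤ 64 * k + i) :
    ∃ X', (headJ b l)[k]? = some X' ∧ fld 512 X' i = fld 512 X i := by
  cases l with
  | nil =>
    rw [List.getElem?_nil] at hk
    exact absurd hk (by simp)
  | cons Y l =>
    have e : headJ b (Y :: l) = junkD b Y :: l := rfl
    rw [e]
    cases k with
    | zero =>
      rw [List.getElem?_cons_zero, Option.some.injEq] at hk
      subst hk
      exact ⟨_, List.getElem?_cons_zero, fld_junkD (by omega)⟩
    | succ k =>
      rw [List.getElem?_cons_succ] at hk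
      exact ⟨X, by rw [List.getElem?_cons_succ, hk], rfl⟩

/-! ### the law of the suffix -/

/-- the row `t` contains the lane of `F`, with class number at least `j` -/
def DenC (clr nl : ℕ → ℕ) (row : ℕ → List ℕ) (j t : ℕ) (F : Fam) : Prop :=
  ∃ k X i, (row t)[k]? = some X ∧ i < 64 ∧ 64 * k + i < nl t ∧ fld 512 X i = dcode F ∧
    j ≤ fld 16 (clr t) (64 * k + i) ∧ fld 16 (clr t) (64 * k + i) < 32768

theorem mem_rowJ {clr nl : ℕ → ℕ} {row : ℕ → List ℕ} {j t : ℕ}
    (h : ∀ X ∈ row t, PdD X) : ∀ X ∈ rowJ clr nl row j t, PdD X := by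
  intro X hX
  unfold rowJ at hX
  simp only [frL_eq] at hX
  cases hG : Nat.beq (geC (Nat.add j t) (nl t) (clr t) j) 0 with
  | true =>
    rw [hG] at hX
    exact absurd hX List.not_mem_nil
  | false =>
    rw [hG] at hX
    have hX' : X ∈ headJ (Nat.land (idx16 (geC (Nat.add j t) (nl t) (clr t) j)) 63)
      (dropN (Nat.shiftRight (idx16 (geC (Nat.add j t) (nl t) (clr t) j)) 6) (row t)) := hX
    have h63 : Nat.land (idx16 (geC (Nat.add j t) (nl t) (clr t) j)) 63 ≤ 64 := by
      have : Nat.land (idx16 (geC (Nat.add j t) (nl t) (clr t) j)) 63 ≤ 63 := Nat.and_le_right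
      omega
    rw [dropN_eq] at hX'
    rcases mem_headJ hX' with ⟨Y, hY, h1⟩ | h1
    · rw [h1]
      exact pdD_junkD h63 (h Y (List.mem_of_mem_drop hY))
    · exact h X (List.mem_of_mem_drop h1)

/-- **the lanes of class number at least `j` are in the suffix** -/
theorem denN_rowJ {clr nl : ℕ → ℕ} {row : ℕ → List ℕ} {j t : ℕ} (hj : j ≤ 32768)
    (hN : nl t < 65535) {F : Fam} (h : DenC clr nl row j t F) :
    DenN (nlJ clr nl j t) (rowJ clr nl row j t) F := by
  obtain ⟨k, X, i, h1, h2, h3, h4, h5, h6⟩ := h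
  set G := geC (Nat.add j t) (nl t) (clr t) j with hGdef
  have hb : G.testBit (16 * (64 * k + i)) = true := testBit_geC hj h3 h5 h6
  have hG0 : G ≠ 0 := by
    intro h7
    rw [h7, Nat.zero_testBit] at hb
    exact Bool.false_ne_true hb
  obtain ⟨h7, h8⟩ := idx16_le hG0 hN (fun q hq => bit_of_geC hj hq)
  have h9 := h8 _ hb
  set k0 := idx16 G with hk0
  have hbeq : Nat.beq G 0 = false := by
    rw [← Bool.not_eq_true]
    intro h10
    exact hG0 (Nat.eq_of_beq_eq_true h10)
  have e64 : Nat.shiftRight k0 6 = k0 / 64 := by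
    show k0 >>> 6 = k0 / 64
    rw [Nat.shiftRight_eq_div_pow]
  have e1 : rowJ clr nl row j t = headJ (k0 % 64) ((row t).drop (k0 / 64)) := by
    unfold rowJ
    simp only [frL_eq]
    rw [← hGdef, hbeq]
    show headJ (Nat.land k0 63) (dropN (Nat.shiftRight k0 6) (row t)) = _
    have e3 : Nat.land k0 63 = k0 % 64 := by
      show k0 &&& 63 = k0 % 64
      have e : (63 : ℕ) = 2 ^ 6 - 1 := by norm_num
      rw [e, Nat.and_two_pow_sub_one_eq_mod]
    rw [dropN_eq, e3, e64]
  have e2 : nlJ clr nl j t = nl t - 64 * (k0 / 64) := by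
    unfold nlJ
    simp only [frN_eq]
    rw [← hGdef, hbeq]
    show nl t - 64 * Nat.shiftRight k0 6 = _
    rw [e64]
  rw [e1, e2]
  have hk : k0 / 64 ≤ k := by omega
  have h10 : ((row t).drop (k0 / 64))[k - k0 / 64]? = some X := by
    rw [List.getElem?_drop, Nat.add_sub_cancel' hk, h1]
  obtain ⟨X', h11, h12⟩ := headJ_get (b := k0 % 64) (i := i) h10 (by omega)
  exact ⟨k - k0 / 64, X', i, h11, h2, by omega, by rw [h12, h4]⟩

theorem DenN.rowIn' {n : ℕ} {cs : List ℕ} {D : Fam} (h : DenN n cs (Lay D))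
    (hc : ∀ X ∈ cs, PdD X) : RowIn n cs (Lay D) := by
  obtain ⟨k, X, i, h1, h2, h3, h4⟩ := h
  obtain ⟨h5, h6⟩ := hc X (List.mem_of_getElem? h1)
  exact ⟨k, X, i, h1, h2, h3, fld_expandC h5 h6 h2 (fun s hs _ => card_of_mem_lay hs) h4⟩

/-! ### the laws of the rows for the stages E and B1a -/

/-- the table of layered rows with class numbers -/
structure RowsC (reps : List ℕ) (typ nl clr : ℕ → ℕ) (row : ℕ → List ℕ) (NT cap : ℕ) : Prop where
  typ_lt : ∀ t, typ t < 2 ^ 165
  nl_lt : ∀ t, nl t < 65535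
  len : reps.length ≤ 32768
  pd : ∀ t, 2 ≤ t → t < NT → ∀ X ∈ row t, PdD X
  rows : ∀ t, 2 ≤ t → t < NT → ∀ D : Fam, OddFam 3 (below 12) D →
    link D 11 = fam 11 3 (typ t) → 2 * D.card ≤ 114 + cap →
    ∃ k X i, (row t)[k]? = some X ∧ i < 64 ∧ 64 * k + i < nl t ∧ fld 512 X i = dcode (Lay D) ∧
      Cls reps (fld 16 (clr t) (64 * k + i)) D

theorem cls_lt {reps : List ℕ} {k : ℕ} {D : Fam} (h : Cls reps k D) : k < reps.length := by
  obtain ⟨r, hr, -⟩ := h
  exact (List.getElem?_eq_some_iff.1 hr).1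

/-- the class numbers `≥ j` -/
theorem RowsC.suffix {reps : List ℕ} {typ nl clr : ℕ → ℕ} {row : ℕ → List ℕ} {NT cap j : ℕ}
    (h : RowsC reps typ nl clr row NT cap) (hj : j ≤ 32768) {P : Fam → Prop}
    (hP : ∀ D k, P D → Cls reps k D → j ≤ k) :
    RowsOK typ (nlJ clr nl j) (rowJ clr nl row j) NT cap P := by
  refine ⟨h.typ_lt, fun t h1 h2 X hX => expandC_lt (mem_rowJ (h.pd t h1 h2) X hX),
    fun t h1 h2 D h3 h4 h5 h6 => ?_⟩
  obtain ⟨k, X, i, g1, g2, g3, g4, g5⟩ := h.rows t h1 h2 D h3 h4 h5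
  refine DenN.rowIn' (denN_rowJ hj (h.nl_lt t) ⟨k, X, i, g1, g2, g3, g4, hP D _ h6 g5, ?_⟩)
    (mem_rowJ (h.pd t h1 h2))
  exact lt_of_lt_of_le (cls_lt g5) h.len

/-- laws for the types with 21 blocks only -/
structure Rows21 (typ nl : ℕ → ℕ) (row : ℕ → List ℕ) (NT cap : ℕ) (P : Fam → Prop) : Prop where
  typ_lt : ∀ t, typ t < 2 ^ 165
  row_lt : ∀ t, 2 ≤ t → t < NT → ∀ X ∈ row t, expandC X < 2 ^ 131072
  rows : ∀ t, 2 ≤ t → t < NT → (fam 11 3 (typ t)).card = 21 → ∀ D : Fam,
    OddFam 3 (below 12) D → link D 11 = fam 11 3 (typ t) → 2 * D.card ≤ 114 + cap → P D →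
    RowIn (nl t) (row t) (Lay D)

/-- cutting off the types from `N1` on, which have not 21 blocks -/
theorem Rows21.cut {typ nl : ℕ → ℕ} {row : ℕ → List ℕ} {NT cap N1 : ℕ} {P : Fam → Prop}
    (h : RowsOK typ nl row NT cap P)
    (hc : ∀ t, N1 ≤ t → t < NT → (fam 11 3 (typ t)).card ≠ 21) :
    Rows21 typ (fun t => @Bool.rec (fun _ => ℕ) (nl t) 0 (Nat.ble N1 t))
      (fun t => @Bool.rec (fun _ => List ℕ) (row t) [] (Nat.ble N1 t)) NT cap P := by
  refine ⟨h.typ_lt, fun t h1 h2 X hX => ?_, fun t h1 h2 h3 D h4 h5 h6 h7 => ?_⟩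
  · cases hb : Nat.ble N1 t with
    | true =>
      rw [hb] at hX
      exact absurd hX List.not_mem_nil
    | false =>
      rw [hb] at hX
      exact h.row_lt t h1 h2 X hX
  · have hb : Nat.ble N1 t = false := by
      rw [← Bool.not_eq_true]
      intro h8
      exact hc t (Nat.le_of_ble_eq_true h8) h2 h3
    rw [hb]
    exact h.rows t h1 h2 D h4 h5 h6 h7

/-- laws for the two types with 19 blocks -/
structure RowsZ (typz nlz : ℕ → ℕ) (rowz : ℕ → List ℕ) (cap : ℕ) (P : Fam → Prop) : Prop where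
  typ_lt : ∀ t, typz t < 2 ^ 165
  row_lt : ∀ t, t < 2 → ∀ X ∈ rowz t, expandC X < 2 ^ 131072
  rows : ∀ t, t < 2 → ∀ D : Fam, OddFam 3 (below 12) D → link D 11 = fam 11 3 (typz t) →
    2 * D.card ≤ 114 + cap → P D → RowIn (nlz t) (rowz t) (Lay D)

/-- the property of the lane `x` in stage B1a: `mc` = excess of the centre, `red` = the centre is
reduced -/
def PB (mc : ℕ) (red : Bool) (D : Fam) : Prop :=
  (2 * D.card ≤ 114 + mc → Red D 12) ∧ (red = false → 2 * D.card < 114 + mc)

theorem QB.pb {B : Fam} {c y z : Fin 13} (h : QB B c y z) {mc : ℕ} (hmc : MM B c = mc)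
    {red : Bool} (hr : red = false → ¬ Red (link B c) 12) : PB mc red (link B z) := by
  have h1 := size_link h.best.odd z 12
  unfold Size at h1
  refine ⟨fun h2 => red_of_best h.best (h.min_z (by omega)) 12, fun h2 => ?_⟩
  by_contra h3
  exact hr h2 (red_of_best h.best (h.min_c (by omega)) 12)

/-! ### the properties are relabelling invariant -/

theorem inv_red : Inv fun D => Red D 12 := by
  intro σ D h U hU
  have h1 := invA_red σ D 12 h
  exact h1 U hU

theorem inv_PB (mc : ℕ) (red : Bool) : Inv (PB mc red) := by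
  intro σ D h
  refine ⟨fun h1 => inv_red σ D (h.1 ?_), fun h1 => ?_⟩
  · rwa [card_mapF] at h1
  · rw [card_mapF]
    exact h.2 h1

theorem inv_size_ge (m : ℕ) : Inv fun D => m ≤ 2 * D.card := by
  intro σ D h
  show m ≤ 2 * (mapF σ D).card
  rw [card_mapF]
  exact h

theorem inv_low (reps : List ℕ) (j : ℕ) : Inv fun D => ∀ i < j, ¬ Cls reps i D := by
  intro σ D h i hi h1
  rw [cls_mapF] at h1
  exact h i hi h1

/-! ### the class numbers of the suffixes -/

/-- stage E: the class number of the lane is at least `j` -/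
theorem low_le {reps : List ℕ} {j : ℕ} (D : Fam) (k : ℕ) (h : ∀ i < j, ¬ Cls reps i D)
    (hk : Cls reps k D) : j ≤ k := by
  by_contra h1
  exact h k (by omega) hk

/-- stage B1a: the classes before `j0` are smaller than `114 + m` -/
theorem size_le {reps : List ℕ} {j0 m : ℕ}
    (hs : ∀ i r, i < j0 → reps[i]? = some r → 2 * (fam 12 4 r).card < m) (D : Fam) (k : ℕ)
    (h : m ≤ 2 * D.card) (hk : Cls reps k D) : j0 ≤ k := by
  by_contra h1
  obtain ⟨r, hr, σ, hσ⟩ := hk
  have h2 := hs k r (by omega) hr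
  rw [← hσ, card_mapF] at h2
  omega

end Pool.Agent.Helper49.TY
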