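import Mathlib
import Pool.Agent.Helper49.TY.PairE
import Pool.Agent.Helper64.TY.KilXOk

/-!
MP_8ee768_co, project TH-Y', stages E and B1a: the words of helper64's kill test with a refined
exception from the flag words of the three links, and its correctness (`KillOK`) for the covers of a
frame.

All words have 1024 fields of 8 bits. A flag word is `pk 8 1024 s` with `s (2 ^ z) = 1` if `z` is a
neighbour, else `0`; `F` is the sum of the three flag words, `G` the sum of those of `12` and `11`.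
-/

set_option autoImplicit false
set_option exponentiation.threshold 20000

namespace Pool.Agent.Helper49.TY

open Finset
open Pool.Agent.Helper89.CV (OddCover ofMask)
open Pool.Agent.Helper97.CV
open Pool.Agent.Helper79.CV
open Pool.Agent.Helper33.CV
open Pool.Agent.Helper63.SIMD
open Pool.Agent.Helper97.CV.Kill10 (P1 P1_lt onS)
open Pool.Agent.Helper55.TY
open Pool.Agent.Helper64.TY.KilX (CtxX kx kx4)
open Pool.Agent.Helper82.TY (below Best Lay mem_lay_zero mem_lay_eleven)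
open Pool.Agent.Helper52.TY (Fam' LYL LZL)

/-! ### the program -/

/-- 127 on the points -/
def c127 : ℕ := Nat.mul 127 M10.cC8

/-- 6 on the points -/
def c6P : ℕ := Nat.mul 6 M10.cC8

/-- 128 at the points where the flag word is not zero -/
def flH (F : ℕ) : ℕ := Nat.land (Nat.add F c127) M10.cH

/-- stage E: 128 at the points without flag -/
def nE (F : ℕ) : ℕ := Nat.xor M10.cH (flH F)

/-- stage E: the lower bounds, 8 with a flag, else 6 -/
def lE (F : ℕ) : ℕ := Nat.add c6P (Nat.shiftRight (flH F) 6)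

/-- stage B1a: 128 at the points with a flag of `10` only -/
def nB (G F : ℕ) : ℕ := Nat.xor (flH F) (flH G)

/-- stage B1a: the lower bounds, 8 with a flag, else `m` -/
def lB (m F : ℕ) : ℕ :=
  Nat.add (Nat.mul m M10.cC8) (Nat.mul (Nat.sub 8 m) (Nat.shiftRight (flH F) 7))

/-- the kill test of stage E, `m` = excess of `10` -/
def kE (m F : ℕ) : ℕ → Bool :=
  kx (Nat.sub 77 m) (Nat.sub 83 (Nat.mul 2 m)) (Nat.add 45 m) (Nat.shiftRight (nE F) 7) (nE F)
    (Nat.add F M10.cC8) (Nat.sub M10.cH (lE F)) (lE F)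

/-- the kill test of stage B1a, `t` = sum of the three excesses, `m` = excess of `10` -/
def kB (t m G F : ℕ) : ℕ → Bool :=
  kx4 (Nat.sub 89 t) (Nat.sub (Nat.sub 97 t) m) (Nat.add 31 t) (Nat.shiftRight (nB G F) 7) (nB G F)
    (Nat.add F M10.cC8) (Nat.sub M10.cH (lB m F)) (lB m F)

/-- the excess coded in the digits of a lane -/
def mLane (u : ℕ) : ℕ := Nat.add (Nat.mul 2 (Nat.land u 1)) (Nat.mul 4 (Nat.shiftRight u 2047))

/-! ### words -/

theorem rwAdd (a b : ℕ) : Nat.add a b = a + b := rfl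
theorem rwSub (a b : ℕ) : Nat.sub a b = a - b := rfl
theorem rwMul (a b : ℕ) : Nat.mul a b = a * b := rfl
theorem rwAnd (a b : ℕ) : Nat.land a b = a &&& b := rfl
theorem rwXor (a b : ℕ) : Nat.xor a b = a ^^^ b := rfl
theorem rwShr (a b : ℕ) : Nat.shiftRight a b = a >>> b := rfl

theorem cC8_pk : M10.cC8 = pk 8 1024 (onS P1 1) := by
  rw [M10.pk_onS_one fun r hr => P1_lt hr, M10.cC8_eq]

theorem cH_pk : M10.cH = pk 8 1024 (onS P1 128) := by
  rw [Pool.Agent.Helper64.TY.KilX.cH_eq]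
  unfold Pool.Agent.Helper97.CV.Kill10.kH
  rw [Pool.Agent.Helper64.TY.KilX.k1]

theorem c127_pk : c127 = pk 8 1024 (onS P1 127) := by
  unfold c127
  rw [rwMul, cC8_pk, mul_pk]
  refine pk_congr fun r _ => ?_
  unfold onS
  split_ifs <;> simp

theorem land_pow {x : ℕ} (hx : x < 256) : x &&& 128 = if 128 ≤ x then 128 else 0 := by
  have h : ∀ x < 256, x &&& 128 = if 128 ≤ x then 128 else 0 := by decide +kernel
  exact h x hx

/-- the points with a flag -/
def FS (s : ℕ → ℕ) : Finset ℕ := P1.filter fun r => 1 ≤ s r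

theorem mem_FS {s : ℕ → ℕ} {r : ℕ} : r ∈ FS s ↔ r ∈ P1 ∧ 1 ≤ s r := mem_filter

theorem flH_eq {s : ℕ → ℕ} (hs : ∀ r, s r ≤ 3) :
    flH (pk 8 1024 s) = pk 8 1024 (onS (FS s) 128) := by
  unfold flH
  rw [rwAdd, rwAnd, c127_pk, cH_pk, pk_add, pk_land]
  · refine pk_congr fun r _ => ?_
    unfold onS
    by_cases hr : r ∈ P1
    · simp only [if_pos hr]
      have h1 := hs r
      rw [land_pow (by omega)]
      by_cases h2 : 1 ≤ s r
      · rw [if_pos (by omega), if_pos (mem_FS.2 ⟨hr, h2⟩)]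
      · rw [if_neg (by omega), if_neg fun h3 => h2 (mem_FS.1 h3).2]
    · simp only [if_neg hr, Nat.and_zero]
      rw [if_neg fun h3 => hr (mem_FS.1 h3).1]
  · intro r _
    have h1 := hs r
    show s r + onS P1 127 r < 2 ^ 8
    unfold onS
    split_ifs <;> omega
  · intro r _
    unfold onS
    split_ifs <;> norm_num

theorem shr_onS {S : Finset ℕ} {a b : ℕ} (hab : 2 ^ a * b = 128) :
    pk 8 1024 (onS S 128) >>> a = pk 8 1024 (onS S b) := by
  have e : pk 8 1024 (onS S 128) = 2 ^ a * pk 8 1024 (onS S b) := by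
    rw [mul_pk]
    refine pk_congr fun r _ => ?_
    unfold onS
    split_ifs
    · exact hab.symm
    · rfl
  rw [e, Nat.shiftRight_eq_div_pow, Nat.mul_div_cancel_left _ (Nat.two_pow_pos a)]

/-- `HN` is a mask of a set of points `N` -/
theorem xor_onS {S T : Finset ℕ} (h : S ⊆ T) :
    pk 8 1024 (onS T 128) ^^^ pk 8 1024 (onS S 128) = pk 8 1024 (onS (T \ S) 128) := by
  rw [pk_xor]
  · refine pk_congr fun r _ => ?_
    unfold onS
    by_cases h1 : r ∈ T
    · by_cases h2 : r ∈ S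
      · rw [if_pos h1, if_pos h2, if_neg fun h3 => (mem_sdiff.1 h3).2 h2, Nat.xor_self]
      · rw [if_pos h1, if_neg h2, if_pos (mem_sdiff.2 ⟨h1, h2⟩), Nat.xor_zero]
    · rw [if_neg h1, if_neg fun h2 => h1 (h h2), if_neg fun h3 => h1 (mem_sdiff.1 h3).1,
        Nat.xor_self]
  · intro r _
    unfold onS
    split_ifs <;> norm_num
  · intro r _
    unfold onS
    split_ifs <;> norm_num

/-- the lower bounds of stage E -/
def lEf (s : ℕ → ℕ) (r : ℕ) : ℕ := if r ∈ P1 then (if 1 ≤ s r then 8 else 6) else 0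

/-- the lower bounds of stage B1a -/
def lBf (m : ℕ) (s : ℕ → ℕ) (r : ℕ) : ℕ := if r ∈ P1 then (if 1 ≤ s r then 8 else m) else 0

theorem lE_eq {s : ℕ → ℕ} (hs : ∀ r, s r ≤ 3) (hs0 : ∀ r, r ∉ P1 → s r = 0) :
    lE (pk 8 1024 s) = pk 8 1024 (lEf s) := by
  unfold lE c6P
  rw [rwAdd, rwMul, rwShr, flH_eq hs, shr_onS (a := 6) (b := 2) (by norm_num), cC8_pk, mul_pk, pk_add]
  refine pk_congr fun r _ => ?_
  unfold onS lEf
  by_cases hr : r ∈ P1
  · by_cases h2 : 1 ≤ s r
    · simp [hr, h2, mem_FS]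
    · simp [hr, h2, mem_FS]
  · simp [hr, mem_FS]

theorem lB_eq {m : ℕ} (hm : m ≤ 8) {s : ℕ → ℕ} (hs : ∀ r, s r ≤ 3)
    (hs0 : ∀ r, r ∉ P1 → s r = 0) : lB m (pk 8 1024 s) = pk 8 1024 (lBf m s) := by
  unfold lB
  rw [rwAdd, rwMul, rwMul, rwSub, rwShr, flH_eq hs, shr_onS (a := 7) (b := 1) (by norm_num), cC8_pk, mul_pk, mul_pk, pk_add]
  refine pk_congr fun r _ => ?_
  unfold onS lBf
  by_cases hr : r ∈ P1
  · by_cases h2 : 1 ≤ s r
    · simp only [hr, if_true, h2, mem_FS, and_self, mul_one]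
      omega
    · simp [hr, h2, mem_FS]
  · simp [hr, mem_FS]

theorem sub_cH {l : ℕ → ℕ} (hl : ∀ r, l r ≤ 128) (hl0 : ∀ r, r ∉ P1 → l r = 0) :
    Nat.sub M10.cH (pk 8 1024 l) = pk 8 1024 (fun r => onS P1 128 r - l r) := by
  rw [rwSub, cH_pk, pk_sub]
  intro r _
  unfold onS
  split_ifs with h
  · exact hl r
  · rw [hl0 r h]

theorem add_cC8 {s : ℕ → ℕ} :
    Nat.add (pk 8 1024 s) M10.cC8 = pk 8 1024 (fun r => s r + onS P1 1 r) := by
  rw [rwAdd, cC8_pk, pk_add]

/-! ### the flags of a cover -/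

/-- `s` counts the neighbours among `12, 11, 10` -/
structure Flg (B : Fam') (s : ℕ → ℕ) : Prop where
  off : ∀ r, r ∉ P1 → s r = 0
  eq : ∀ z : Fin 13, z.val < 10 → s (2 ^ z.val) = (if 1 ≤ mm B 12 z then 1 else 0) +
    (if 1 ≤ mm B 11 z then 1 else 0) + (if 1 ≤ mm B 10 z then 1 else 0)

/-- `s` counts the neighbours among `12, 11` -/
structure Flg2 (B : Fam') (s : ℕ → ℕ) : Prop where
  off : ∀ r, r ∉ P1 → s r = 0
  eq : ∀ z : Fin 13, z.val < 10 → s (2 ^ z.val) = (if 1 ≤ mm B 12 z then 1 else 0) +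
    (if 1 ≤ mm B 11 z then 1 else 0)

theorem mem_P1 {z : Fin 13} (hz : z.val < 10) : 2 ^ z.val ∈ P1 := by
  have h : ∀ z : Fin 13, z.val < 10 → 2 ^ z.val ∈ P1 := by decide +kernel
  exact h z hz

theorem eq_of_mem_P1 {r : ℕ} (h : r ∈ P1) : ∃ z : Fin 13, z.val < 10 ∧ r = 2 ^ z.val := by
  have h1 : ∀ r ∈ P1, ∃ z : Fin 13, z.val < 10 ∧ r = 2 ^ z.val := by decide +kernel
  exact h1 r h

theorem Flg.le {B : Fam'} {s : ℕ → ℕ} (h : Flg B s) (r : ℕ) : s r ≤ 3 := by
  by_cases hr : r ∈ P1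
  · obtain ⟨z, hz, rfl⟩ := eq_of_mem_P1 hr
    rw [h.eq z hz]
    split_ifs <;> norm_num
  · rw [h.off r hr]
    norm_num

theorem Flg2.le {B : Fam'} {s : ℕ → ℕ} (h : Flg2 B s) (r : ℕ) : s r ≤ 3 := by
  by_cases hr : r ∈ P1
  · obtain ⟨z, hz, rfl⟩ := eq_of_mem_P1 hr
    rw [h.eq z hz]
    split_ifs <;> norm_num
  · rw [h.off r hr]
    norm_num

theorem Flg.nbr {B : Fam'} {s : ℕ → ℕ} (h : Flg B s) {z : Fin 13} (hz : z.val < 10) :
    1 ≤ s (2 ^ z.val) ↔ Nbr B z := by
  rw [h.eq z hz]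
  unfold Nbr
  by_cases h1 : 1 ≤ mm B 12 z <;> by_cases h2 : 1 ≤ mm B 11 z <;> by_cases h3 : 1 ≤ mm B 10 z <;>
    simp [h1, h2, h3]

theorem Flg2.nbr {B : Fam'} {s : ℕ → ℕ} (h : Flg2 B s) {z : Fin 13} (hz : z.val < 10) :
    1 ≤ s (2 ^ z.val) ↔ (1 ≤ mm B 12 z ∨ 1 ≤ mm B 11 z) := by
  rw [h.eq z hz]
  by_cases h1 : 1 ≤ mm B 12 z <;> by_cases h2 : 1 ≤ mm B 11 z <;> simp [h1, h2]

theorem Flg.offA {B : Fam'} {s : ℕ → ℕ} (h : Flg B s) (z : Fin 13) (hz : z.val < 10) :
    s (2 ^ z.val) + onS P1 1 (2 ^ z.val) ≤ mm B z 10 + mm B z 11 + mm B z 12 + 1 := by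
  rw [h.eq z hz, mm_comm B z 10, mm_comm B z 11, mm_comm B z 12]
  unfold onS
  rw [if_pos (mem_P1 hz)]
  split_ifs <;> omega

/-! ### the kill tests are sound -/

/-- **stage E** -/
theorem kE_ok {reps : List ℕ} {j : ℕ} {B : Fam'} (h : QE reps j B 12 11 10) {s : ℕ → ℕ}
    (hs : Flg B s) {m : ℕ} (hm : MM B 10 = m) : M10.KillOK (kE m (pk 8 1024 s)) B := by
  have hm2 : m ≤ 2 := by
    rw [← hm]
    exact h.hx
  have hN : nE (pk 8 1024 s) = pk 8 1024 (onS (P1 \ FS s) 128) := by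
    unfold nE
    rw [rwXor, flH_eq hs.le, cH_pk,
      xor_onS (show FS s ⊆ P1 from filter_subset _ _)]
  have hctx : CtxX B (fun r => s r + onS P1 1 r) (lEf s) (P1 \ FS s) 6 m (77 - m) (83 - 2 * m)
      (45 + m) := by
    refine ⟨h.best.odd, h.best.le, sdiff_subset, ?_, ?_, ?_, hs.offA, ?_, ?_, ?_, ?_, ?_⟩
    · intro r
      have h1 := hs.le r
      show s r + onS P1 1 r ≤ 87
      unfold onS
      split_ifs <;> omega
    · intro r
      unfold lEf
      split_ifs <;> norm_num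
    · intro r hr
      unfold lEf
      rw [if_neg hr]
    · have h1 := h.lowX (l := lEf s) (N := P1 \ FS s) ?_ ?_
      · rw [hm] at h1
        exact h1
      · intro z hz
        unfold lEf
        rw [if_pos (mem_P1 hz)]
        by_cases h2 : 1 ≤ s (2 ^ z.val)
        · rw [if_pos h2]
          exact Or.inr ⟨le_rfl, (hs.nbr hz).1 h2⟩
        · rw [if_neg h2]
          exact Or.inl le_rfl
      · intro z hz hn
        rw [mem_sdiff]
        refine ⟨mem_P1 hz, fun h2 => hn ((hs.nbr hz).1 (mem_FS.1 h2).2)⟩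
    · have h1 := h.hc
      have h2 := h.hy
      omega
    · omega
    · omega
    · omega
  have h1 := hctx.kx_ok
  unfold kE
  rw [hN, lE_eq hs.le hs.off, sub_cH (fun r => by
    unfold lEf
    split_ifs <;> norm_num) (fun r hr => by
    unfold lEf
    rw [if_neg hr]), add_cC8]
  have e1 : Nat.shiftRight (pk 8 1024 (onS (P1 \ FS s) 128)) 7 =
      pk 8 1024 (onS (P1 \ FS s) 1) := by
    rw [rwShr]
    exact shr_onS (by norm_num)
  rw [e1, rwSub, rwSub, rwMul, rwAdd]
  exact h1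

/-- **stage B1a** -/
theorem kB_ok {B : Fam'} (h : QB B 12 11 10) {s s2 : ℕ → ℕ} (hs : Flg B s) (hs2 : Flg2 B s2)
    {t m : ℕ} (hm : MM B 10 = m) (ht : MM B 10 + MM B 11 + MM B 12 = t) :
    M10.KillOK (kB t m (pk 8 1024 s2) (pk 8 1024 s)) B := by
  have hm4 : m ≤ 4 := by
    rw [← hm]
    exact h.hz
  have ht14 : t ≤ 14 := by
    have h1 := h.hc
    have h2 := h.hy
    have h3 := h.hz
    omega
  have hsub : FS s2 ⊆ FS s := by
    intro r hr
    obtain ⟨h1, h2⟩ := mem_FS.1 hr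
    obtain ⟨z, hz, rfl⟩ := eq_of_mem_P1 h1
    refine mem_FS.2 ⟨h1, (hs.nbr hz).2 ?_⟩
    rcases (hs2.nbr hz).1 h2 with h3 | h3
    · exact Or.inl h3
    · exact Or.inr (Or.inl h3)
  have hN : nB (pk 8 1024 s2) (pk 8 1024 s) = pk 8 1024 (onS (FS s \ FS s2) 128) := by
    unfold nB
    rw [rwXor, flH_eq hs.le, flH_eq hs2.le, xor_onS hsub]
  have hctx : CtxX B (fun r => s r + onS P1 1 r) (lBf m s) (FS s \ FS s2) 8 m (89 - t)
      (97 - t - m) (31 + t) := by
    refine ⟨h.best.odd, h.best.le, sdiff_subset.trans (filter_subset _ _), ?_, ?_, ?_, hs.offA,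
      ?_, ?_, ?_, ?_, ?_⟩
    · intro r
      have h1 := hs.le r
      show s r + onS P1 1 r ≤ 87
      unfold onS
      split_ifs <;> omega
    · intro r
      unfold lBf
      split_ifs <;> omega
    · intro r hr
      unfold lBf
      rw [if_neg hr]
    · have h1 := h.lowX (l := lBf m s) (N := FS s \ FS s2) ?_
      · rw [hm] at h1
        exact h1
      · intro z hz
        unfold lBf
        rw [if_pos (mem_P1 hz), hm]
        by_cases h2 : 1 ≤ s (2 ^ z.val)
        · rw [if_pos h2]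
          by_cases h3 : 1 ≤ s2 (2 ^ z.val)
          · exact Or.inr (Or.inl ⟨le_rfl, (hs2.nbr hz).1 h3⟩)
          · refine Or.inr (Or.inr ⟨le_rfl, ?_, ?_⟩)
            · rcases (hs.nbr hz).1 h2 with h4 | h4 | h4
              · exact absurd ((hs2.nbr hz).2 (Or.inl h4)) h3
              · exact absurd ((hs2.nbr hz).2 (Or.inr h4)) h3
              · exact h4
            · rw [mem_sdiff, mem_FS, mem_FS]
              exact ⟨⟨mem_P1 hz, h2⟩, fun h4 => h3 h4.2⟩
        · rw [if_neg h2]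
          exact Or.inl le_rfl
    · omega
    · omega
    · omega
    · omega
  have h1 := hctx.kx4_ok
  unfold kB
  rw [hN, lB_eq (by omega) hs.le hs.off, sub_cH (fun r => by
    unfold lBf
    split_ifs <;> omega) (fun r hr => by
    unfold lBf
    rw [if_neg hr]), add_cC8]
  have e1 : Nat.shiftRight (pk 8 1024 (onS (FS s \ FS s2) 128)) 7 =
      pk 8 1024 (onS (FS s \ FS s2) 1) := by
    rw [rwShr]
    exact shr_onS (by norm_num)
  rw [e1, rwSub, rwSub, rwSub, rwAdd]
  exact h1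

/-! ### the excess of a lane -/

theorem mLane_lay {D : Fam'} {M : ℕ} (hD : 2 * D.card = 114 + M) (hM : M ≤ 6) :
    mLane (cub 11 (Lay D)) = M := by
  have h0 : (cub 11 (Lay D)).testBit 0 = decide ((D.card + 7) % 2 = 1) := by
    rw [testBit_cub _ (by norm_num), decide_eq_decide]
    refine mem_lay_zero ?_
    decide
  have h2047 : (cub 11 (Lay D)).testBit 2047 = decide ((D.card + 7) / 2 % 2 = 1) := by
    rw [testBit_cub _ (by norm_num), decide_eq_decide]
    have h1 : Pool.Agent.Helper79.CV.mk (ofMask 2047) < 2048 := by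
      rw [mk_ofMask (by norm_num)]
      norm_num
    have h2 : (ofMask 2047).card = 11 := by decide +kernel
    rw [mem_lay_eleven h2]
    exact and_iff_right h1
  have hlt : cub 11 (Lay D) < 2 ^ 2048 := cub_lt 11 _
  have e1 : Nat.land (cub 11 (Lay D)) 1 = if (D.card + 7) % 2 = 1 then 1 else 0 := by
    show cub 11 (Lay D) &&& 1 = _
    rw [Nat.and_one_is_mod]
    rw [Nat.testBit_zero] at h0
    have h3 := Nat.mod_two_eq_zero_or_one (cub 11 (Lay D))
    by_cases h4 : (D.card + 7) % 2 = 1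
    · rw [if_pos h4]
      rw [decide_eq_true h4, decide_eq_true_eq] at h0
      exact h0
    · rw [if_neg h4]
      rw [decide_eq_false h4, decide_eq_false_iff_not] at h0
      omega
  have e2 : Nat.shiftRight (cub 11 (Lay D)) 2047 =
      if (D.card + 7) / 2 % 2 = 1 then 1 else 0 := by
    show cub 11 (Lay D) >>> 2047 = _
    have h3 : cub 11 (Lay D) >>> 2047 < 2 := by
      rw [Nat.shiftRight_eq_div_pow]
      refine Nat.div_lt_of_lt_mul ?_
      calc cub 11 (Lay D) < 2 ^ 2048 := hlt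
        _ = 2 ^ 2047 * 2 := by rw [← pow_succ]
    have h4 : (cub 11 (Lay D) >>> 2047).testBit 0 = decide ((D.card + 7) / 2 % 2 = 1) := by
      rw [Nat.testBit_shiftRight, Nat.add_zero, h2047]
    rw [Nat.testBit_zero] at h4
    by_cases h5 : (D.card + 7) / 2 % 2 = 1
    · rw [if_pos h5]
      rw [decide_eq_true h5, decide_eq_true_eq] at h4
      omega
    · rw [if_neg h5]
      rw [decide_eq_false h5, decide_eq_false_iff_not] at h4
      omega
  unfold mLane
  show 2 * Nat.land (cub 11 (Lay D)) 1 + 4 * Nat.shiftRight (cub 11 (Lay D)) 2047 = M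
  rw [e1, e2]
  split_ifs <;> omega

theorem card_moved' {B : Fam'} (σ : Equiv.Perm (Fin 13)) (y : Fin 13) :
    (moved σ B y).card = (link B y).card := by
  unfold moved
  rw [card_mapF]

/-- the excess of the lane of `11` -/
theorem mLane_LYL {B : Fam'} (hB : OddCover B) (h : MM B 11 ≤ 6) :
    mLane (cub 11 (LYL B)) = MM B 11 := by
  unfold LYL
  refine mLane_lay ?_ h
  rw [card_moved']
  exact two_mul_card_link hB 11

/-- the excess of the lane of `10` -/
theorem mLane_LZL {B : Fam'} (hB : OddCover B) (h : MM B 10 ≤ 6) :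
    mLane (cub 11 (LZL B)) = MM B 10 := by
  unfold LZL
  refine mLane_lay ?_ h
  rw [card_moved']
  exact two_mul_card_link hB 10

end Pool.Agent.Helper49.TY
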