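import Mathlib
import Pool.Agent.Helper49.TY.ExcW
import Pool.Agent.Helper52.TY.CbLawA

/-!
MP_8ee768_co, project TH-Y', stages E and B1a: the flag words of a match (the words of the points in
helper52's match words count the neighbours among `12, 11, 10`).
-/

set_option autoImplicit false
set_option exponentiation.threshold 20000

namespace Pool.Agent.Helper49.TY

open Finset
open Pool.Agent.Helper89.CV (OddCover ofMask)
open Pool.Agent.Helper97.CV
open Pool.Agent.Helper79.CV
open Pool.Agent.Helper33.CV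
open Pool.Agent.Helper63.SIMD
open Pool.Agent.Helper97.CV.Kill10 (P1 P1_lt onS)
open Pool.Agent.Helper55.TY
open Pool.Agent.Helper52.TY (Fam' LYL LZL LayC IsRoot LYL_one LZL_one fld_one)
open Pool.Agent.Helper52.TY.CbA (w1 w4 cT c13 maj lowW highW roota rootb rootf offw SA SB)
open Pool.Agent.Helper59.TY (spd spd_eq p3)

/-! ### masks -/

theorem bit_w1 {r : ℕ} (hr : r < 1024) : w1.testBit r = decide (r ∈ P1) := by
  have h : ∀ r < 1024, w1.testBit r = decide (r ∈ P1) := by decide +kernel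
  exact h r hr

theorem w1_lt : w1 < 2 ^ 1024 := by decide +kernel
theorem w4_lt : w4 < 2 ^ 1024 := by decide +kernel
theorem p3_lt : p3 < 2 ^ 1024 := by decide +kernel

theorem bit_w4 {r : ℕ} (hr : r ∈ P1) : w4.testBit r = false := by
  have h : ∀ r ∈ P1, w4.testBit r = false := by decide +kernel
  exact h r hr

theorem bit_p3 {r : ℕ} (hr : r ∈ P1) : p3.testBit r = false := by
  have h : ∀ r ∈ P1, p3.testBit r = false := by decide +kernel
  exact h r hr

/-- 3 on the points, as a word -/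
theorem c13_eq : c13 = Nat.mul 3 M10.cC8 := by decide +kernel

theorem c13_pk : c13 = pk 8 1024 (onS P1 3) := by
  rw [c13_eq, rwMul, cC8_pk, mul_pk]
  refine pk_congr fun r _ => ?_
  unfold onS
  split_ifs <;> simp

/-- the bits of a word at the points -/
def bP (a r : ℕ) : ℕ := if r ∈ P1 then (a.testBit r).toNat else 0

theorem bP_le (a r : ℕ) : bP a r ≤ 1 := by
  unfold bP
  split_ifs
  · exact Bool.toNat_le _
  · norm_num

/-! ### the words -/

theorem spd_w1 (a : ℕ) : spd (a &&& w1) = pk 8 1024 (bP a) := by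
  rw [spd_eq (lt_of_le_of_lt Nat.and_le_right w1_lt)]
  refine pk_congr fun r hr => ?_
  rw [fld_one, Nat.testBit_and, bit_w1 hr]
  unfold bP
  by_cases h : r ∈ P1 <;> simp [h]

theorem roota_pk (R : ℕ) : roota R = pk 8 1024 (fun r => onS P1 1 r + bP R r) := by
  unfold roota
  rw [spd_w1, cC8_pk, pk_add]

theorem lowW_lt (J u v : ℕ) : lowW J u v < 2 ^ 1024 := by
  unfold lowW
  show ((((u ^^^ v) ^^^ J) &&& w4) ||| (u &&& w1)) ||| ((u >>> 1024) &&& p3) < 2 ^ 1024
  refine Nat.or_lt_two_pow (Nat.or_lt_two_pow ?_ ?_) ?_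
  · exact lt_of_le_of_lt Nat.and_le_right w4_lt
  · exact lt_of_le_of_lt Nat.and_le_right w1_lt
  · exact lt_of_le_of_lt Nat.and_le_right p3_lt

theorem highW_lt (J v : ℕ) : highW J v < 2 ^ 1024 := by
  unfold highW
  show (J &&& w4) ||| (v &&& w1) < 2 ^ 1024
  refine Nat.or_lt_two_pow ?_ ?_
  · exact lt_of_le_of_lt Nat.and_le_right w4_lt
  · exact lt_of_le_of_lt Nat.and_le_right w1_lt

theorem bit_lowW {J u v r : ℕ} (hr : r ∈ P1) : (lowW J u v).testBit r = u.testBit r := by
  have h1 : lowW J u v = ((((u ^^^ v) ^^^ J) &&& w4) ||| (u &&& w1)) |||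
      ((u >>> 1024) &&& p3) := rfl
  rw [h1, Nat.testBit_or, Nat.testBit_or, Nat.testBit_and, Nat.testBit_and, Nat.testBit_and,
    bit_w4 hr, bit_p3 hr, bit_w1 (P1_lt hr), decide_eq_true hr]
  simp

theorem bit_highW {J v r : ℕ} (hr : r ∈ P1) : (highW J v).testBit r = v.testBit r := by
  have h1 : highW J v = (J &&& w4) ||| (v &&& w1) := rfl
  rw [h1, Nat.testBit_or, Nat.testBit_and, Nat.testBit_and, bit_w4 hr, bit_w1 (P1_lt hr),
    decide_eq_true hr]
  simp

theorem land_3 {x : ℕ} (hx : x ≤ 2) : x &&& 3 = x := by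
  interval_cases x <;> rfl

theorem land_1 {x : ℕ} (hx : x ≤ 1) : x &&& 1 = x := by
  interval_cases x <;> rfl

theorem SA_pk (x u v : ℕ) : SA x u v = pk 8 1024 (fld 1 (lowW (maj x u v) u v)) :=
  spd_eq (lowW_lt _ _ _)

theorem SB_pk (x u v : ℕ) : SB x u v = pk 8 1024 (fld 1 (highW (maj x u v) v)) :=
  spd_eq (highW_lt _ _)

/-- the offset word of a match -/
theorem offw_pk (x u v : ℕ) : offw x u v = pk 8 1024 (fun r => bP u r + bP v r) := by
  unfold offw
  rw [SA_pk, SB_pk, c13_pk, pk_add, pk_land]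
  · refine pk_congr fun r hr => ?_
    rw [fld_one, fld_one]
    unfold onS bP
    by_cases h : r ∈ P1
    · rw [if_pos h, if_pos h, if_pos h, bit_lowW h, bit_highW h]
      have h1 := Bool.toNat_le (u.testBit r)
      have h2 := Bool.toNat_le (v.testBit r)
      exact land_3 (by omega)
    · rw [if_neg h, if_neg h, if_neg h, Nat.and_zero]
  · intro r _
    show fld 1 (lowW (maj x u v) u v) r + fld 1 (highW (maj x u v) v) r < 2 ^ 8
    rw [fld_one, fld_one]
    have h1 := Bool.toNat_le ((lowW (maj x u v) u v).testBit r)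
    have h2 := Bool.toNat_le ((highW (maj x u v) v).testBit r)
    omega
  · intro r _
    unfold onS
    split_ifs <;> norm_num

/-- the part of the lane of `11` in the offset word -/
theorem offA_pk (x u v : ℕ) : SA x u v &&& M10.cC8 = pk 8 1024 (bP u) := by
  rw [SA_pk, cC8_pk, pk_land]
  · refine pk_congr fun r hr => ?_
    rw [fld_one]
    unfold onS bP
    by_cases h : r ∈ P1
    · rw [if_pos h, if_pos h, bit_lowW h]
      exact land_1 (Bool.toNat_le _)
    · rw [if_neg h, if_neg h, Nat.and_zero]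
  · intro r _
    rw [fld_one]
    have h1 := Bool.toNat_le ((lowW (maj x u v) u v).testBit r)
    omega
  · intro r _
    unfold onS
    split_ifs <;> norm_num

/-! ### the flags -/

/-- neighbours of `12`, `11`, `10` -/
def fl3 (R u v r : ℕ) : ℕ := bP R r + bP u r + bP v r

/-- neighbours of `12`, `11` -/
def fl2 (R u r : ℕ) : ℕ := bP R r + bP u r

theorem wordA_pk (R x u v : ℕ) : roota R + offw x u v =
    pk 8 1024 (fun r => fl3 R u v r + onS P1 1 r) := by
  rw [roota_pk, offw_pk, pk_add]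
  refine pk_congr fun r _ => ?_
  unfold fl3
  ring

theorem wordG_pk (R x u v : ℕ) : roota R + (SA x u v &&& M10.cC8) =
    pk 8 1024 (fun r => fl2 R u r + onS P1 1 r) := by
  rw [roota_pk, offA_pk, pk_add]
  refine pk_congr fun r _ => ?_
  unfold fl2
  ring

theorem bP_off {a r : ℕ} (h : r ∉ P1) : bP a r = 0 := if_neg h

theorem toNat_ite {b : Bool} {P : Prop} [Decidable P] (h : b = true ↔ P) :
    b.toNat = if P then 1 else 0 := by
  by_cases hP : P
  · rw [if_pos hP, h.2 hP]
    rfl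
  · rw [if_neg hP]
    cases b with
    | false => rfl
    | true => exact absurd (h.1 rfl) hP

theorem bP_root {B : Fam'} (hB : OddCover B) {R : ℕ} (hR : IsRoot B R) {z : Fin 13}
    (hz : z.val < 10) : bP R (2 ^ z.val) = if 1 ≤ mm B 12 z then 1 else 0 := by
  unfold bP
  rw [if_pos (mem_P1 hz)]
  exact toNat_ite (hR.one hB hz)

theorem bP_LYL {B : Fam'} (hB : OddCover B) {u : ℕ} (hu : cub 11 (LYL B) = u) {z : Fin 13}
    (hz : z.val < 10) : bP u (2 ^ z.val) = if 1 ≤ mm B 11 z then 1 else 0 := by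
  unfold bP
  rw [if_pos (mem_P1 hz), ← hu]
  exact toNat_ite (LYL_one hB hz)

theorem bP_LZL {B : Fam'} (hB : OddCover B) {v : ℕ} (hv : cub 11 (LZL B) = v) {z : Fin 13}
    (hz : z.val < 10) : bP v (2 ^ z.val) = if 1 ≤ mm B 10 z then 1 else 0 := by
  unfold bP
  rw [if_pos (mem_P1 hz), ← hv]
  exact toNat_ite (LZL_one hB hz)

theorem flg_words {B : Fam'} (hB : OddCover B) {R u v : ℕ} (hR : IsRoot B R)
    (hu : cub 11 (LYL B) = u) (hv : cub 11 (LZL B) = v) : Flg B (fl3 R u v) := by
  refine ⟨fun r hr => ?_, fun z hz => ?_⟩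
  · unfold fl3
    rw [bP_off hr, bP_off hr, bP_off hr]
  · unfold fl3
    rw [bP_root hB hR hz, bP_LYL hB hu hz, bP_LZL hB hv hz]

theorem flg2_words {B : Fam'} (hB : OddCover B) {R u : ℕ} (hR : IsRoot B R)
    (hu : cub 11 (LYL B) = u) : Flg2 B (fl2 R u) := by
  refine ⟨fun r hr => ?_, fun z hz => ?_⟩
  · unfold fl2
    rw [bP_off hr, bP_off hr]
  · unfold fl2
    rw [bP_root hB hR hz, bP_LYL hB hu hz]

end Pool.Agent.Helper49.TY
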