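import Mathlib
import Pool.Agent.Helper49.TY.FlagE
import Pool.Agent.Helper49.TY.FastW
import Pool.Agent.Helper97.CV.KxR
import Pool.Agent.Helper9.TY.CentreE
import Pool.Agent.Helper52.TY.WordLawA

/-!
MP_8ee768_co, project TH-Y', stages E and B1a: the callbacks `cbE`, `cbB` and their soundness
(`cbE_law`, `cbB_law`) from the bits of the words of a match (`bits_of_lanes` of helper52).

A match is tested in two steps: first `kilR` with the threshold of the exceptional point (a weaker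
test, one product), then helper64's test with refined exception.
-/

set_option autoImplicit false
set_option exponentiation.threshold 20000

namespace Pool.Agent.Helper49.TY

open Finset
open Pool.Agent.Helper89.CV (OddCover ofMask)
open Pool.Agent.Helper97.CV
open Pool.Agent.Helper79.CV
open Pool.Agent.Helper33.CV
open Pool.Agent.Helper63.SIMD
open Pool.Agent.Helper63.TY (Cb Acc Agree)
open Pool.Agent.Helper97.CV.Kill10 (P1 P1_lt onS)
open Pool.Agent.Helper97.CV.KilR (kilR resR resR_eq resRunR)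
open Pool.Agent.Helper97.CV.KxR (kxR kxR_eq CtxR rowRun reluRun)
open Pool.Agent.Helper55.TY
open Pool.Agent.Helper55.TY.M10 (mcb Start acc_mcb)
open Pool.Agent.Helper38.TY (frS frS_eq ite0 ite0_false ite0_true)
open Pool.Agent.Helper64.TY.KilX (kx kx4)
open Pool.Agent.Helper52.TY (Fam' LYL LZL LayC IsRoot LaneDeadL eqU eqU_of_agree layC_mapF)
open Pool.Agent.Helper52.TY.CbA (bits_of_lanes rootb)
open Pool.Agent.Helper49.FW (dU dW fD rootD rootD_eq rootX rootF dgt dgt_P dgt_le dU_eq dW_eq)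
open Pool.Agent.Helper9.TY (CbLawG)

/-! ### the program -/

/-- 126 on the points -/
def c126 : ℕ := Nat.mul 126 M10.cC8

/-- 122 on the points -/
def c122 : ℕ := Nat.mul 122 M10.cC8

/-- 128 at the points with a flag; `A` = number of flags + 1 on the points, small elsewhere -/
def flA (A : ℕ) : ℕ := Nat.land (Nat.add A c126) M10.cH

/-- stage E: the kill test of a match, its words evaluated; `m` = excess of `10` -/
def wE (J A m : ℕ) (k : (ℕ → Bool) → Bool) : Bool :=
  frS J (flA A) fun h =>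
  frS J (Nat.xor M10.cH h) fun n =>
  frS J (Nat.shiftRight n 7) fun n1 =>
  frS J (Nat.add c6P (Nat.shiftRight h 6)) fun l =>
  frS J (Nat.sub M10.cH l) fun hl =>
  frS J (Nat.sub 77 m) fun T =>
  frS J (Nat.sub 83 (Nat.mul 2 m)) fun Tb =>
  frS J (Nat.add 45 m) fun D =>
  k (kx T Tb D n1 n A hl l)

/-- stage B1a: the kill test of a match; `t` = sum of the three excesses, `m` = excess of `10`,
`G` = number of flags of `12`, `11` + 1 -/
def wB (J A G t m : ℕ) (k : (ℕ → Bool) → Bool) : Bool :=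
  frS J (flA A) fun h =>
  frS J (Nat.xor h (flA G)) fun n =>
  frS J (Nat.shiftRight n 7) fun n1 =>
  frS J (Nat.add (Nat.mul m M10.cC8) (Nat.mul (Nat.sub 8 m) (Nat.shiftRight h 7))) fun l =>
  frS J (Nat.sub M10.cH l) fun hl =>
  frS J (Nat.sub 89 t) fun T =>
  frS J (Nat.sub (Nat.sub 97 t) m) fun Tb =>
  frS J (Nat.add 31 t) fun D =>
  k (kx4 T Tb D n1 n A hl l)

/-- kill test, test of agreement, machine -/
def goE (K : ℕ → Bool) (D f u v : ℕ) : Cb := fun s c =>
  ite0 (K f) (ite0 (eqU u v) (c s) (mcb K (Nat.land D M10.cQ) f s c)) (c s)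

/-- second step, stage E -/
def st2E (D f u v : ℕ) : Cb := fun s c =>
  wE D (Nat.land D M10.cM1) (mLane v) fun K => goE K D f u v s c

/-- the lowest threshold of a match, stage E -/
def tbV (v : ℕ) : ℕ := Nat.sub 23 (Nat.mul 2 (mLane v))

/-- first step, stage E; `h6` = 2 at the points with a flag -/
def st1E (D h6 f u v : ℕ) : Cb := fun s c =>
  ite0 (kilR (Nat.sub (tbV v) (Nat.mod h6 255)) (Nat.add D (Nat.sub c122 h6)) f)
    (st2E D f u v s c) (c s)

/-- the words of a match from its word `D`, stage E -/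
def st0E (F b u v D : ℕ) : Cb := st1E D (Nat.shiftRight (flA D) 6) (fD F b u D) u v

/-- the callback of a frame, stage E -/
def matchE (X F b u v : ℕ) : Cb := fun s c =>
  frS X u fun u => frS X v fun v => st0E F b u v (dW X u v) s c

/-- second step, stage B1a -/
def st2B (D G f t m u v : ℕ) : Cb := fun s c =>
  wB D (Nat.land D M10.cM1) G t m fun K => goE K D f u v s c

/-- first step, stage B1a; `L` = lower bounds -/
def st1B (D L G f t m u v : ℕ) : Cb := fun s c =>
  ite0 (kilR (Nat.sub (Nat.sub (Nat.sub 97 t) m) (Nat.mod L 255)) (Nat.add D (Nat.sub M10.cH L)) f)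
    (st2B D G f t m u v s c) (c s)

/-- the words of a match from its word `D`, stage B1a -/
def st0B (F b G t m u v D : ℕ) : Cb :=
  st1B D (Nat.add (Nat.mul m M10.cC8) (Nat.mul (Nat.sub 8 m) (Nat.shiftRight (flA D) 7))) G
    (fD F b u D) t m u v

/-- the callback of a frame, stage B1a; `t0` = excess of `12` -/
def matchB (X F b t0 u v : ℕ) : Cb := fun s c =>
  frS X u fun u => frS X v fun v => frS X (mLane v) fun m =>
  frS X (Nat.add (Nat.add m (mLane u)) t0) fun t =>
  st0B F b (Nat.land (dU X u) M10.cM1) t m u v (dW X u v) s c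

/-- **the callback builder of stage E** -/
def cbE (R _h : ℕ) (k : (ℕ → ℕ → Cb) → Bool) : Bool :=
  rootD R fun X F b => k (matchE X F b)

/-- the excess of the root -/
def mRoot (R : ℕ) : ℕ :=
  Nat.mul 2 (Nat.add (Nat.land R 1) (Nat.mul 2 (Nat.land (Nat.shiftRight R 4095) 1)))

/-- **the callback builder of stage B1a** -/
def cbB (R _h : ℕ) (k : (ℕ → ℕ → Cb) → Bool) : Bool :=
  rootD R fun X F b => frS R (mRoot R) fun t0 => k (matchB X F b t0)

/-! ### the words are those of `kE`, `kB` -/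

theorem flA_eq (s : ℕ → ℕ) :
    flA (pk 8 1024 (fun r => s r + onS P1 1 r)) = flH (pk 8 1024 s) := by
  have e : pk 8 1024 (fun r => s r + onS P1 1 r) + Nat.mul 126 M10.cC8 =
      pk 8 1024 s + Nat.mul 127 M10.cC8 := by
    rw [← pk_add, ← cC8_pk, rwMul, rwMul]
    ring
  unfold flA flH c126 c127
  rw [rwAdd, rwAdd, e]

theorem wE_eq (J m : ℕ) (s : ℕ → ℕ) (k : (ℕ → Bool) → Bool) :
    wE J (pk 8 1024 (fun r => s r + onS P1 1 r)) m k = k (kE m (pk 8 1024 s)) := by
  unfold wE kE nE lE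
  simp only [frS_eq]
  rw [flA_eq, add_cC8]

theorem wB_eq (J t m : ℕ) (s s2 : ℕ → ℕ) (k : (ℕ → Bool) → Bool) :
    wB J (pk 8 1024 (fun r => s r + onS P1 1 r)) (pk 8 1024 (fun r => s2 r + onS P1 1 r)) t m k =
      k (kB t m (pk 8 1024 s2) (pk 8 1024 s)) := by
  unfold wB kB nB lB
  simp only [frS_eq]
  rw [flA_eq, flA_eq, add_cC8]

theorem mulC (n : ℕ) : Nat.mul n M10.cC8 = pk 8 1024 (onS P1 n) := by
  rw [rwMul, cC8_pk, mul_pk]
  refine pk_congr fun r _ => ?_
  unfold onS
  split_ifs <;> simp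

theorem cM1_pk : M10.cM1 = pk 8 1024 (onS P1 255) := by
  rw [← M10.kM1_eq]
  unfold Pool.Agent.Helper97.CV.Kill10.kM1
  rw [Pool.Agent.Helper64.TY.KilX.k1]

theorem land_255 {x : ℕ} (hx : x < 256) : x &&& 255 = x := by
  have h : ∀ x < 256, x &&& 255 = x := by decide +kernel
  exact h x hx

/-- the digits of `D` at the points -/
theorem dgt_fl3 {R u v r : ℕ} (h : r ∈ P1) : dgt R u v r = fl3 R u v r + 1 := dgt_P h

theorem fl3_le (R u v r : ℕ) : fl3 R u v r ≤ 3 := by
  have h1 := bP_le R r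
  have h2 := bP_le u r
  have h3 := bP_le v r
  unfold fl3
  omega

theorem fl2_le (R u r : ℕ) : fl2 R u r ≤ 3 := by
  have h1 := bP_le R r
  have h2 := bP_le u r
  unfold fl2
  omega

theorem fl3_off {R u v r : ℕ} (h : r ∉ P1) : fl3 R u v r = 0 := by
  unfold fl3
  rw [bP_off h, bP_off h, bP_off h]

theorem fl2_off {R u r : ℕ} (h : r ∉ P1) : fl2 R u r = 0 := by
  unfold fl2
  rw [bP_off h, bP_off h]

theorem D_cM1 (R u v : ℕ) : Nat.land (dW (rootX R) u v) M10.cM1 =
    pk 8 1024 (fun r => fl3 R u v r + onS P1 1 r) := by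
  rw [rwAnd, dW_eq, cM1_pk, pk_land]
  · refine pk_congr fun r _ => ?_
    unfold onS
    by_cases h : r ∈ P1
    · rw [if_pos h, if_pos h, land_255 (lt_of_le_of_lt (dgt_le R u v r) (by norm_num)), dgt_fl3 h]
    · rw [if_neg h, if_neg h, Nat.and_zero, fl3_off h]
  · intro r _
    exact lt_of_le_of_lt (dgt_le R u v r) (by norm_num)
  · intro r _
    unfold onS
    split_ifs <;> norm_num

theorem G_cM1 (R u : ℕ) : Nat.land (dU (rootX R) u) M10.cM1 =
    pk 8 1024 (fun r => fl2 R u r + onS P1 1 r) := by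
  have hlt : ∀ r, (FW.bQ R r + FW.bQ u r) + (onS P1 1 r + FW.bP R r + FW.bP u r) < 256 := by
    intro r
    have h1 := FW.bP_le R r
    have h2 := FW.bP_le u r
    have h3 := FW.bQ_le R r
    have h4 := FW.bQ_le u r
    unfold onS
    split_ifs <;> omega
  rw [rwAnd, dU_eq, cM1_pk, pk_land]
  · refine pk_congr fun r _ => ?_
    by_cases h : r ∈ P1
    · have h9 : onS P1 255 r = 255 := if_pos h
      have hq : ∀ a, FW.bQ a r = 0 := fun a => if_neg (Pool.Agent.Helper52.TY.CbA.P1_Q4 h)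
      have h8 := hlt r
      rw [h9, land_255 h8, hq, hq]
      show _ = (bP R r + bP u r) + _
      have e1 : FW.bP R r = bP R r := rfl
      have e2 : FW.bP u r = bP u r := rfl
      rw [e1, e2]
      ring
    · have h9 : onS P1 255 r = 0 := if_neg h
      have h8 : onS P1 1 r = 0 := if_neg h
      rw [h9, Nat.and_zero, h8, fl2_off h]
  · intro r _
    exact hlt r
  · intro r _
    unfold onS
    split_ifs <;> norm_num

theorem flA_D (R u v : ℕ) :
    flA (pk 8 1024 (dgt R u v)) = pk 8 1024 (onS (FS (fl3 R u v)) 128) := by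
  unfold flA c126
  rw [rwAdd, rwAnd, mulC, cH_pk, pk_add, pk_land]
  · refine pk_congr fun r _ => ?_
    by_cases hr : r ∈ P1
    · have h1 : onS P1 126 r = 126 := if_pos hr
      have h2 : onS P1 128 r = 128 := if_pos hr
      have h3 := fl3_le R u v r
      rw [h1, h2, dgt_fl3 hr, land_pow (by omega)]
      unfold onS
      by_cases h4 : 1 ≤ fl3 R u v r
      · rw [if_pos (by omega), if_pos (mem_FS.2 ⟨hr, h4⟩)]
      · rw [if_neg (by omega), if_neg fun h5 => h4 (mem_FS.1 h5).2]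
    · have h2 : onS P1 128 r = 0 := if_neg hr
      rw [h2, Nat.and_zero]
      unfold onS
      rw [if_neg fun h3 => hr (mem_FS.1 h3).1]
  · intro r _
    have h1 := dgt_le R u v r
    show dgt R u v r + onS P1 126 r < 2 ^ 8
    unfold onS
    split_ifs <;> omega
  · intro r _
    unfold onS
    split_ifs <;> norm_num

theorem pk_mod_P1 {w : ℕ → ℕ} (h0 : ∀ r, r ∉ P1 → w r = 0) (hw : ∀ r, w r ≤ 25) :
    pk 8 1024 w % 255 = ∑ z ∈ range 10, w (2 ^ z) := by
  have h1 : pk 8 1024 w % 255 = (∑ r ∈ range 1024, w r) % 255 :=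
    Pool.Agent.Helper52.TY.pk_modEq 1024 w
  have h2 : ∑ r ∈ range 1024, w r = ∑ z ∈ range 10, w (2 ^ z) := by
    rw [← Pool.Agent.Helper97.CV.Kill10.sum_P1 w]
    exact (sum_subset (fun r hr => mem_range.2 (P1_lt hr)) fun r _ hr => h0 r hr).symm
  have h3 : ∑ z ∈ range 10, w (2 ^ z) ≤ 250 := by
    calc ∑ z ∈ range 10, w (2 ^ z) ≤ ∑ _z ∈ range 10, 25 := sum_le_sum fun z _ => hw _
      _ = 250 := by simp
  rw [h1, h2]
  exact Nat.mod_eq_of_lt (lt_of_le_of_lt h3 (by norm_num))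

/-! ### the first step is sound -/

theorem kilR_false {T1 Tb N1 HN AL f : ℕ} (hT : T1 ≤ Tb) (h : kxR T1 Tb N1 HN AL f = false) :
    kilR Tb AL f = false := by
  rw [kxR_eq] at h
  simp only [] at h
  unfold kilR
  rw [resR_eq]
  have e : resRunR (Kill10.kT 1 2) (Kill10.kT 1 5) (Kill10.kT 1 8) (Kill10.kO2 1) Kill10.kC1
      (Kill10.kM1 1) (Kill10.kH 1) f AL = reluRun (Kill10.kH 1) (rowRun (Kill10.kT 1 2)
        (Kill10.kT 1 5) (Kill10.kT 1 8) (Kill10.kO2 1) Kill10.kC1 (Kill10.kM1 1) f AL) := rfl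
  rw [e, M10.raw_mod]
  by_contra hc
  rw [Bool.not_eq_false, Nat.ble_eq] at hc
  rw [Nat.ble_eq_true_of_le (hT.trans hc), Nat.ble_eq_true_of_le hc, Bool.true_or,
    Bool.true_and] at h
  exact Bool.noConfusion h

theorem CtxR.kilR_ok {B : Fam'} {a l : ℕ → ℕ} {N : Finset ℕ} {e l' T1 Tb : ℕ}
    (h : CtxR B a l N e l' T1 Tb) (hT : T1 ≤ Tb) :
    M10.KillOK (kilR Tb (pk 8 1024 a + pk 8 1024 (fun r => onS P1 128 r - l r))) B :=
  fun p hp hp0 => kilR_false hT (h.kxR_ok p hp hp0)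

theorem sum_lEf (s : ℕ → ℕ) :
    ∑ z ∈ range 10, lEf s (2 ^ z) = 60 + ∑ z ∈ range 10, onS (FS s) 2 (2 ^ z) := by
  have h1 : ∀ z ∈ range 10, lEf s (2 ^ z) = 6 + onS (FS s) 2 (2 ^ z) := by
    intro z hz
    have h2 : 2 ^ z ∈ P1 :=
      mem_P1 (z := ⟨z, by have := mem_range.1 hz; omega⟩) (mem_range.1 hz)
    unfold lEf onS
    rw [if_pos h2]
    by_cases h3 : 1 ≤ s (2 ^ z)
    · rw [if_pos h3, if_pos (mem_FS.2 ⟨h2, h3⟩)]
    · rw [if_neg h3, if_neg fun h4 => h3 (mem_FS.1 h4).2]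
  rw [sum_congr rfl h1, sum_add_distrib]
  simp

theorem h6_eq (R u v : ℕ) : Nat.shiftRight (flA (dW (rootX R) u v)) 6 =
    pk 8 1024 (onS (FS (fl3 R u v)) 2) := by
  rw [dW_eq, flA_D, rwShr]
  exact shr_onS (by norm_num)

theorem c122_sub (s : ℕ → ℕ) : Nat.sub c122 (pk 8 1024 (onS (FS s) 2)) =
    pk 8 1024 (fun r => onS P1 128 r - lEf s r) := by
  unfold c122
  rw [mulC, rwSub, pk_sub]
  · refine pk_congr fun r _ => ?_
    unfold onS lEf
    by_cases hr : r ∈ P1
    · rw [if_pos hr, if_pos hr, if_pos hr]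
      by_cases h : 1 ≤ s r
      · rw [if_pos (mem_FS.2 ⟨hr, h⟩), if_pos h]
      · rw [if_neg fun h2 => h (mem_FS.1 h2).2, if_neg h]
    · rw [if_neg hr, if_neg hr, if_neg hr, if_neg fun h2 => hr (mem_FS.1 h2).1]
  · intro r _
    unfold onS
    by_cases hr : r ∈ P1
    · rw [if_pos hr]
      split_ifs <;> norm_num
    · rw [if_neg fun h2 => hr (mem_FS.1 h2).1]
      exact Nat.zero_le _

theorem onS_le (S : Finset ℕ) (c r : ℕ) : onS S c r ≤ c := by
  unfold onS
  split_ifs
  · exact le_rfl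
  · exact Nat.zero_le _

/-- the first step of stage E is sound -/
theorem kil1E_ok {reps : List ℕ} {j : ℕ} {B : Fam'} (h : QE reps j B 12 11 10) {R u v : ℕ}
    (hs : Flg B (fl3 R u v)) {m : ℕ} (hm : MM B 10 = m) :
    M10.KillOK (kilR (Nat.sub (Nat.sub 23 (Nat.mul 2 m))
        (Nat.mod (pk 8 1024 (onS (FS (fl3 R u v)) 2)) 255))
      (Nat.add (dW (rootX R) u v)
        (Nat.sub c122 (pk 8 1024 (onS (FS (fl3 R u v)) 2))))) B := by
  have hm2 : m ≤ 2 := by
    rw [← hm]
    exact h.hx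
  have e1 : Nat.mod (pk 8 1024 (onS (FS (fl3 R u v)) 2)) 255 =
      ∑ z ∈ range 10, onS (FS (fl3 R u v)) 2 (2 ^ z) :=
    pk_mod_P1 (fun r hr => if_neg fun h2 => hr (mem_FS.1 h2).1)
      fun r => (onS_le _ _ r).trans (by norm_num)
  have hS := sum_lEf (fl3 R u v)
  rw [e1, c122_sub, dW_eq]
  generalize hs1 : fl3 R u v = s at *
  have hd : ∀ r ∈ P1, dgt R u v r = s r + 1 := by
    intro r hr
    rw [dgt_fl3 hr, hs1]
  have hctx : CtxR B (dgt R u v) (lEf s) (P1 \ FS s) 6 m
      (78 - m - ∑ z ∈ range 10, lEf s (2 ^ z)) (83 - 2 * m - ∑ z ∈ range 10, lEf s (2 ^ z)) := by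
    refine ⟨h.best.odd, h.best.le, sdiff_subset, ?_, ?_, ?_, ?_, ?_, ?_, ?_, ?_⟩
    · intro r
      exact (dgt_le R u v r).trans (by norm_num)
    · intro r
      unfold lEf
      split_ifs <;> norm_num
    · intro z _
      unfold lEf
      split_ifs <;> norm_num
    · intro z hz
      have h1 := hs.offA z hz
      have h2 : onS P1 1 (2 ^ z.val) = 1 := if_pos (mem_P1 hz)
      rw [h2] at h1
      rw [hd _ (mem_P1 hz)]
      exact h1
    · have h1 := h.lowX (l := lEf s) (N := P1 \ FS s) ?_ ?_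
      · rw [hm] at h1
        exact h1
      · intro z hz
        unfold lEf
        rw [if_pos (mem_P1 hz)]
        by_cases h2 : 1 ≤ s (2 ^ z.val)
        · rw [if_pos h2]
          exact Or.inr ⟨le_rfl, (hs.nbr hz).1 h2⟩
        · rw [if_neg h2]
          exact Or.inl le_rfl
      · intro z hz hn
        rw [mem_sdiff]
        refine ⟨mem_P1 hz, fun h2 => hn ((hs.nbr hz).1 (mem_FS.1 h2).2)⟩
    · have h1 := h.hc
      have h2 := h.hy
      omega
    · have h1 := h.hc
      have h2 := h.hy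
      omega
    · intro r hr
      have h1 := mem_sdiff.1 hr
      have h2 : lEf s r = 6 := by
        unfold lEf
        rw [if_pos h1.1, if_neg fun h3 => h1.2 (mem_FS.2 ⟨h1.1, h3⟩)]
      omega
  have h2 := CtxR.kilR_ok hctx (by omega)
  have e2 : Nat.sub (Nat.sub 23 (Nat.mul 2 m)) (∑ z ∈ range 10, onS (FS s) 2 (2 ^ z)) =
      83 - 2 * m - ∑ z ∈ range 10, lEf s (2 ^ z) := by
    rw [rwSub, rwSub, rwMul]
    omega
  rw [e2, rwAdd]
  exact h2

/-- the lower bounds of stage B1a from `D` -/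
theorem LB_eq {m : ℕ} (hm : m ≤ 8) (R u v : ℕ) :
    Nat.add (Nat.mul m M10.cC8) (Nat.mul (Nat.sub 8 m)
      (Nat.shiftRight (flA (dW (rootX R) u v)) 7)) = pk 8 1024 (lBf m (fl3 R u v)) := by
  rw [← lB_eq hm (fl3_le R u v) fun r hr => fl3_off hr]
  unfold lB
  rw [dW_eq, flA_D, flH_eq (fl3_le R u v)]

/-- the first step of stage B1a is sound -/
theorem kil1B_ok {B : Fam'} (h : QB B 12 11 10) {R u v : ℕ} {s2 : ℕ → ℕ}
    (hs : Flg B (fl3 R u v)) (hs2 : Flg2 B s2)
    {t m : ℕ} (hm : MM B 10 = m) (ht : MM B 10 + MM B 11 + MM B 12 = t) :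
    M10.KillOK (kilR (Nat.sub (Nat.sub (Nat.sub 97 t) m)
        (Nat.mod (Nat.add (Nat.mul m M10.cC8) (Nat.mul (Nat.sub 8 m)
          (Nat.shiftRight (flA (dW (rootX R) u v)) 7))) 255))
      (Nat.add (dW (rootX R) u v)
        (Nat.sub M10.cH (Nat.add (Nat.mul m M10.cC8) (Nat.mul (Nat.sub 8 m)
          (Nat.shiftRight (flA (dW (rootX R) u v)) 7)))))) B := by
  have hm4 : m ≤ 4 := by
    rw [← hm]
    exact h.hz
  rw [LB_eq (by omega)]
  have ht14 : t ≤ 14 := by
    have h1 := h.hc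
    have h2 := h.hy
    have h3 := h.hz
    omega
  have hl8 : ∀ r, lBf m (fl3 R u v) r ≤ 8 := by
    intro r
    unfold lBf
    split_ifs <;> omega
  have hl0 : ∀ r, r ∉ P1 → lBf m (fl3 R u v) r = 0 := by
    intro r hr
    unfold lBf
    rw [if_neg hr]
  have e1 : Nat.mod (pk 8 1024 (lBf m (fl3 R u v))) 255 =
      ∑ z ∈ range 10, lBf m (fl3 R u v) (2 ^ z) :=
    pk_mod_P1 hl0 fun r => (hl8 r).trans (by norm_num)
  rw [e1, sub_cH (fun r => (hl8 r).trans (by norm_num)) hl0, dW_eq]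
  have hev : m % 2 = 0 := by
    obtain ⟨a, ha⟩ := MM_even h.best.odd 10
    omega
  generalize hs1 : fl3 R u v = s at *
  have hd : ∀ r ∈ P1, dgt R u v r = s r + 1 := by
    intro r hr
    rw [dgt_fl3 hr, hs1]
  have hctx : CtxR B (dgt R u v) (lBf m s) (FS s \ FS s2) 8 m
      (90 - t - ∑ z ∈ range 10, lBf m s (2 ^ z)) (97 - t - m - ∑ z ∈ range 10, lBf m s (2 ^ z)) := by
    refine ⟨h.best.odd, h.best.le, sdiff_subset.trans (filter_subset _ _), ?_, ?_, ?_, ?_, ?_, ?_,
      ?_, ?_⟩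
    · intro r
      exact (dgt_le R u v r).trans (by norm_num)
    · intro r
      exact (hl8 r).trans (by norm_num)
    · intro z _
      unfold lBf
      split_ifs <;> omega
    · intro z hz
      have h1 := hs.offA z hz
      have h2 : onS P1 1 (2 ^ z.val) = 1 := if_pos (mem_P1 hz)
      rw [h2] at h1
      rw [hd _ (mem_P1 hz)]
      exact h1
    · have h1 := h.lowX (l := lBf m s) (N := FS s \ FS s2) ?_
      · rw [hm] at h1
        exact h1
      · intro z hz
        unfold lBf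
        rw [if_pos (mem_P1 hz), hm]
        by_cases h2 : 1 ≤ s (2 ^ z.val)
        · rw [if_pos h2]
          by_cases h3 : 1 ≤ s2 (2 ^ z.val)
          · exact Or.inr (Or.inl ⟨le_rfl, (hs2.nbr hz).1 h3⟩)
          · refine Or.inr (Or.inr ⟨le_rfl, ?_, ?_⟩)
            · rcases (hs.nbr hz).1 h2 with h4 | h4 | h4
              · exact absurd ((hs2.nbr hz).2 (Or.inl h4)) h3
              · exact absurd ((hs2.nbr hz).2 (Or.inr h4)) h3
              · exact h4
            · rw [mem_sdiff, mem_FS, mem_FS]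
              exact ⟨⟨mem_P1 hz, h2⟩, fun h4 => h3 h4.2⟩
        · rw [if_neg h2]
          exact Or.inl le_rfl
    · omega
    · omega
    · intro r hr
      have h1 := mem_FS.1 (mem_sdiff.1 hr).1
      have h2 : lBf m s r = 8 := by
        unfold lBf
        rw [if_pos h1.1, if_pos h1.2]
      omega
  have h2 := CtxR.kilR_ok hctx (by omega)
  rw [rwSub, rwSub, rwSub, rwAdd]
  exact h2

/-! ### soundness -/

/-- first test, second test, agreement, machine -/
theorem acc_go {K1 K : ℕ → Bool} {D f u v : ℕ} {H : Fam' → Prop}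
    (h : ∀ B, H B → cub 11 (LYL B) = u → cub 11 (LZL B) = v →
      Start K1 (Nat.land D M10.cQ) f B ∧ Start K (Nat.land D M10.cQ) f B) :
    Acc (Agree u v → LaneDeadL H u v) fun s c => ite0 (K1 f) (goE K D f u v s c) (c s) := by
  intro s c hs
  change ite0 (K1 f) (goE K D f u v s c) (c s) = true at hs
  cases hk1 : K1 f with
  | true =>
    rw [hk1, ite0_true] at hs
    refine ⟨fun _ B hB hu hv => ?_, s, hs⟩
    rw [(h B hB hu hv).1.kill_eq] at hk1
    exact Bool.false_ne_true hk1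
  | false =>
  rw [hk1, ite0_false] at hs
  unfold goE at hs
  cases hkl : K f with
  | true =>
    rw [hkl, ite0_true] at hs
    refine ⟨fun _ B hB hu hv => ?_, s, hs⟩
    rw [(h B hB hu hv).2.kill_eq] at hkl
    exact Bool.false_ne_true hkl
  | false =>
    rw [hkl, ite0_false] at hs
    cases hag : eqU u v with
    | false =>
      rw [hag, ite0_false] at hs
      refine ⟨fun h1 => ?_, s, hs⟩
      rw [eqU_of_agree h1] at hag
      exact absurd hag (by decide)
    | true =>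
      rw [hag, ite0_true] at hs
      obtain ⟨h1, h2⟩ := acc_mcb (C := fun B => H B ∧ cub 11 (LYL B) = u ∧
        cub 11 (LZL B) = v) (fun B hB => (h B hB.1 hB.2.1 hB.2.2).2) s c hs
      exact ⟨fun _ B hB hu hv => h1 B ⟨hB, hu, hv⟩, h2⟩

theorem matchE_eq (R u v s : ℕ) (c : ℕ → Bool) :
    matchE (rootX R) (rootF R) (rootb R) u v s c =
      ite0 (kilR (Nat.sub (Nat.sub 23 (Nat.mul 2 (mLane v)))
          (Nat.mod (pk 8 1024 (onS (FS (fl3 R u v)) 2)) 255))
        (Nat.add (dW (rootX R) u v)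
          (Nat.sub c122 (pk 8 1024 (onS (FS (fl3 R u v)) 2))))
        (fD (rootF R) (rootb R) u (dW (rootX R) u v)))
      (goE (kE (mLane v) (pk 8 1024 (fl3 R u v))) (dW (rootX R) u v)
        (fD (rootF R) (rootb R) u (dW (rootX R) u v)) u v s c) (c s) := by
  unfold matchE
  simp only [frS_eq]
  unfold st0E st1E st2E tbV
  rw [D_cM1, wE_eq, h6_eq]

theorem matchB_eq (R t0 u v s : ℕ) (c : ℕ → Bool) :
    matchB (rootX R) (rootF R) (rootb R) t0 u v s c =
      ite0 (kilR (Nat.sub (Nat.sub (Nat.sub 97 (mLane v + mLane u + t0)) (mLane v))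
          (Nat.mod (Nat.add (Nat.mul (mLane v) M10.cC8) (Nat.mul (Nat.sub 8 (mLane v))
            (Nat.shiftRight (flA (dW (rootX R) u v)) 7))) 255))
        (Nat.add (dW (rootX R) u v)
          (Nat.sub M10.cH (Nat.add (Nat.mul (mLane v) M10.cC8) (Nat.mul (Nat.sub 8 (mLane v))
            (Nat.shiftRight (flA (dW (rootX R) u v)) 7)))))
        (fD (rootF R) (rootb R) u (dW (rootX R) u v)))
      (goE (kB (mLane v + mLane u + t0) (mLane v) (pk 8 1024 (fl2 R u)) (pk 8 1024 (fl3 R u v)))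
        (dW (rootX R) u v) (fD (rootF R) (rootb R) u (dW (rootX R) u v)) u v s c) (c s) := by
  unfold matchB
  simp only [frS_eq]
  unfold st0B st1B st2B
  rw [D_cM1, G_cM1, wB_eq, rwAdd (mLane v) (mLane u), rwAdd (mLane v + mLane u) t0]

/-- **the callback of stage E is sound** -/
theorem cbE_lay (reps : List ℕ) (j : ℕ) (D : Fam') (h : ℕ) :
    CbLawG cbE (LayC D) (HEL reps j D h) h := by
  intro R hR k hk
  unfold cbE at hk
  rw [rootD_eq] at hk
  refine ⟨_, hk, fun u v s c hs => ?_⟩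
  rw [matchE_eq] at hs
  refine acc_go (K1 := kilR _ _) (fun B hB hu hv => ?_) s c hs
  have hBo := hB.q.best.odd
  have hRt : IsRoot B R := by
    unfold IsRoot
    rw [hB.root]
    exact hR
  have hb := bits_of_lanes hBo hRt hu hv
  have hm : MM B 10 = mLane v := by
    rw [← hv]
    exact (mLane_LZL hBo (hB.q.hx.trans (by norm_num))).symm
  have hf := flg_words hBo hRt hu hv
  have hp := FW.par_fast hb
  have hq := FW.pair_fast hb hBo
  exact ⟨⟨hBo, kil1E_ok hB.q hf hm, hp, hq⟩, ⟨hBo, kE_ok hB.q hf hm, hp, hq⟩⟩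

theorem mRoot_eq {B : Fam'} (hB : OddCover B) {R : ℕ} (hR : IsRoot B R) (h6 : MM B 12 ≤ 6) :
    mRoot R = MM B 12 := by
  have e1 : mRoot R = 2 * ((R &&& 1) + 2 * ((R >>> 4095) &&& 1)) := rfl
  have e3 : R &&& 1 = (R.testBit 0).toNat := by
    rw [Nat.and_one_is_mod, Nat.toNat_testBit]
    simp
  have e4 : (R >>> 4095) &&& 1 = (R.testBit 4095).toNat := by
    rw [Nat.and_one_is_mod, Nat.toNat_testBit, Nat.shiftRight_eq_div_pow]
  rw [e1, e3, e4, hR.MM hB h6]

/-- **the callback of stage B1a is sound** -/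
theorem cbB_lay (D : Fam') (h : ℕ) : CbLawG cbB (LayC D) (HBL D h) h := by
  intro R hR k hk
  unfold cbB at hk
  rw [rootD_eq] at hk
  simp only [frS_eq] at hk
  refine ⟨_, hk, fun u v s c hs => ?_⟩
  rw [matchB_eq] at hs
  refine acc_go (K1 := kilR _ _) (fun B hB hu hv => ?_) s c hs
  have hBo := hB.q.best.odd
  have hRt : IsRoot B R := by
    unfold IsRoot
    rw [hB.root]
    exact hR
  have hb := bits_of_lanes hBo hRt hu hv
  have h10 : mLane v = MM B 10 := by
    rw [← hv]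
    exact mLane_LZL hBo (hB.q.hz.trans (by norm_num))
  have h11 : mLane u = MM B 11 := by
    rw [← hu]
    exact mLane_LYL hBo hB.q.hy
  have h12 : mRoot R = MM B 12 := mRoot_eq hBo hRt (hB.q.hc.trans (by norm_num))
  have hf := flg_words hBo hRt hu hv
  have hf2 := flg2_words hBo hRt hu
  have hp := FW.par_fast hb
  have hq := FW.pair_fast hb hBo
  have ht : MM B 10 + MM B 11 + MM B 12 = mLane v + mLane u + mRoot R := by
    rw [h10, h11, h12]
  exact ⟨⟨hBo, kil1B_ok hB.q hf hf2 h10.symm ht, hp, hq⟩,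
    ⟨hBo, kB_ok hB.q hf hf2 h10.symm ht, hp, hq⟩⟩

/-! ### the forms wanted by helper9's laws -/

/-- **the callback of stage E is sound**, the form of `LawE.cb` -/
theorem cbE_law (reps : List ℕ) (j : ℕ) (D : Fam') {y x : Fin 13} (hyx : y ≠ x)
    (hy : y < 12) (hx : x < 12) (h : ℕ) :
    CbLawG cbE (mapF (piE y x) (LayC D)) (HEL reps j (mapF (piE y x) D) h) h := by
  rw [← layC_mapF (piE_12 y x hyx hy hx)]
  exact cbE_lay reps j _ h

/-- **the callback of stage B1a is sound**, the form of `LawB.cb` -/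
theorem cbB_law (D : Fam') {y x : Fin 13} (hyx : y ≠ x) (hy : y < 12) (hx : x < 12) (h : ℕ) :
    CbLawG cbB (mapF (piE y x) (LayC D)) (HBL (mapF (piE y x) D) h) h := by
  rw [← layC_mapF (piE_12 y x hyx hy hx)]
  exact cbB_lay _ h

end Pool.Agent.Helper49.TY
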