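import Pool.Agent.Helper79.CV.Linkage
import Pool.Agent.Helper82.TY.PopR

/-!
MP_8ee768_co, project TH-Y': an invariant of triple systems on the points `0, .., 10` under
relabelling, with a program for the kernel. `colr D 0 = 1`,
`colr D (i + 1) v = sum over the blocks b of D through v of the product of the other colours`,
`inv = sum of the squares of the fourth colours`.
-/

set_option autoImplicit false

namespace Pool.Agent.Helper49.TY

open Finset
open Pool.Agent.Helper89.CV (OddCover ofMask)
open Pool.Agent.Helper97.CV Pool.Agent.Helper79.CV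
open Pool.Agent.Helper63.SIMD
open Pool.Agent.Helper82.TY (force force_eq)

/-! ### the invariant of families -/

/-- one refinement step -/
def grad (D : Finset (Finset (Fin 13))) (c : Fin 13 → ℕ) (v : Fin 13) : ℕ :=
  ∑ b ∈ D, if v ∈ b then ∏ w ∈ b.erase v, c w else 0

/-- the colours -/
def colr (D : Finset (Finset (Fin 13))) : ℕ → Fin 13 → ℕ
  | 0 => fun _ => 1
  | i + 1 => grad D (colr D i)

/-- the invariant of a family -/
def invF (D : Finset (Finset (Fin 13))) : ℕ := ∑ v, colr D 4 v * colr D 4 v

theorem grad_mapF (σ : Equiv.Perm (Fin 13)) (D : Finset (Finset (Fin 13))) (c : Fin 13 → ℕ)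
    (v : Fin 13) : grad (mapF σ D) c (σ v) = grad D (fun w => c (σ w)) v := by
  unfold grad mapF
  rw [sum_image fun a _ b _ h => mapS_injective σ h]
  refine sum_congr rfl fun b _ => ?_
  have h1 : (mapS σ b).erase (σ v) = mapS σ (b.erase v) := by
    ext a
    rw [mem_erase, mem_mapS', mem_mapS', mem_erase]
    refine and_congr_left fun _ => not_congr ?_
    rw [Equiv.symm_apply_eq]
  by_cases h : v ∈ b
  · rw [if_pos h, if_pos (mem_mapS.2 h), h1]
    unfold mapS
    rw [prod_map]
    rfl
  · rw [if_neg h, if_neg fun h2 => h (mem_mapS.1 h2)]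

theorem colr_mapF (σ : Equiv.Perm (Fin 13)) (D : Finset (Finset (Fin 13))) (i : ℕ)
    (v : Fin 13) : colr (mapF σ D) i (σ v) = colr D i v := by
  induction i generalizing v with
  | zero => rfl
  | succ i ih =>
    show grad (mapF σ D) (colr (mapF σ D) i) (σ v) = grad D (colr D i) v
    rw [grad_mapF]
    congr 1
    funext w
    exact ih w

theorem invF_mapF (σ : Equiv.Perm (Fin 13)) (D : Finset (Finset (Fin 13))) :
    invF (mapF σ D) = invF D := by
  unfold invF
  rw [← Equiv.sum_comp σ]
  exact sum_congr rfl fun v _ => by rw [colr_mapF]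

/-! ### bounds -/

theorem grad_le {D : Finset (Finset (Fin 13))} (hD : ∀ b ∈ D, b.card = 3) (hc : D.card ≤ 256)
    {c : Fin 13 → ℕ} {k : ℕ} (h : ∀ v, c v ≤ 2 ^ k) (v : Fin 13) :
    grad D c v ≤ 2 ^ (8 + 2 * k) := by
  unfold grad
  calc (∑ b ∈ D, if v ∈ b then ∏ w ∈ b.erase v, c w else 0) ≤ ∑ _b ∈ D, 2 ^ (2 * k) := by
        refine sum_le_sum fun b hb => ?_
        split_ifs with hv
        · calc ∏ w ∈ b.erase v, c w ≤ ∏ _w ∈ b.erase v, 2 ^ k :=
                prod_le_prod' fun w _ => h w
            _ = 2 ^ (2 * k) := by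
                rw [prod_const, card_erase_of_mem hv, hD b hb, ← pow_mul, mul_comm k]
        · exact Nat.zero_le _
    _ = D.card * 2 ^ (2 * k) := by rw [sum_const, smul_eq_mul]
    _ ≤ 256 * 2 ^ (2 * k) := Nat.mul_le_mul_right _ hc
    _ = 2 ^ (8 + 2 * k) := by
        rw [pow_add]
        norm_num

theorem colr_lt {D : Finset (Finset (Fin 13))} (hD : ∀ b ∈ D, b.card = 3) (hc : D.card ≤ 256)
    {i : ℕ} (hi : i ≤ 4) (v : Fin 13) : colr D i v < 2 ^ 128 := by
  have h0 : ∀ v, colr D 0 v ≤ 2 ^ 0 := fun v => le_refl 1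
  have h1 : ∀ v, colr D 1 v ≤ 2 ^ 8 := grad_le hD hc h0
  have h2 : ∀ v, colr D 2 v ≤ 2 ^ 24 := grad_le hD hc h1
  have h3 : ∀ v, colr D 3 v ≤ 2 ^ 56 := grad_le hD hc h2
  have h4 : ∀ v, colr D 4 v ≤ 2 ^ 120 := grad_le hD hc h3
  interval_cases i
  · exact lt_of_le_of_lt (h0 v) (by norm_num)
  · exact lt_of_le_of_lt (h1 v) (by norm_num)
  · exact lt_of_le_of_lt (h2 v) (by norm_num)
  · exact lt_of_le_of_lt (h3 v) (by norm_num)
  · exact lt_of_le_of_lt (h4 v) (by norm_num)

/-! ### selection of the members of a code -/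

/-- the elements of a list at the positions of the one bits -/
def sel {α : Type} : List α → ℕ → List α
  | [], _ => []
  | d :: l, T => if T.testBit 0 = true then d :: sel l (T >>> 1) else sel l (T >>> 1)

theorem sel_map {α β : Type} (f : α → β) (l : List α) (T : ℕ) :
    sel (l.map f) T = (sel l T).map f := by
  induction l generalizing T with
  | nil => rfl
  | cons d l ih =>
    simp only [List.map_cons, sel]
    split_ifs
    · rw [List.map_cons, ih]
    · rw [ih]

theorem sel_sublist {α : Type} (l : List α) (T : ℕ) : (sel l T).Sublist l := by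
  induction l generalizing T with
  | nil => exact List.Sublist.refl _
  | cons d l ih =>
    simp only [sel]
    split_ifs
    · exact (ih _).cons_cons d
    · exact (ih _).cons d

theorem mem_sel {α : Type} {l : List α} {T : ℕ} {d : α} :
    d ∈ sel l T ↔ ∃ (i : ℕ) (h : i < l.length), T.testBit i = true ∧ l[i] = d := by
  induction l generalizing T with
  | nil => simp [sel]
  | cons e l ih =>
    have key : d ∈ sel l (T >>> 1) ↔
        ∃ (i : ℕ) (h : i < l.length), T.testBit (i + 1) = true ∧ l[i] = d := by
      rw [ih]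
      simp only [Nat.testBit_shiftRight, Nat.add_comm 1]
    constructor
    · intro h
      simp only [sel] at h
      split_ifs at h with h0
      · rcases List.mem_cons.1 h with h1 | h1
        · exact ⟨0, by simp, h0, by simp [h1]⟩
        · obtain ⟨i, hi, h2, h3⟩ := key.1 h1
          exact ⟨i + 1, by simp [hi], h2, by simpa using h3⟩
      · obtain ⟨i, hi, h2, h3⟩ := key.1 h
        exact ⟨i + 1, by simp [hi], h2, by simpa using h3⟩
    · rintro ⟨i, hi, h2, h3⟩
      simp only [sel]
      cases i with
      | zero =>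
        rw [if_pos h2]
        simp only [List.getElem_cons_zero] at h3
        rw [h3]
        exact List.mem_cons_self
      | succ i =>
        simp only [List.getElem_cons_succ] at h3
        have h4 := key.2 ⟨i, by simpa using hi, h2, h3⟩
        split_ifs
        · exact List.mem_cons_of_mem _ h4
        · exact h4

/-- a family as the list of its masks -/
theorem fam_eq_sel (n k T : ℕ) : fam n k T = ((sel (L n k) T).map ofMask).toFinset := by
  ext s
  rw [mem_fam, List.mem_toFinset, List.mem_map]
  constructor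
  · rintro ⟨i, hi, h1, h2⟩
    exact ⟨_, mem_sel.2 ⟨i, hi, h1, rfl⟩, h2⟩
  · rintro ⟨m, hm, h2⟩
    obtain ⟨i, hi, h1, rfl⟩ := mem_sel.1 hm
    exact ⟨i, hi, h1, h2⟩

theorem nodup_sel {n k : ℕ} (hn : n ≤ 13) (T : ℕ) : ((sel (L n k) T).map ofMask).Nodup := by
  refine List.Nodup.map_on ?_ ((nodup_L n k).sublist (sel_sublist _ _))
  intro a ha b hb h
  have hlt : ∀ m ∈ sel (L n k) T, m < 2 ^ 13 := fun m hm =>
    lt_of_lt_of_le (lt_of_mem_L ((sel_sublist _ _).subset hm))
      (Nat.pow_le_pow_right (by norm_num) hn)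
  rw [← mk_ofMask (hlt a ha), ← mk_ofMask (hlt b hb), h]

theorem sum_fam {n k : ℕ} (hn : n ≤ 13) (T : ℕ) (f : Finset (Fin 13) → ℕ) :
    ∑ b ∈ fam n k T, f b = ((sel (L n k) T).map fun m => f (ofMask m)).sum := by
  rw [fam_eq_sel, List.sum_toFinset f (nodup_sel hn T), List.map_map]
  rfl

theorem card_fam_le (T : ℕ) : (fam 11 3 T).card ≤ 256 := by
  rw [fam_eq_sel]
  refine (List.toFinset_card_le _).trans ?_
  rw [List.length_map]
  refine (sel_sublist _ _).length_le.trans ?_
  rw [length_L]
  decide

theorem card_of_mem_fam (T : ℕ) : ∀ b ∈ fam 11 3 T, b.card = 3 := fun _ hb =>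
  (sub_of_mem_fam (by norm_num) hb).2

/-! ### the program -/

/-- the descriptors `128 a + 2^11 (128 b) + 2^22 (128 c)` of the triples `a < b < c < 11` -/
def tri : List ℕ :=
  [1074003968, 1610874880, 1611137024, 1611137152, 2147745792, 2148007936, 2148008064,
   2148270080, 2148270208, 2148270336, 2684616704, 2684878848, 2684878976, 2685140992,
   2685141120, 2685141248, 2685403136, 2685403264, 2685403392, 2685403520, 3221487616,
   3221749760, 3221749888, 3222011904, 3222012032, 3222012160, 3222274048, 3222274176,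
   3222274304, 3222274432, 3222536192, 3222536320, 3222536448, 3222536576, 3222536704,
   3758358528, 3758620672, 3758620800, 3758882816, 3758882944, 3758883072, 3759144960,
   3759145088, 3759145216, 3759145344, 3759407104, 3759407232, 3759407360, 3759407488,
   3759407616, 3759669248, 3759669376, 3759669504, 3759669632, 3759669760, 3759669888,
   4295229440, 4295491584, 4295491712, 4295753728, 4295753856, 4295753984, 4296015872,
   4296016000, 4296016128, 4296016256, 4296278016, 4296278144, 4296278272, 4296278400,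
   4296278528, 4296540160, 4296540288, 4296540416, 4296540544, 4296540672, 4296540800,
   4296802304, 4296802432, 4296802560, 4296802688, 4296802816, 4296802944, 4296803072,
   4832100352, 4832362496, 4832362624, 4832624640, 4832624768, 4832624896, 4832886784,
   4832886912, 4832887040, 4832887168, 4833148928, 4833149056, 4833149184, 4833149312,
   4833149440, 4833411072, 4833411200, 4833411328, 4833411456, 4833411584, 4833411712,
   4833673216, 4833673344, 4833673472, 4833673600, 4833673728, 4833673856, 4833673984,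
   4833935360, 4833935488, 4833935616, 4833935744, 4833935872, 4833936000, 4833936128,
   4833936256, 5368971264, 5369233408, 5369233536, 5369495552, 5369495680, 5369495808,
   5369757696, 5369757824, 5369757952, 5369758080, 5370019840, 5370019968, 5370020096,
   5370020224, 5370020352, 5370281984, 5370282112, 5370282240, 5370282368, 5370282496,
   5370282624, 5370544128, 5370544256, 5370544384, 5370544512, 5370544640, 5370544768,
   5370544896, 5370806272, 5370806400, 5370806528, 5370806656, 5370806784, 5370806912,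
   5370807040, 5370807168, 5371068416, 5371068544, 5371068672, 5371068800, 5371068928,
   5371069056, 5371069184, 5371069312, 5371069440]

/-- the mask of the lowest field -/
def M128 : ℕ := 0xffffffffffffffffffffffffffffffff

/-- the field at the shift `s` -/
def gt (X s : ℕ) : ℕ := Nat.land (Nat.shiftRight X s) M128

/-- contribution of a block -/
def con (X d : ℕ) : ℕ :=
  force (Nat.land d 2047) fun a =>
  force (Nat.land (Nat.shiftRight d 11) 2047) fun b =>
  force (Nat.shiftRight d 22) fun c =>
  force (gt X a) fun x =>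
  force (gt X b) fun y =>
  force (gt X c) fun z =>
  Nat.add (Nat.shiftLeft (Nat.mul y z) a)
    (Nat.add (Nat.shiftLeft (Nat.mul x z) b) (Nat.shiftLeft (Nat.mul x y) c))

/-- one step on packed colours -/
def gradK (X : ℕ) : List ℕ → ℕ :=
  @List.rec ℕ (fun _ => ℕ) 0 (fun d _ ih => Nat.add (con X d) ih)

/-- the blocks of a code, reversed, with continuation -/
def selK (k : List ℕ → ℕ) : List ℕ → ℕ → List ℕ → ℕ :=
  @List.rec ℕ (fun _ => ℕ → List ℕ → ℕ) (fun _ acc => k acc)
    (fun d _ ih T acc =>
      @Nat.rec (fun _ => ℕ) (force (Nat.shiftRight T 1) fun T1 => ih T1 acc)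
        (fun _ _ => force (Nat.shiftRight T 1) fun T1 => ih T1 (List.cons d acc))
        (Nat.land T 1))

/-- sum of the squares of the fields -/
def sqK (X : ℕ) : ℕ → ℕ :=
  @Nat.rec (fun _ => ℕ) 0 (fun i ih =>
    force (gt X (Nat.mul 128 i)) fun x => Nat.add ih (Nat.mul x x))

/-- the packed vector of ones -/
def one11 : ℕ :=
  0x100000000000000000000000000000001000000000000000000000000000000010000000000000000000000000000000100000000000000000000000000000001000000000000000000000000000000010000000000000000000000000000000100000000000000000000000000000001000000000000000000000000000000010000000000000000000000000000000100000000000000000000000000000001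

/-- THE INVARIANT of a code on `L 11 3` -/
def inv (T : ℕ) : ℕ :=
  selK (fun bl =>
    force (gradK one11 bl) fun X =>
    force (gradK X bl) fun X =>
    force (gradK X bl) fun X =>
    force (gradK X bl) fun X => sqK X 11) tri T []

/-! ### correctness -/

theorem gt_pk {x : ℕ → ℕ} (hx : ∀ i < 11, x i < 2 ^ 128) {i : ℕ} (hi : i < 11) :
    gt (pk 128 11 x) (128 * i) = x i := by
  have h := fld_pk hx hi
  unfold fld at h
  rw [← Nat.shiftRight_eq_div_pow, ← Nat.and_two_pow_sub_one_eq_mod] at h
  exact h

/-- the test of the descriptors -/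
def okd (d m : ℕ) : Bool :=
  (fun a b c => decide (a < b ∧ b < c ∧ c < 11 ∧ d = 128 * a + 2 ^ 11 * (128 * b) +
    2 ^ 22 * (128 * c) ∧ m = 2 ^ a + 2 ^ b + 2 ^ c))
    (d % 2048 / 128) (d / 2048 % 2048 / 128) (d / 2 ^ 22 / 128)

theorem okd_spec {d m : ℕ} (h : okd d m = true) : ∃ a b c : ℕ, a < b ∧ b < c ∧ c < 11 ∧
    d = 128 * a + 2 ^ 11 * (128 * b) + 2 ^ 22 * (128 * c) ∧ m = 2 ^ a + 2 ^ b + 2 ^ c := by
  unfold okd at h
  rw [decide_eq_true_eq] at h
  exact ⟨_, _, _, h⟩

theorem tri_length : tri.length = (L 11 3).length := by decide +kernel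

theorem tri_ok : (tri.zip (L 11 3)).all (fun p => okd p.1 p.2) = true := by decide +kernel

attribute [local irreducible] tri L

theorem mask_triple : ∀ a b c : Fin 11, a < b → b < c →
    ofMask (2 ^ a.val + 2 ^ b.val + 2 ^ c.val) =
      {a.castLE (by norm_num), b.castLE (by norm_num), c.castLE (by norm_num)} := by
  decide +kernel

theorem con_eq {x : ℕ → ℕ} (hx : ∀ i < 11, x i < 2 ^ 128) {a b c : ℕ} (ha : a < 11)
    (hb : b < 11) (hc : c < 11) :
    con (pk 128 11 x) (128 * a + 2 ^ 11 * (128 * b) + 2 ^ 22 * (128 * c)) =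
      x b * x c * 2 ^ (128 * a) + (x a * x c * 2 ^ (128 * b) + x a * x b * 2 ^ (128 * c)) := by
  set d := 128 * a + 2 ^ 11 * (128 * b) + 2 ^ 22 * (128 * c) with hd
  have h1 : Nat.land d 2047 = 128 * a := by
    have h := Nat.and_two_pow_sub_one_eq_mod d 11
    norm_num at h
    refine h.trans ?_
    omega
  have h2 : Nat.land (Nat.shiftRight d 11) 2047 = 128 * b := by
    have h := Nat.and_two_pow_sub_one_eq_mod (d >>> 11) 11
    norm_num at h
    refine h.trans ?_
    rw [Nat.shiftRight_eq_div_pow]
    omega
  have h3 : Nat.shiftRight d 22 = 128 * c := by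
    refine (Nat.shiftRight_eq_div_pow d 22).trans ?_
    omega
  unfold con
  simp only [force_eq]
  rw [h1, h2, h3, gt_pk hx ha, gt_pk hx hb, gt_pk hx hc]
  have hs : ∀ u v : ℕ, Nat.shiftLeft u v = u * 2 ^ v := fun u v => Nat.shiftLeft_eq u v
  rw [hs, hs, hs]
  rfl

/-- colours as a function of numbers -/
def col (c : Fin 13 → ℕ) (i : ℕ) : ℕ := if h : i < 13 then c ⟨i, h⟩ else 0

theorem col_eq (c : Fin 13 → ℕ) {i : ℕ} (h : i < 11) : col c i = c ⟨i, by omega⟩ := by
  unfold col
  rw [dif_pos (by omega)]

/-- contribution of a triple to the packed step -/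
theorem pk_triple (c : Fin 13 → ℕ) {a b e : ℕ} (hab : a < b) (hbe : b < e) (he : e < 11) :
    pk 128 11 (col fun v => if v ∈ ofMask (2 ^ a + 2 ^ b + 2 ^ e) then
      ∏ w ∈ (ofMask (2 ^ a + 2 ^ b + 2 ^ e)).erase v, c w else 0) =
      col c b * col c e * 2 ^ (128 * a) + (col c a * col c e * 2 ^ (128 * b) +
        col c a * col c b * 2 ^ (128 * e)) := by
  have ha : a < 11 := by omega
  have hb : b < 11 := by omega
  have hm := mask_triple ⟨a, ha⟩ ⟨b, hb⟩ ⟨e, he⟩ hab hbe
  simp only [Fin.castLE_mk] at hm
  set A : Fin 13 := ⟨a, by omega⟩ with hA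
  set B : Fin 13 := ⟨b, by omega⟩ with hB
  set E : Fin 13 := ⟨e, by omega⟩ with hE
  have hAB : A ≠ B := fun h => by
    have := congrArg Fin.val h
    simp only [hA, hB] at this
    omega
  have hAE : A ≠ E := fun h => by
    have := congrArg Fin.val h
    simp only [hA, hE] at this
    omega
  have hBE : B ≠ E := fun h => by
    have := congrArg Fin.val h
    simp only [hB, hE] at this
    omega
  rw [hm, col_eq c ha, col_eq c hb, col_eq c he]
  have eA : (({A, B, E} : Finset (Fin 13)).erase A) = {B, E} := by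
    rw [erase_insert]
    simp only [mem_insert, mem_singleton, not_or]
    exact ⟨hAB, hAE⟩
  have eB : (({A, B, E} : Finset (Fin 13)).erase B) = {A, E} := by
    rw [Finset.insert_comm, erase_insert]
    simp only [mem_insert, mem_singleton, not_or]
    exact ⟨hAB.symm, hBE⟩
  have eE : (({A, B, E} : Finset (Fin 13)).erase E) = {A, B} := by
    have h1 : ({A, B, E} : Finset (Fin 13)) = {E, A, B} := by
      ext w
      simp only [mem_insert, mem_singleton]
      tauto
    rw [h1, erase_insert]
    simp only [mem_insert, mem_singleton, not_or]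
    exact ⟨hAE.symm, hBE.symm⟩
  have hpt : ∀ i < 11, col (fun v => if v ∈ ({A, B, E} : Finset (Fin 13)) then
      ∏ w ∈ ({A, B, E} : Finset (Fin 13)).erase v, c w else 0) i =
      (if i = a then c B * c E else 0) + ((if i = b then c A * c E else 0) +
        (if i = e then c A * c B else 0)) := by
    intro i hi
    rw [col_eq _ hi]
    have hmem : (⟨i, by omega⟩ : Fin 13) ∈ ({A, B, E} : Finset (Fin 13)) ↔
        i = a ∨ i = b ∨ i = e := by
      simp only [mem_insert, mem_singleton, hA, hB, hE, Fin.mk.injEq]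
    by_cases h1 : i = a
    · subst h1
      rw [if_pos (hmem.2 (Or.inl rfl)), if_pos rfl, if_neg (by omega), if_neg (by omega), eA,
        prod_pair hBE]
      omega
    · by_cases h2 : i = b
      · subst h2
        rw [if_pos (hmem.2 (Or.inr (Or.inl rfl))), if_neg h1, if_pos rfl, if_neg (by omega), eB,
          prod_pair hAE]
        omega
      · by_cases h3 : i = e
        · subst h3
          rw [if_pos (hmem.2 (Or.inr (Or.inr rfl))), if_neg h1, if_neg h2, if_pos rfl, eE,
            prod_pair hAB]
          omega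
        · rw [if_neg fun h4 => ?_, if_neg h1, if_neg h2, if_neg h3]
          rcases hmem.1 h4 with h5 | h5 | h5
          · exact h1 h5
          · exact h2 h5
          · exact h3 h5
  rw [pk_congr hpt]
  unfold pk
  simp only [add_mul, sum_add_distrib, ite_mul, zero_mul, sum_ite_eq', mem_range, ha, hb, he,
    if_true]
  rfl

theorem sum_sel_congr (z : List (ℕ × ℕ)) (f g : ℕ → ℕ) (h : ∀ p ∈ z, f p.1 = g p.2) (T : ℕ) :
    ((sel (z.map Prod.fst) T).map f).sum = ((sel (z.map Prod.snd) T).map g).sum := by
  induction z generalizing T with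
  | nil => rfl
  | cons p z ih =>
    have h1 := ih (fun q hq => h q (List.mem_cons_of_mem _ hq)) (T >>> 1)
    have h2 := h p List.mem_cons_self
    simp only [List.map_cons, sel]
    split_ifs
    · rw [List.map_cons, List.map_cons, List.sum_cons, List.sum_cons, h1, h2]
    · exact h1

theorem gradK_sum (X : ℕ) (l : List ℕ) : gradK X l = (l.map (con X)).sum := by
  induction l with
  | nil => rfl
  | cons d l ih =>
    rw [List.map_cons, List.sum_cons, ← ih]
    rfl

/-- the part of a mask in the packed step -/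
def part (c : Fin 13 → ℕ) (m : ℕ) : ℕ :=
  pk 128 11 (col fun v => if v ∈ ofMask m then ∏ w ∈ (ofMask m).erase v, c w else 0)

theorem pk_sum (l : List ℕ) (g : ℕ → ℕ → ℕ) :
    pk 128 11 (fun i => (l.map fun m => g m i).sum) = (l.map fun m => pk 128 11 (g m)).sum := by
  induction l with
  | nil =>
    simp only [List.map_nil, List.sum_nil]
    unfold pk
    simp
  | cons m l ih =>
    simp only [List.map_cons, List.sum_cons]
    rw [← ih, pk_add]

theorem grad_part (c : Fin 13 → ℕ) (T : ℕ) :
    pk 128 11 (col (grad (fam 11 3 T) c)) = ((sel (L 11 3) T).map (part c)).sum := by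
  have h3 : ∀ i < 11, col (grad (fam 11 3 T) c) i =
      ((sel (L 11 3) T).map fun m => col (fun v => if v ∈ ofMask m then
        ∏ w ∈ (ofMask m).erase v, c w else 0) i).sum := by
    intro i hi
    rw [col_eq _ hi]
    unfold grad
    rw [sum_fam (by norm_num)]
    refine congrArg List.sum (List.map_congr_left fun m _ => ?_)
    rw [col_eq _ hi]
  rw [pk_congr h3, pk_sum]
  rfl

theorem con_part {c : Fin 13 → ℕ} (hc : ∀ v, c v < 2 ^ 128) :
    ∀ p ∈ tri.zip (L 11 3), con (pk 128 11 (col c)) p.1 = part c p.2 := by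
  have hx : ∀ i < 11, col c i < 2 ^ 128 := fun i hi => by
    rw [col_eq c hi]
    exact hc _
  intro p hp
  have h5 := List.all_eq_true.1 tri_ok p hp
  obtain ⟨a, b, e, h6, h7, h8, h9, h10⟩ := okd_spec h5
  unfold part
  rw [h9, h10, pk_triple c h6 h7 h8]
  exact con_eq hx (h6.trans (h7.trans h8)) (h7.trans h8) h8

theorem gradK_eq {c : Fin 13 → ℕ} (hc : ∀ v, c v < 2 ^ 128) (T : ℕ)
    (l : List ℕ) (hl : l.Perm (sel tri T)) :
    gradK (pk 128 11 (col c)) l = pk 128 11 (col (grad (fam 11 3 T) c)) := by
  have hz1 : (tri.zip (L 11 3)).map Prod.fst = tri := List.map_fst_zip (le_of_eq tri_length)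
  have hz2 : (tri.zip (L 11 3)).map Prod.snd = L 11 3 :=
    List.map_snd_zip (le_of_eq tri_length.symm)
  have h := sum_sel_congr _ _ _ (con_part hc) T
  rw [hz1, hz2] at h
  rw [gradK_sum, (hl.map _).sum_eq, h, grad_part]

theorem selK_eq (k : List ℕ → ℕ) (l : List ℕ) (T : ℕ) (acc : List ℕ) :
    selK k l T acc = k ((sel l T).reverse ++ acc) := by
  induction l generalizing T acc with
  | nil => rfl
  | cons d l ih =>
    have hstep : selK k (d :: l) T acc =
        @Nat.rec (fun _ => ℕ) (force (Nat.shiftRight T 1) fun T1 => selK k l T1 acc)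
        (fun _ _ => force (Nat.shiftRight T 1) fun T1 => selK k l T1 (List.cons d acc))
        (Nat.land T 1) := rfl
    rw [hstep]
    simp only [force_eq, ih]
    have hT : Nat.shiftRight T 1 = T >>> 1 := rfl
    have hl1 : Nat.land T 1 = T % 2 := Nat.and_one_is_mod T
    simp only [sel]
    rw [hT, hl1]
    rcases Nat.mod_two_eq_zero_or_one T with h | h
    · have h0 : ¬ T.testBit 0 = true := by
        rw [Nat.testBit_zero, h]
        decide
      rw [h, if_neg h0]
      rfl
    · have h0 : T.testBit 0 = true := by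
        rw [Nat.testBit_zero, h]
        decide
      rw [h, if_pos h0, List.reverse_cons, List.append_assoc]
      rfl

theorem sqK_eq {x : ℕ → ℕ} (hx : ∀ i < 11, x i < 2 ^ 128) {n : ℕ} (hn : n ≤ 11) :
    sqK (pk 128 11 x) n = ∑ i ∈ range n, x i * x i := by
  induction n with
  | zero => rfl
  | succ n ih =>
    have hstep : sqK (pk 128 11 x) (n + 1) = force (gt (pk 128 11 x) (Nat.mul 128 n))
        fun y => Nat.add (sqK (pk 128 11 x) n) (Nat.mul y y) := rfl
    rw [hstep, force_eq, sum_range_succ, ih (by omega)]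
    have h1 : gt (pk 128 11 x) (Nat.mul 128 n) = x n := gt_pk hx (by omega)
    rw [h1]
    rfl

theorem colr_high (D : Finset (Finset (Fin 13))) (hD : ∀ b ∈ D, ∀ a ∈ b, a.val < 11) (i : ℕ)
    {v : Fin 13} (hv : 11 ≤ v.val) : colr D (i + 1) v = 0 := by
  show grad D (colr D i) v = 0
  unfold grad
  refine sum_eq_zero fun b hb => ?_
  rw [if_neg]
  intro h
  have := hD b hb v h
  omega

/-- THE PROGRAM IS CORRECT -/
theorem inv_eq (T : ℕ) : inv T = invF (fam 11 3 T) := by
  set D := fam 11 3 T with hD
  have hlt : ∀ i ≤ 4, ∀ v, colr D i v < 2 ^ 128 := fun i hi v =>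
    colr_lt (card_of_mem_fam T) (card_fam_le T) hi v
  have hone : one11 = pk 128 11 (col (colr D 0)) := by
    have h1 : pk 128 11 (col (colr D 0)) = pk 128 11 (fun _ => 1) :=
      pk_congr fun i hi => by
        rw [col_eq _ hi]
        rfl
    rw [h1, ← rep_eq (by norm_num)]
    decide +kernel
  have hstep : ∀ i < 4, ∀ l : List ℕ, l.Perm (sel tri T) →
      gradK (pk 128 11 (col (colr D i))) l = pk 128 11 (col (colr D (i + 1))) :=
    fun i hi l hl => gradK_eq (hlt i (by omega)) T l hl
  unfold inv
  rw [selK_eq, List.append_nil]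
  have hp : (sel tri T).reverse.Perm (sel tri T) := List.reverse_perm _
  simp only [force_eq]
  rw [hone, hstep 0 (by norm_num) _ hp, hstep 1 (by norm_num) _ hp, hstep 2 (by norm_num) _ hp,
    hstep 3 (by norm_num) _ hp, sqK_eq (fun i hi => by rw [col_eq _ hi]; exact hlt 4 le_rfl _)
    le_rfl]
  unfold invF
  have h13 : ∑ v : Fin 13, colr D 4 v * colr D 4 v =
      ∑ i ∈ range 13, col (colr D 4) i * col (colr D 4) i := by
    rw [Finset.sum_range]
    refine sum_congr rfl fun v _ => ?_
    unfold col
    rw [dif_pos v.isLt]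
  have hpts : ∀ b ∈ D, ∀ a ∈ b, a.val < 11 := by
    intro b hb
    exact mk_lt_iff.1 (sub_of_mem_fam (by norm_num) hb).1
  have h14 : ∑ i ∈ range 13, col (colr D 4) i * col (colr D 4) i =
      ∑ i ∈ range 11, col (colr D 4) i * col (colr D 4) i +
        col (colr D 4) 11 * col (colr D 4) 11 + col (colr D 4) 12 * col (colr D 4) 12 := by
    rw [sum_range_succ, sum_range_succ]
  rw [h13, h14]
  have h11 : col (colr D 4) 11 = 0 := by
    unfold col
    rw [dif_pos (by norm_num)]
    exact colr_high D hpts 3 (le_refl 11)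
  have h12 : col (colr D 4) 12 = 0 := by
    unfold col
    rw [dif_pos (by norm_num)]
    exact colr_high D hpts 3 (show 11 ≤ 12 by norm_num)
  rw [h11, h12, Nat.zero_mul]
  exact (Nat.add_zero _).symm

/-- isomorphic codes have equal invariants -/
theorem inv_eq_of_iso {σ : Equiv.Perm (Fin 13)} {T T' : ℕ}
    (h : mapF σ (fam 11 3 T) = fam 11 3 T') : inv T = inv T' := by
  rw [inv_eq, inv_eq, ← h, invF_mapF]

end Pool.Agent.Helper49.TY
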