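import Pool.Agent.Helper79.CV.Linkage
import Pool.Agent.Helper55.TY.Root
import Pool.Agent.Helper4.CV.Min

/-!
MP_8ee768_co, project TH-Y': the star drivers. A centre, one or two further points, the frame
`12` (centre), `11` (first point), `10` (second point).
-/

set_option autoImplicit false

namespace Pool.Agent.Helper49.TY

open Finset
open Pool.Agent.Helper89.CV (OddCover ofMask)
open Pool.Agent.Helper97.CV Pool.Agent.Helper79.CV Pool.Agent.Helper55.TY

/-- families of sets of points -/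
abbrev Fam := Finset (Finset (Fin 13))

/-! ### lanes -/

theorem mem_L_laneM {y i : ℕ} (hi : i < 792) :
    (laneM y).testBit i = ((L 12 5)[i]!).testBit y := by
  unfold laneM
  rw [Nat.testBit_ofBits_lt _ _ hi]

theorem length_L12 : (L 12 5).length = 792 := by
  rw [length_L]
  decide

/-- the part of a code in the mask of `y` is the code of the blocks through `y` -/
theorem enc_land_laneM (B : Fam) (y : Fin 13) :
    enc 12 5 B &&& laneM y.val = enc 12 5 (B.filter fun b => y ∈ b ∧ (12 : Fin 13) ∉ b) := by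
  refine Nat.eq_of_testBit_eq fun i => ?_
  rw [Nat.testBit_and]
  by_cases hi : i < (L 12 5).length
  · have h5 : (L 12 5)[i]! = (L 12 5)[i] := getElem!_pos (L 12 5) i hi
    rw [testBit_enc _ hi, testBit_enc _ hi, mem_L_laneM (by rwa [length_L12] at hi), h5,
      ← Bool.decide_eq_true (b := ((L 12 5)[i]).testBit y.val), ← Bool.decide_and]
    refine decide_eq_decide.2 ?_
    rw [mem_filter, mem_ofMask, mem_ofMask]
    constructor
    · rintro ⟨h1, h2⟩
      refine ⟨h1, h2, ?_⟩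
      have h3 := lt_of_mem_L (List.getElem_mem hi)
      rw [Nat.testBit_eq_false_of_lt (show (L 12 5)[i] < 2 ^ (12 : Fin 13).val from h3)]
      exact Bool.false_ne_true
    · rintro ⟨h1, h2, -⟩
      exact ⟨h1, h2⟩
  · rw [testBit_enc_ge _ (by omega), testBit_enc_ge _ (by omega), Bool.false_and]

/-- the lane of `y`: the code of the blocks through `y` avoiding `12` -/
def lane (B : Fam) (y : Fin 13) : ℕ := enc 12 5 B &&& laneM y.val

theorem lane_agree (B : Fam) (y x : Fin 13) :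
    lane B y &&& laneM x.val = lane B x &&& laneM y.val := by
  unfold lane
  rw [Nat.and_assoc, Nat.and_assoc, Nat.and_comm (laneM y.val)]

theorem fits_lane' (B : Fam) (y : Fin 13) : Fits B (lane B y) (laneM y.val) :=
  fits_lane (laneM_lt _) rfl

/-- a complete list of lanes of the point `y` over the centre link `r` -/
def LaneOK (r : ℕ) (y : Fin 13) (cap : ℕ) (P : Fam → Prop) (l : List ℕ) : Prop :=
  ∀ B : Fam, OddCover B → link B 12 = fam 12 4 r → MM B y ≤ cap → P (link B y) → lane B y ∈ l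

theorem LaneOK.mono {r : ℕ} {y : Fin 13} {cap cap' : ℕ} {P P' : Fam → Prop} {l l' : List ℕ}
    (h : LaneOK r y cap P l) (hc : cap' ≤ cap) (hP : ∀ D, P' D → P D) (hl : ∀ a ∈ l, a ∈ l') :
    LaneOK r y cap' P' l' :=
  fun B hB hr hM hPy => hl _ (h B hB hr (hM.trans hc) (hP _ hPy))

/-- from the table of the pair link to the lanes -/
theorem laneOK_of_table {r : ℕ} {y : Fin 13} {T cap : ℕ} {P : Fam → Prop} (hP : Inv P)
    {le : List ℕ} (hT : TableOK T cap P {D | ∃ e ∈ le, D = fam 11 4 e})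
    {σ : Equiv.Perm (Fin 13)} (h12 : σ 12 = 12) (hy : σ y = 11)
    (hσT : mapF σ (link (fam 12 4 r) y) = fam 11 3 T) :
    LaneOK r y cap P (le.map fun e => enc 12 5 (mapF σ.symm (cone 11 (fam 11 4 e)))) := by
  intro B hB hr hM hPy
  obtain ⟨E, ⟨e, he, rfl⟩, h1⟩ := linkage hB hP hT h12 hy (by rw [hr]; exact hσT) hM hPy
  rw [List.mem_map]
  refine ⟨e, he, ?_⟩
  unfold lane
  rw [enc_land_laneM, h1]

/-! ### degrees -/

theorem deg_link {B : Fam} (hB : OddCover B) {r : ℕ} (hr : link B 12 = fam 12 4 r) {y : Fin 13}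
    (hy : y ≠ 12) : cnt (fam 12 4 r) {y} = 19 + 2 * mm B 12 y := by
  rw [← hr, ← card_link]
  exact card_link_link hB hy.symm

theorem card_rep {B : Fam} (hB : OddCover B) {r : ℕ} (hr : link B 12 = fam 12 4 r) :
    2 * (fam 12 4 r).card = 114 + MM B 12 := by
  rw [← hr]
  exact two_mul_card_link hB 12

/-! ### contexts -/

/-- a context for a centre and one further point -/
structure Ctx2 (cap : ℕ) (P : Fam → Prop) (K : Fam → Fin 13 → Fin 13 → Prop) : Prop where
  inv : ∀ (σ : Equiv.Perm (Fin 13)) (B : Fam) (c y : Fin 13),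
    K B c y → K (mapF σ B) (σ c) (σ y)
  odd : ∀ B c y, K B c y → OddCover B
  cap_le : ∀ B c y, K B c y → MM B c ≤ cap
  prop : ∀ B c y, K B c y → P (link B c)
  ne : ∀ B c y, K B c y → y ≠ c

/-- a context for a centre and two further points -/
structure Ctx3 (cap : ℕ) (P : Fam → Prop) (K : Fam → Fin 13 → Fin 13 → Fin 13 → Prop) :
    Prop where
  inv : ∀ (σ : Equiv.Perm (Fin 13)) (B : Fam) (c y x : Fin 13),
    K B c y x → K (mapF σ B) (σ c) (σ y) (σ x)
  odd : ∀ B c y x, K B c y x → OddCover B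
  cap_le : ∀ B c y x, K B c y x → MM B c ≤ cap
  prop : ∀ B c y x, K B c y x → P (link B c)
  ne : ∀ B c y x, K B c y x → y ≠ c ∧ x ≠ c ∧ y ≠ x

/-- no cover in the frame with centre link `r` -/
def Dead2 (K : Fam → Fin 13 → Fin 13 → Prop) (r : ℕ) : Prop :=
  ∀ B, K B 12 11 → link B 12 = fam 12 4 r → False

/-- no cover in the frame with centre link `r` -/
def Dead3 (K : Fam → Fin 13 → Fin 13 → Fin 13 → Prop) (r : ℕ) : Prop :=
  ∀ B, K B 12 11 10 → link B 12 = fam 12 4 r → False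

/-- the link `r` with the point `y` moved to `11` is `r'` -/
def Moves2 (r : ℕ) (y : Fin 13) (r' : ℕ) : Prop :=
  ∃ π : Equiv.Perm (Fin 13), π 12 = 12 ∧ π y = 11 ∧ mapF π (fam 12 4 r) = fam 12 4 r'

/-- the link `r` with the points `y, x` moved to `11, 10` is `r'` -/
def Moves3 (r : ℕ) (y x : Fin 13) (r' : ℕ) : Prop :=
  ∃ π : Equiv.Perm (Fin 13), π 12 = 12 ∧ π y = 11 ∧ π x = 10 ∧
    mapF π (fam 12 4 r) = fam 12 4 r'

theorem link_map_rep {B : Fam} {r r' : ℕ} (hr : link B 12 = fam 12 4 r)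
    {π : Equiv.Perm (Fin 13)} (h12 : π 12 = 12) (hm : mapF π (fam 12 4 r) = fam 12 4 r') :
    link (mapF π B) 12 = fam 12 4 r' := by
  rw [← hm, ← hr]
  conv_lhs => rw [← h12]
  exact link_mapF π B 12

/-- DRIVER, centre and one point -/
theorem star2 {cap : ℕ} {P : Fam → Prop} {K : Fam → Fin 13 → Fin 13 → Prop}
    (hK : Ctx2 cap P K) (hP : Inv P) {reps : List ℕ} (hR : RootOK cap P reps)
    (h : ∀ r ∈ reps, ∀ y : Fin 13, y ≠ 12 →
      (∃ B, K B 12 y ∧ link B 12 = fam 12 4 r) → ∃ r', Moves2 r y r' ∧ Dead2 K r')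
    (B : Fam) (c y : Fin 13) : ¬ K B c y := by
  intro hB
  obtain ⟨σ, hσ, r, hr, hl⟩ := root_wlog (hK.odd _ _ _ hB) hP hR (hK.cap_le _ _ _ hB)
    (hK.prop _ _ _ hB)
  have h1 := hK.inv σ B c y hB
  rw [hσ] at h1
  obtain ⟨r', ⟨π, h2, h3, h4⟩, h5⟩ := h r hr (σ y) (hK.ne _ _ _ h1) ⟨_, h1, hl⟩
  have h6 := hK.inv π _ _ _ h1
  rw [h2, h3] at h6
  exact h5 _ h6 (link_map_rep hl h2 h4)

/-- DRIVER, centre and two points -/
theorem star3 {cap : ℕ} {P : Fam → Prop} {K : Fam → Fin 13 → Fin 13 → Fin 13 → Prop}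
    (hK : Ctx3 cap P K) (hP : Inv P) {reps : List ℕ} (hR : RootOK cap P reps)
    (h : ∀ r ∈ reps, ∀ y x : Fin 13, y ≠ 12 → x ≠ 12 → y ≠ x →
      (∃ B, K B 12 y x ∧ link B 12 = fam 12 4 r) → ∃ r', Moves3 r y x r' ∧ Dead3 K r')
    (B : Fam) (c y x : Fin 13) : ¬ K B c y x := by
  intro hB
  obtain ⟨σ, hσ, r, hr, hl⟩ := root_wlog (hK.odd _ _ _ _ hB) hP hR (hK.cap_le _ _ _ _ hB)
    (hK.prop _ _ _ _ hB)
  have h1 := hK.inv σ B c y x hB
  rw [hσ] at h1
  obtain ⟨hn1, hn2, hn3⟩ := hK.ne _ _ _ _ h1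
  obtain ⟨r', ⟨π, h2, h3, h3', h4⟩, h5⟩ := h r hr (σ y) (σ x) hn1 hn2 hn3 ⟨_, h1, hl⟩
  have h6 := hK.inv π _ _ _ _ h1
  rw [h2, h3, h3'] at h6
  exact h5 _ h6 (link_map_rep hl h2 h4)

/-! ### from lists of lanes to `Dead2`, `Dead3` -/

theorem enc_shift_link {B : Fam} {r : ℕ} (hr : r < 2 ^ 495) (hl : link B 12 = fam 12 4 r) :
    enc 13 5 B >>> 792 = r := by
  rw [enc_shift12, hl]
  have h : (12 : ℕ).choose 4 = 495 := by decide
  exact enc_fam (by norm_num) (by rwa [h])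

/-- one list: all roots (centre link, lane) are dead -/
theorem dead2_of {K : Fam → Fin 13 → Fin 13 → Prop} {H : Fam → Prop} {r : ℕ}
    (hr : r < 2 ^ 495) {cap : ℕ} {P : Fam → Prop} {la : List ℕ} (hla : LaneOK r 11 cap P la)
    (hK : ∀ B, K B 12 11 → link B 12 = fam 12 4 r →
      OddCover B ∧ MM B 11 ≤ cap ∧ P (link B 11) ∧ H B)
    (h : ∀ a ∈ la, RootDead H (r <<< 792 ||| a) (MX ||| laneM 11)) : Dead2 K r := by
  intro B hB hl
  obtain ⟨h1, h2, h3, h4⟩ := hK B hB hl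
  exact h _ (hla B h1 hl h2 h3) B h4
    (fits_two (enc_shift_link hr hl) (laneM_lt _) rfl)

/-- two lists: all roots (centre link, lane of `11`, lane of `10`) with equal common part are
dead -/
theorem dead3_of {K : Fam → Fin 13 → Fin 13 → Fin 13 → Prop} {H : Fam → Prop} {r : ℕ}
    (hr : r < 2 ^ 495) {cap cap' : ℕ} {P P' : Fam → Prop} {la lb : List ℕ}
    (hla : LaneOK r 11 cap P la) (hlb : LaneOK r 10 cap' P' lb)
    (hK : ∀ B, K B 12 11 10 → link B 12 = fam 12 4 r →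
      OddCover B ∧ MM B 11 ≤ cap ∧ P (link B 11) ∧ MM B 10 ≤ cap' ∧ P' (link B 10) ∧ H B)
    (h : ∀ a ∈ la, ∀ b ∈ lb, a &&& laneM 10 = b &&& laneM 11 →
      RootDead H (r <<< 792 ||| a ||| b) (MX ||| laneM 11 ||| laneM 10)) : Dead3 K r := by
  intro B hB hl
  obtain ⟨h1, h2, h3, h4, h5, h6⟩ := hK B hB hl
  exact h _ (hla B h1 hl h2 h3) _ (hlb B h1 hl h4 h5) (lane_agree B 11 10) B h6
    (fits_three (enc_shift_link hr hl) (laneM_lt _) (laneM_lt _) rfl rfl)

end Pool.Agent.Helper49.TY
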